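import Mathlib

set_option autoImplicit false
open MeasureTheory

namespace Pool.Agent.Helper785.EN

/-- Third power of the negative part. -/
noncomputable def th (s : ℝ) : ℝ := (max (-s) 0) ^ 3

/-- Free Hamiltonian on `ℝ²`. -/
noncomputable def H0 (p : ℝ × ℝ) : ℝ := Real.exp (p.1 + p.2 ^ 2 / 2) + th p.1

/-- Periodicity of a function on `ℝ²` for the lattice generated by `(1,-al)` and `(0,1)`. -/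
def Per {α : Type*} (al : ℝ) (f : ℝ × ℝ → α) : Prop :=
  (∀ y, f (y + (1, -al)) = f y) ∧ ∀ y, f (y + (0, 1)) = f y

/-- Hypotheses on a perturbation `G (t, x, p, C)` (fourth variable: energy). -/
structure Pert (al : ℝ) (G : ℝ × ℝ × ℝ × ℝ → ℝ) : Prop where
  smooth : ContDiff ℝ 2 G
  per1 : ∀ t x p C, G (t + 1, x - al, p, C) = G (t, x, p, C)
  per2 : ∀ t x p C, G (t, x + 1, p, C) = G (t, x, p, C)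
  supp : ∀ t x p C, G (t, x, p, C) ≠ 0 → |p| < 1 / 4 ∧ 1 / 2 < C ∧ C < 3 / 2
  zero : ∀ t x C, G (t, x, 0, C) = 0
  bd : ∀ z, |G z| ≤ 1 / 16
  bC : ∀ z, |fderiv ℝ G z (0, 0, 0, 1)| ≤ 1 / 100
  bpp : ∀ z, |fderiv ℝ (fun z' => fderiv ℝ G z' (0, 0, 1, 0)) z (0, 0, 1, 0)| ≤ 1 / 4
  bpC : ∀ z, |fderiv ℝ (fun z' => fderiv ℝ G z' (0, 0, 1, 0)) z (0, 0, 0, 1)| ≤ 1 / 100
  bCC : ∀ z, |fderiv ℝ (fun z' => fderiv ℝ G z' (0, 0, 0, 1)) z (0, 0, 0, 1)| ≤ 1 / 100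

/-- `C` is the energy function of the perturbation `G`: `q = ((t, x), (p1, p2))`. -/
def IsEnergy (G : ℝ × ℝ × ℝ × ℝ → ℝ) (C : (ℝ × ℝ) × (ℝ × ℝ) → ℝ) : Prop :=
  ∀ q, C q = q.2.1 + q.2.2 ^ 2 / 2 + G (q.1.1, q.1.2, q.2.2, C q)

/-- The Hamiltonian with energy function `C`. -/
noncomputable def Hof (C : (ℝ × ℝ) × (ℝ × ℝ) → ℝ) (q : (ℝ × ℝ) × (ℝ × ℝ)) : ℝ :=
  Real.exp (C q) + th q.2.1

/-- Tonelli type conditions on a Hamiltonian on `ℝ² × ℝ²`. -/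
structure TonH (H : (ℝ × ℝ) × (ℝ × ℝ) → ℝ) : Prop where
  smooth : ContDiff ℝ 2 H
  pd : ∀ y p w : ℝ × ℝ, w ≠ 0 →
    0 < fderiv ℝ (fun q => fderiv ℝ (fun q' => H (y, q')) q) p w w
  sup : ∀ A : ℝ, ∃ B : ℝ, ∀ y p : ℝ × ℝ, A * ‖p‖ - B ≤ H (y, p)
  locbd : ∀ A : ℝ, ∃ B : ℝ, ∀ y p : ℝ × ℝ, ‖p‖ ≤ A → H (y, p) ≤ B

/-- `L` is the Legendre transform of `H`. -/
structure LegP (H L : (ℝ × ℝ) × (ℝ × ℝ) → ℝ) : Prop where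
  smooth : ContDiff ℝ 2 L
  pd : ∀ y v w : ℝ × ℝ, w ≠ 0 →
    0 < fderiv ℝ (fun q => fderiv ℝ (fun q' => L (y, q')) q) v w w
  sup : ∀ A : ℝ, ∃ B : ℝ, ∀ y v : ℝ × ℝ, A * ‖v‖ - B ≤ L (y, v)
  young : ∀ y p v : ℝ × ℝ, p.1 * v.1 + p.2 * v.2 ≤ L (y, v) + H (y, p)
  eq_of : ∀ y p v : ℝ × ℝ, (∀ w : ℝ × ℝ, fderiv ℝ (fun q => H (y, q)) p w = w.1 * v.1 + w.2 * v.2) →
    p.1 * v.1 + p.2 * v.2 = L (y, v) + H (y, p)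
  grad_of : ∀ y p v : ℝ × ℝ, p.1 * v.1 + p.2 * v.2 = L (y, v) + H (y, p) →
    ∀ w : ℝ × ℝ, fderiv ℝ (fun q => H (y, q)) p w = w.1 * v.1 + w.2 * v.2
  surj : ∀ y v : ℝ × ℝ, ∃ p : ℝ × ℝ, p.1 * v.1 + p.2 * v.2 = L (y, v) + H (y, p)

/-- A canonical triple `(X, P, F)(t, θ, c)` for the Hamiltonian `p²/2 + g(t,x,p)`. -/
structure Triple (al : ℝ) (g : ℝ × ℝ × ℝ → ℝ) (X P F : ℝ × ℝ × ℝ → ℝ) : Prop where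
  sX : ContDiff ℝ 2 X
  sP : ContDiff ℝ 2 P
  sF : ContDiff ℝ 2 F
  canon : ∀ z v : ℝ × ℝ × ℝ, P z * fderiv ℝ X z v - (P z ^ 2 / 2 + g (z.1, X z, P z)) * v.1
    = z.2.2 * v.2.1 - z.2.2 ^ 2 / 2 * v.1 + fderiv ℝ F z v
  pos : ∀ z, 0 < fderiv ℝ X z (0, 1, 0)
  X1 : ∀ t s c, X (t + 1, s - al, c) = X (t, s, c) - al
  X2 : ∀ t s c, X (t, s + 1, c) = X (t, s, c) + 1
  P1 : ∀ t s c, P (t + 1, s - al, c) = P (t, s, c)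
  P2 : ∀ t s c, P (t, s + 1, c) = P (t, s, c)
  F1 : ∀ t s c, F (t + 1, s - al, c) = F (t, s, c)
  F2 : ∀ t s c, F (t, s + 1, c) = F (t, s, c)
  mom : ∀ t s c, |c| ≤ 1 / 4 → |P (t, s, c)| ≤ 1 / 4

/-- Calibration data of the cohomology class `c` with energy value `e0`. -/
structure Calib (al : ℝ) (H : (ℝ × ℝ) × (ℝ × ℝ) → ℝ) (c : ℝ × ℝ) (e0 : ℝ)
    (u : ℝ × ℝ → ℝ) (Y : ℝ × ℝ → ℝ × ℝ) (w : ℝ × ℝ → ℝ) (V : ℝ × ℝ → ℝ × ℝ) (e : ℝ × ℝ) :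
    Prop where
  hu : ContDiff ℝ 1 u
  pu : Per al u
  hH : ∀ y, H (y, (c.1 + fderiv ℝ u y (1, 0), c.2 + fderiv ℝ u y (0, 1))) = e0
  hY : ContDiff ℝ 1 Y
  eY1 : ∀ s, Y (s + (1, -al)) = Y s + (1, -al)
  eY2 : ∀ s, Y (s + (0, 1)) = Y s + (0, 1)
  hw : Continuous w
  pw : Per al w
  w0 : ∀ s, 0 < w s
  hV : Continuous V
  pV : Per al V
  flow : ∀ s, w s • V s = fderiv ℝ Y s e
  grad : ∀ s q : ℝ × ℝ, fderiv ℝ (fun p => H (Y s, p))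
      (c.1 + fderiv ℝ u (Y s) (1, 0), c.2 + fderiv ℝ u (Y s) (0, 1)) q
    = q.1 * (V s).1 + q.2 * (V s).2

/-- Linear change of coordinates from the standard lattice to the lattice of `Per`. -/
def Az (al : ℝ) (z : Fin 2 → ℝ) : ℝ × ℝ := (z 0, z 1 - al * z 0)

/-- A Lagrangian in the coordinates of the frozen statement. -/
def lift (al : ℝ) (L : (ℝ × ℝ) × (ℝ × ℝ) → ℝ) (q : (Fin 2 → ℝ) × (Fin 2 → ℝ)) : ℝ :=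
  L (Az al q.1, Az al q.2)

/-- Closed probability measures. -/
def AdmL (L : (Fin 2 → ℝ) × (Fin 2 → ℝ) → ℝ) (μ : Measure ((Fin 2 → ℝ) × (Fin 2 → ℝ))) : Prop :=
  IsProbabilityMeasure μ ∧ Integrable (fun p => ‖p.2‖) μ ∧ Integrable L μ ∧
    ∀ φ : (Fin 2 → ℝ) → ℝ, ContDiff ℝ 1 φ →
      (∀ (x : Fin 2 → ℝ) (k : Fin 2 → ℤ), φ (x + (fun i => (k i : ℝ))) = φ x) →
      ∫ p, fderiv ℝ φ p.1 p.2 ∂μ = 0

/-- The pairing on `ℝ²`. -/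
def dot (c v : ℝ × ℝ) : ℝ := c.1 * v.1 + c.2 * v.2

end Pool.Agent.Helper785.EN
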