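import Pool.Agent.Helper785.EN.Defs

set_option autoImplicit false
open MeasureTheory

namespace Pool.Agent.Helper785.EN
namespace J_th_facts



variable {al : ℝ} {G G' : ℝ × ℝ × ℝ × ℝ → ℝ}



open Topology Filter Asymptotics in
theorem max_pow_deriv_aux (n : ℕ) (hn : 1 ≤ n) (x : ℝ) :
    HasDerivAt (fun x : ℝ => (max x 0) ^ (n + 1)) (((n + 1 : ℕ) : ℝ) * (max x 0) ^ n) x := by
  rcases lt_trichotomy x 0 with hx | hx | hx
  · have h1 : (fun x : ℝ => (max x 0) ^ (n + 1)) =ᶠ[𝓝 x] fun _ => (0:ℝ) := by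
      filter_upwards [Iio_mem_nhds hx] with y hy
      have hy' : y < 0 := hy
      rw [max_eq_right hy'.le, zero_pow (by omega)]
    have h2 : ((n + 1 : ℕ) : ℝ) * (max x 0) ^ n = 0 := by
      rw [max_eq_right hx.le, zero_pow (by omega), mul_zero]
    rw [h2]
    exact (hasDerivAt_const x (0:ℝ)).congr_of_eventuallyEq h1
  · subst hx
    have h2 : ((n + 1 : ℕ) : ℝ) * (max (0:ℝ) 0) ^ n = 0 := by
      rw [max_self, zero_pow (by omega), mul_zero]
    rw [h2, hasDerivAt_iff_isLittleO_nhds_zero]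
    have h3 : (fun h : ℝ => (max (0 + h) 0) ^ (n + 1) - (max (0:ℝ) 0) ^ (n + 1) - h • (0:ℝ)) =
        fun h : ℝ => (max h 0) ^ (n + 1) := by
      funext h
      rw [zero_add, max_self, zero_pow (by omega), smul_zero, sub_zero, sub_zero]
    rw [h3]
    have h4 : (fun h : ℝ => (max h 0) ^ (n + 1)) =O[𝓝 0] fun h : ℝ => h ^ (n + 1) := by
      apply IsBigO.of_bound 1
      refine Eventually.of_forall fun h => ?_
      rw [one_mul, norm_pow, norm_pow, Real.norm_eq_abs, Real.norm_eq_abs]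
      apply pow_le_pow_left₀ (abs_nonneg _)
      rw [abs_of_nonneg (le_max_right h 0)]
      exact max_le (le_abs_self h) (abs_nonneg h)
    exact h4.trans_isLittleO (isLittleO_pow_id (by omega))
  · have h1 : (fun x : ℝ => (max x 0) ^ (n + 1)) =ᶠ[𝓝 x] fun y => y ^ (n + 1) := by
      filter_upwards [Ioi_mem_nhds hx] with y hy
      have hy' : 0 < y := hy
      rw [max_eq_left hy'.le]
    have h2 := hasDerivAt_pow (n + 1) x
    rw [Nat.add_sub_cancel] at h2
    rw [max_eq_left hx.le]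
    exact h2.congr_of_eventuallyEq h1

/-- `th` is C², with the obvious derivatives. -/
theorem th_facts : ContDiff ℝ 2 th ∧ (∀ s : ℝ, HasDerivAt th (-3 * (max (-s) 0) ^ 2) s) ∧
    (∀ s : ℝ, HasDerivAt (fun s : ℝ => -3 * (max (-s) 0) ^ 2) (6 * max (-s) 0) s) := by
  have hA : ∀ s : ℝ, HasDerivAt th (-3 * (max (-s) 0) ^ 2) s := by
    intro s
    have h1 := (max_pow_deriv_aux 2 (by norm_num) (-s)).comp s (hasDerivAt_neg s)
    have h2 : (((2 + 1 : ℕ) : ℝ) * (max (-s) 0) ^ 2 * -1) = -3 * (max (-s) 0) ^ 2 := by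
      push_cast; ring
    rw [h2] at h1
    exact h1
  have hB : ∀ s : ℝ, HasDerivAt (fun s : ℝ => -3 * (max (-s) 0) ^ 2) (6 * max (-s) 0) s := by
    intro s
    have h1 := ((max_pow_deriv_aux 1 le_rfl (-s)).comp s (hasDerivAt_neg s)).const_mul (-3)
    have h2 : (-3 * (((1 + 1 : ℕ) : ℝ) * (max (-s) 0) ^ 1 * -1)) = 6 * max (-s) 0 := by
      push_cast; ring
    rw [h2] at h1
    exact h1
  refine ⟨?_, hA, hB⟩
  have hd : deriv th = fun s => -3 * (max (-s) 0) ^ 2 := funext fun s => (hA s).deriv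
  have hd2 : deriv (fun s : ℝ => -3 * (max (-s) 0) ^ 2) = fun s => 6 * max (-s) 0 :=
    funext fun s => (hB s).deriv
  rw [show (2 : WithTop ℕ∞) = 1 + 1 from (one_add_one_eq_two).symm, contDiff_succ_iff_deriv]
  refine ⟨fun s => (hA s).differentiableAt, by simp, ?_⟩
  rw [hd, contDiff_one_iff_deriv]
  refine ⟨fun s => (hB s).differentiableAt, ?_⟩
  rw [hd2]
  fun_prop

end J_th_facts
export J_th_facts (th_facts)
end Pool.Agent.Helper785.EN
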