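import Pool.Agent.Helper785.EN.Defs
import Pool.Agent.Helper785.EN.P_th_facts

set_option autoImplicit false
open MeasureTheory

namespace Pool.Agent.Helper785.EN
namespace J_grad_Hof



variable {al : ℝ} {G G' : ℝ × ℝ × ℝ × ℝ → ℝ}







/-- gradient of the Hamiltonian in `p`. -/
theorem grad_Hof (hG : Pert al G) {C : (ℝ × ℝ) × (ℝ × ℝ) → ℝ} (sC : ContDiff ℝ 2 C)
    (hC : IsEnergy G C) (y p w : ℝ × ℝ) :
    fderiv ℝ (fun q => Hof C (y, q)) p w
      = Real.exp (C (y, p)) / (1 - fderiv ℝ G (y.1, y.2, p.2, C (y, p)) (0, 0, 0, 1))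
          * (w.1 + (p.2 + fderiv ℝ G (y.1, y.2, p.2, C (y, p)) (0, 0, 1, 0)) * w.2)
        - 3 * (max (-p.1) 0) ^ 2 * w.1 := by
  set z : ℝ × ℝ × ℝ × ℝ := (y.1, y.2, p.2, C (y, p)) with hz
  have dC : Differentiable ℝ C := sC.differentiable (by norm_num)
  have dCy : DifferentiableAt ℝ (fun q : ℝ × ℝ => C (y, q)) p :=
    (dC (y, p)).comp p ((differentiableAt_const y).prodMk differentiableAt_id)
  set D : ℝ := fderiv ℝ (fun q : ℝ × ℝ => C (y, q)) p w with hD
  -- the line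
  have hl : HasDerivAt (fun s : ℝ => p + s • w) w 0 := by
    have h := ((hasDerivAt_id (0:ℝ)).smul_const w).const_add p
    simpa using h
  have hl0 : p + (0:ℝ) • w = p := by simp
  have hc : HasDerivAt (fun s : ℝ => C (y, p + s • w)) D 0 := by
    have h1 : HasFDerivAt (fun q : ℝ × ℝ => C (y, q)) (fderiv ℝ (fun q : ℝ × ℝ => C (y, q)) p)
        (p + (0:ℝ) • w) := by rw [hl0]; exact dCy.hasFDerivAt
    exact h1.comp_hasDerivAt (0:ℝ) hl
  have hl1 : HasDerivAt (fun s : ℝ => (p + s • w).1) w.1 0 := by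
    have h := ((hasDerivAt_id (0:ℝ)).mul_const w.1).const_add p.1
    simpa using h
  have hl2 : HasDerivAt (fun s : ℝ => (p + s • w).2) w.2 0 := by
    have h := ((hasDerivAt_id (0:ℝ)).mul_const w.2).const_add p.2
    simpa using h
  have hin : HasDerivAt (fun s : ℝ => ((y.1, y.2, (p + s • w).2, C (y, p + s • w)) :
      ℝ × ℝ × ℝ × ℝ)) (0, 0, w.2, D) 0 :=
    (hasDerivAt_const (0:ℝ) y.1).prodMk ((hasDerivAt_const (0:ℝ) y.2).prodMk (hl2.prodMk hc))
  have dG : Differentiable ℝ G := hG.smooth.differentiable (by norm_num)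
  have hGs : HasDerivAt (fun s : ℝ => G (y.1, y.2, (p + s • w).2, C (y, p + s • w)))
      (fderiv ℝ G z (0, 0, w.2, D)) 0 := by
    have h1 : HasFDerivAt G (fderiv ℝ G z)
        ((y.1, y.2, (p + (0:ℝ) • w).2, C (y, p + (0:ℝ) • w)) : ℝ × ℝ × ℝ × ℝ) := by
      rw [hl0]; exact (dG z).hasFDerivAt
    exact h1.comp_hasDerivAt (0:ℝ) hin
  have hsum := (hl1.add ((hl2.pow 2).div_const 2)).add hGs
  have heq : (fun s : ℝ => C (y, p + s • w)) = (fun s : ℝ => (p + s • w).1) +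
      (fun s : ℝ => ((fun s : ℝ => (p + s • w).2) ^ 2) s / 2) +
      (fun s : ℝ => G (y.1, y.2, (p + s • w).2, C (y, p + s • w))) := by
    funext s
    have := hC (y, p + s • w)
    simpa using this
  rw [← heq] at hsum
  have huniq := hc.unique hsum
  have hsplit : ((0, 0, w.2, D) : ℝ × ℝ × ℝ × ℝ) = w.2 • ((0, 0, 1, 0) : ℝ × ℝ × ℝ × ℝ)
      + D • ((0, 0, 0, 1) : ℝ × ℝ × ℝ × ℝ) := by
    simp
  rw [hsplit, map_add, map_smul, map_smul, smul_eq_mul, smul_eq_mul, hl0] at huniq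
  have hb := hG.bC z
  have hne : (1 - fderiv ℝ G z (0, 0, 0, 1)) ≠ 0 := by
    have := (abs_le.1 hb).2
    intro h
    linarith
  have hDval : D = (w.1 + (p.2 + fderiv ℝ G z (0, 0, 1, 0)) * w.2)
      / (1 - fderiv ℝ G z (0, 0, 0, 1)) := by
    rw [eq_div_iff hne]
    norm_num at huniq
    linarith
  -- the Hamiltonian
  have dth : DifferentiableAt ℝ (fun q : ℝ × ℝ => th q.1) p :=
    (th_facts.2.1 p.1).differentiableAt.comp p differentiableAt_fst
  have dH : DifferentiableAt ℝ (fun q : ℝ × ℝ => Hof C (y, q)) p := by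
    unfold Hof
    exact dCy.exp.add dth
  have h1 : HasDerivAt (fun s : ℝ => Hof C (y, p + s • w))
      (fderiv ℝ (fun q => Hof C (y, q)) p w) 0 := by
    have h1 : HasFDerivAt (fun q : ℝ × ℝ => Hof C (y, q)) (fderiv ℝ (fun q => Hof C (y, q)) p)
        (p + (0:ℝ) • w) := by rw [hl0]; exact dH.hasFDerivAt
    exact h1.comp_hasDerivAt (0:ℝ) hl
  have h2 : HasDerivAt (fun s : ℝ => Hof C (y, p + s • w))
      (Real.exp (C (y, p)) * D + (-3 * (max (-p.1) 0) ^ 2) * w.1) 0 := by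
    have ha := hc.exp
    have hb : HasDerivAt (fun s : ℝ => th (p + s • w).1) ((-3 * (max (-p.1) 0) ^ 2) * w.1) 0 := by
      have hth : HasDerivAt th (-3 * (max (-p.1) 0) ^ 2) (p + (0:ℝ) • w).1 := by
        rw [hl0]; exact th_facts.2.1 p.1
      exact hth.comp (0:ℝ) hl1
    rw [hl0] at ha
    exact ha.add hb
  rw [h1.unique h2, hDval]
  ring

end J_grad_Hof
export J_grad_Hof (grad_Hof)
end Pool.Agent.Helper785.EN
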