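import Pool.Agent.Helper785.EN.Defs
import Pool.Agent.Helper785.EN.P_grad_Hof

set_option autoImplicit false
open MeasureTheory

namespace Pool.Agent.Helper785.EN
namespace J_calib_triv



variable {al : ℝ} {G G' : ℝ × ℝ × ℝ × ℝ → ℝ}







/-- one-sided vanishing gives a vanishing directional derivative. -/
theorem dz_aux (hG : Pert al G) (z v : ℝ × ℝ × ℝ × ℝ)
    (h : (∀ τ : ℝ, 0 ≤ τ → G (z + τ • v) = 0) ∨ (∀ τ : ℝ, τ ≤ 0 → G (z + τ • v) = 0)) :
    fderiv ℝ G z v = 0 := by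
  have hd : DifferentiableAt ℝ G z := hG.smooth.differentiable (by norm_num) z
  have h1 : HasDerivAt (fun τ : ℝ => z + τ • v) v 0 := by
    have := ((hasDerivAt_id (0:ℝ)).smul_const v).const_add z
    simpa using this
  have h2 : HasDerivAt (fun τ : ℝ => G (z + τ • v)) (fderiv ℝ G z v) 0 := by
    have h3 : HasFDerivAt G (fderiv ℝ G z) (z + (0:ℝ) • v) := by
      simpa using hd.hasFDerivAt
    exact h3.comp_hasDerivAt (0:ℝ) h1
  rcases h with h | h
  · have h4 : HasDerivWithinAt (fun τ : ℝ => G (z + τ • v)) 0 (Set.Ici 0) 0 := by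
      refine (hasDerivWithinAt_const (0:ℝ) (Set.Ici (0:ℝ)) (0:ℝ)).congr (fun τ hτ => h τ hτ)
        (h 0 le_rfl)
    exact (uniqueDiffWithinAt_Ici (0:ℝ)).eq_deriv _ h2.hasDerivWithinAt h4
  · have h4 : HasDerivWithinAt (fun τ : ℝ => G (z + τ • v)) 0 (Set.Iic 0) 0 := by
      refine (hasDerivWithinAt_const (0:ℝ) (Set.Iic (0:ℝ)) (0:ℝ)).congr (fun τ hτ => h τ hτ)
        (h 0 le_rfl)
    exact (uniqueDiffWithinAt_Iic (0:ℝ)).eq_deriv _ h2.hasDerivWithinAt h4

theorem vanish_aux (hG : Pert al G) (t x p s : ℝ)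
    (h : 1 / 4 ≤ |p| ∨ s ≤ 1 / 2 ∨ 3 / 2 ≤ s) : G (t, x, p, s) = 0 := by
  by_contra hne
  obtain ⟨h1, h2, h3⟩ := hG.supp t x p s hne
  rcases h with h | h | h <;> linarith

theorem inj_aux (hG : Pert al G) (t x p s s' : ℝ)
    (h : s - G (t, x, p, s) = s' - G (t, x, p, s')) : s = s' := by
  have hdG : Differentiable ℝ G := hG.smooth.differentiable (by norm_num)
  have hder : ∀ r : ℝ, HasDerivAt (fun r : ℝ => r - G (t, x, p, r))
      (1 - fderiv ℝ G (t, x, p, r) (0, 0, 0, 1)) r := by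
    intro r
    have h1 : HasDerivAt (fun r : ℝ => ((t, x, p, r) : ℝ × ℝ × ℝ × ℝ)) (0, 0, 0, 1) r :=
      (hasDerivAt_const r t).prodMk ((hasDerivAt_const r x).prodMk
        ((hasDerivAt_const r p).prodMk (hasDerivAt_id r)))
    exact (hasDerivAt_id r).sub ((hdG _).hasFDerivAt.comp_hasDerivAt r h1)
  have hmono : StrictMono (fun r : ℝ => r - G (t, x, p, r)) := by
    apply strictMono_of_deriv_pos
    intro r
    rw [(hder r).deriv]
    have := abs_le.1 (hG.bC (t, x, p, r))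
    linarith [this.2]
  exact hmono.injective h

/-- calibration data when the perturbation vanishes at `c`. -/
theorem calib_triv (hG : Pert al G) {C : (ℝ × ℝ) × (ℝ × ℝ) → ℝ} (sC : ContDiff ℝ 2 C)
    (hC : IsEnergy G C) (c : ℝ × ℝ)
    (hc : 1 / 4 ≤ |c.2| ∨ c.1 + c.2 ^ 2 / 2 ≤ 1 / 2 ∨ 3 / 2 ≤ c.1 + c.2 ^ 2 / 2) :
    ∃ u Y w V e, Calib al (Hof C) c (H0 c) u Y w V e := by
  obtain ⟨C0, hC0⟩ : ∃ C0 : ℝ, C0 = c.1 + c.2 ^ 2 / 2 := ⟨_, rfl⟩
  rw [← hC0] at hc
  have hv0 : ∀ t x, G (t, x, c.2, C0) = 0 := fun t x => vanish_aux hG t x c.2 C0 hc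
  have hCc : ∀ y : ℝ × ℝ, C (y, c) = C0 := by
    intro y
    have h1 := hC (y, c)
    simp only at h1
    apply inj_aux hG y.1 y.2 c.2
    rw [hv0]
    linarith
  have hdC : ∀ y : ℝ × ℝ, fderiv ℝ G (y.1, y.2, c.2, C0) (0, 0, 0, 1) = 0 := by
    intro y
    apply dz_aux hG
    rcases hc with h | h | h
    · left
      intro τ _
      have : ((y.1, y.2, c.2, C0) : ℝ × ℝ × ℝ × ℝ) + τ • (0, 0, 0, 1) =
        (y.1, y.2, c.2, C0 + τ) := by simp
      rw [this]
      exact vanish_aux hG _ _ _ _ (Or.inl h)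
    · right
      intro τ hτ
      have : ((y.1, y.2, c.2, C0) : ℝ × ℝ × ℝ × ℝ) + τ • (0, 0, 0, 1) =
        (y.1, y.2, c.2, C0 + τ) := by simp
      rw [this]
      exact vanish_aux hG _ _ _ _ (Or.inr (Or.inl (by linarith)))
    · left
      intro τ hτ
      have : ((y.1, y.2, c.2, C0) : ℝ × ℝ × ℝ × ℝ) + τ • (0, 0, 0, 1) =
        (y.1, y.2, c.2, C0 + τ) := by simp
      rw [this]
      exact vanish_aux hG _ _ _ _ (Or.inr (Or.inr (by linarith)))
  have hdp : ∀ y : ℝ × ℝ, fderiv ℝ G (y.1, y.2, c.2, C0) (0, 0, 1, 0) = 0 := by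
    intro y
    apply dz_aux hG
    have hs : ∀ τ : ℝ, ((y.1, y.2, c.2, C0) : ℝ × ℝ × ℝ × ℝ) + τ • (0, 0, 1, 0) =
        (y.1, y.2, c.2 + τ, C0) := by intro τ; simp
    rcases hc with h | h | h
    · rcases le_total 0 c.2 with h0 | h0
      · left
        intro τ hτ
        rw [hs]
        rw [abs_of_nonneg h0] at h
        apply vanish_aux hG _ _ _ _ (Or.inl _)
        rw [abs_of_nonneg (by linarith)]
        linarith
      · right
        intro τ hτ
        rw [hs]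
        rw [abs_of_nonpos h0] at h
        apply vanish_aux hG _ _ _ _ (Or.inl _)
        rw [abs_of_nonpos (by linarith)]
        linarith
    · left
      intro τ _
      rw [hs]
      exact vanish_aux hG _ _ _ _ (Or.inr (Or.inl h))
    · left
      intro τ _
      rw [hs]
      exact vanish_aux hG _ _ _ _ (Or.inr (Or.inr h))
  refine ⟨fun _ => 0, fun s => s, fun _ => 1,
    fun _ => (Real.exp C0 - 3 * (max (-c.1) 0) ^ 2, Real.exp C0 * c.2),
    (Real.exp C0 - 3 * (max (-c.1) 0) ^ 2, Real.exp C0 * c.2), ?_⟩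
  have hf0 : ∀ y v : ℝ × ℝ, fderiv ℝ (fun _ : ℝ × ℝ => (0:ℝ)) y v = 0 := by
    intro y v
    simp
  constructor
  · exact contDiff_const
  · exact ⟨fun _ => rfl, fun _ => rfl⟩
  · intro y
    simp only [hf0, add_zero]
    unfold Hof H0
    simp only
    have : C (y, (c.1, c.2)) = C0 := hCc y
    rw [this, hC0]
  · exact contDiff_id
  · intro s; rfl
  · intro s; rfl
  · exact continuous_const
  · exact ⟨fun _ => rfl, fun _ => rfl⟩
  · intro s; norm_num
  · exact continuous_const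
  · exact ⟨fun _ => rfl, fun _ => rfl⟩
  · intro s
    simp
  · intro s q
    simp only [hf0, add_zero]
    rw [grad_Hof hG sC hC s (c.1, c.2) q]
    have : C (s, (c.1, c.2)) = C0 := hCc s
    simp only [this, hdC, hdp]
    ring

end J_calib_triv
export J_calib_triv (calib_triv)
end Pool.Agent.Helper785.EN
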