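import Pool.Agent.Helper785.EN.Defs

set_option autoImplicit false
open MeasureTheory

namespace Pool.Agent.Helper785.EN
namespace J_energy_per



variable {al : ℝ} {G G' : ℝ × ℝ × ℝ × ℝ → ℝ}



theorem ep_lip (hG : Pert al G) (t x p a b : ℝ) :
    |G (t, x, p, b) - G (t, x, p, a)| ≤ 1 / 100 * |b - a| := by
  have hd : ∀ s : ℝ, HasDerivAt (fun s : ℝ => G (t, x, p, s))
      (fderiv ℝ G (t, x, p, s) (0, 0, 0, 1)) s := by
    intro s
    have h1 : HasFDerivAt G (fderiv ℝ G (t, x, p, s)) (t, x, p, s) :=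
      (hG.smooth.differentiable (by norm_num) (t, x, p, s)).hasFDerivAt
    have h2 : HasDerivAt (fun s : ℝ => ((t, x, p, s) : ℝ × ℝ × ℝ × ℝ)) (0, 0, 0, 1) s :=
      (hasDerivAt_const s t).prodMk ((hasDerivAt_const s x).prodMk
        ((hasDerivAt_const s p).prodMk (hasDerivAt_id s)))
    exact h1.comp_hasDerivAt s h2
  have h3 := Convex.norm_image_sub_le_of_norm_hasDerivWithin_le (s := Set.univ) (x := a) (y := b)
    (C := 1 / 100)
    (f := fun s : ℝ => G (t, x, p, s)) (f' := fun s => fderiv ℝ G (t, x, p, s) (0, 0, 0, 1))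
    (fun s _ => (hd s).hasDerivWithinAt) (fun s _ => hG.bC _) convex_univ (Set.mem_univ _)
    (Set.mem_univ _)
  exact h3

theorem ep_uniq (hG : Pert al G) (A t x p a b : ℝ) (ha : a = A + G (t, x, p, a))
    (hb : b = A + G (t, x, p, b)) : a = b := by
  have h1 := ep_lip hG t x p a b
  have h2 : b - a = G (t, x, p, b) - G (t, x, p, a) := by linarith
  rw [← h2] at h1
  have h3 : |b - a| = 0 := by
    have := abs_nonneg (b - a)
    linarith
  have := abs_eq_zero.mp h3
  linarith

theorem energy_per (hG : Pert al G) {C : (ℝ × ℝ) × (ℝ × ℝ) → ℝ} (hC : IsEnergy G C) (p : ℝ × ℝ) :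
    Per al (fun y => Hof C (y, p)) := by
  constructor
  · intro y
    have h1 := hC (y + (1, -al), p)
    have h2 := hC (y, p)
    simp only [Prod.fst_add, Prod.snd_add] at h1 h2
    rw [← sub_eq_add_neg, hG.per1] at h1
    have h3 := ep_uniq hG _ _ _ _ _ _ h1 h2
    unfold Hof
    simp only []
    rw [h3]
  · intro y
    have h1 := hC (y + (0, 1), p)
    have h2 := hC (y, p)
    simp only [Prod.fst_add, Prod.snd_add, add_zero] at h1 h2
    rw [hG.per2] at h1
    have h3 := ep_uniq hG _ _ _ _ _ _ h1 h2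
    unfold Hof
    simp only []
    rw [h3]

end J_energy_per
export J_energy_per (energy_per)
end Pool.Agent.Helper785.EN
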