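import Pool.Agent.Helper785.EN.Defs

set_option autoImplicit false
open MeasureTheory

namespace Pool.Agent.Helper785.EN
namespace J_int_per



variable {al : ℝ} {G G' : ℝ × ℝ × ℝ × ℝ → ℝ}



theorem ipr_fst {F : ℝ × ℝ → ℝ} (hF : Continuous F)
    (h : ∀ y, ∫ x in Set.Icc (0 : ℝ) 1, F (x, y) = 0) :
    ∫ z in Set.Icc (0 : ℝ) 1 ×ˢ Set.Icc (0 : ℝ) 1, F z = 0 := by
  have hi : IntegrableOn F (Set.Icc (0 : ℝ) 1 ×ˢ Set.Icc (0 : ℝ) 1) volume :=
    hF.continuousOn.integrableOn_compact (isCompact_Icc.prod isCompact_Icc)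
  rw [IntegrableOn, Measure.volume_eq_prod, ← Measure.prod_restrict] at hi
  rw [Measure.volume_eq_prod, ← Measure.prod_restrict, integral_prod_symm _ hi]
  simp only [h, integral_zero]

theorem ipr_snd {F : ℝ × ℝ → ℝ} (hF : Continuous F)
    (h : ∀ x, ∫ y in Set.Icc (0 : ℝ) 1, F (x, y) = 0) :
    ∫ z in Set.Icc (0 : ℝ) 1 ×ˢ Set.Icc (0 : ℝ) 1, F z = 0 := by
  have hi : IntegrableOn F (Set.Icc (0 : ℝ) 1 ×ˢ Set.Icc (0 : ℝ) 1) volume :=
    hF.continuousOn.integrableOn_compact (isCompact_Icc.prod isCompact_Icc)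
  rw [IntegrableOn, Measure.volume_eq_prod, ← Measure.prod_restrict] at hi
  rw [Measure.volume_eq_prod, ← Measure.prod_restrict, integral_prod _ hi]
  simp only [h, integral_zero]

theorem ipr_ftc {k k' : ℝ → ℝ} (hk : ∀ x, HasDerivAt k (k' x) x) (hc : Continuous k')
    (h01 : k 1 = k 0) : ∫ x in Set.Icc (0 : ℝ) 1, k' x = 0 := by
  rw [integral_Icc_eq_integral_Ioc, ← intervalIntegral.integral_of_le zero_le_one,
    intervalIntegral.integral_eq_sub_of_hasDerivAt (fun x _ => hk x) (hc.intervalIntegrable _ _),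
    h01, sub_self]


/-- the integral over the unit square of a derivative of a periodic function vanishes. -/
theorem int_per {f : ℝ × ℝ → ℝ} (hf : ContDiff ℝ 1 f) (hp : Per al f) (e : ℝ × ℝ) :
    ∫ z in Set.Icc (0 : ℝ) 1 ×ˢ Set.Icc (0 : ℝ) 1, fderiv ℝ f (z.1, z.2 - al * z.1) e = 0 := by
  have hfd : Continuous (fderiv ℝ f) := hf.continuous_fderiv (by norm_num)
  have hdiff : Differentiable ℝ f := hf.differentiable (by norm_num)
  have hcA : Continuous (fun z : ℝ × ℝ => (z.1, z.2 - al * z.1)) := by fun_prop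
  have hcont : ∀ v : ℝ × ℝ, Continuous (fun z : ℝ × ℝ => fderiv ℝ f (z.1, z.2 - al * z.1) v) :=
    fun v => (hfd.comp hcA).clm_apply continuous_const
  have hD1 : ∫ z in Set.Icc (0 : ℝ) 1 ×ˢ Set.Icc (0 : ℝ) 1,
      fderiv ℝ f (z.1, z.2 - al * z.1) (1, -al) = 0 := by
    apply ipr_fst (hcont (1, -al))
    intro y
    refine ipr_ftc (k := fun x => f (x, y - al * x))
      (k' := fun x => fderiv ℝ f (x, y - al * x) (1, -al)) ?_ ?_ ?_
    · intro x
      have h1 : HasDerivAt (fun x : ℝ => ((x, y - al * x) : ℝ × ℝ)) (1, -al) x := by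
        have h2 : HasDerivAt (fun x : ℝ => y - al * x) (-al) x := by
          have h3 := ((hasDerivAt_id x).const_mul al).const_sub y
          simpa using h3
        exact (hasDerivAt_id x).prodMk h2
      exact (hdiff (x, y - al * x)).hasFDerivAt.comp_hasDerivAt x h1
    · exact (hcont (1, -al)).comp (by fun_prop : Continuous (fun x : ℝ => ((x, y) : ℝ × ℝ)))
    · have h1 := hp.1 (0, y)
      show f (1, y - al * 1) = f (0, y - al * 0)
      rw [mul_zero, sub_zero, mul_one, ← h1]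
      congr 1
      ext
      · simp
      · simp [sub_eq_add_neg]
  have hD2 : ∫ z in Set.Icc (0 : ℝ) 1 ×ˢ Set.Icc (0 : ℝ) 1,
      fderiv ℝ f (z.1, z.2 - al * z.1) (0, 1) = 0 := by
    apply ipr_snd (hcont (0, 1))
    intro x
    refine ipr_ftc (k := fun y => f (x, y - al * x))
      (k' := fun y => fderiv ℝ f (x, y - al * x) (0, 1)) ?_ ?_ ?_
    · intro y
      have h1 : HasDerivAt (fun y : ℝ => ((x, y - al * x) : ℝ × ℝ)) (0, 1) y := by
        have h2 : HasDerivAt (fun y : ℝ => y - al * x) 1 y := (hasDerivAt_id y).sub_const _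
        exact (hasDerivAt_const y x).prodMk h2
      exact (hdiff (x, y - al * x)).hasFDerivAt.comp_hasDerivAt y h1
    · exact (hcont (0, 1)).comp (by fun_prop : Continuous (fun y : ℝ => ((x, y) : ℝ × ℝ)))
    · have h1 := hp.2 (x, 0 - al * x)
      show f (x, 1 - al * x) = f (x, 0 - al * x)
      rw [← h1]
      congr 1
      ext
      · simp
      · simp only [Prod.snd_add]
        ring
  have he : ∀ z : ℝ × ℝ, fderiv ℝ f (z.1, z.2 - al * z.1) e =
      e.1 * fderiv ℝ f (z.1, z.2 - al * z.1) (1, -al) +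
        (e.2 + al * e.1) * fderiv ℝ f (z.1, z.2 - al * z.1) (0, 1) := by
    intro z
    have h1 : e = e.1 • ((1, -al) : ℝ × ℝ) + (e.2 + al * e.1) • ((0, 1) : ℝ × ℝ) := by
      ext
      · simp
      · simp only [Prod.snd_add, Prod.smul_snd, smul_eq_mul]
        ring
    conv_lhs => rw [h1]
    rw [map_add, map_smul, map_smul, smul_eq_mul, smul_eq_mul]
  have hint : ∀ v : ℝ × ℝ, IntegrableOn (fun z : ℝ × ℝ => fderiv ℝ f (z.1, z.2 - al * z.1) v)
      (Set.Icc (0 : ℝ) 1 ×ˢ Set.Icc (0 : ℝ) 1) volume := fun v =>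
    (hcont v).continuousOn.integrableOn_compact (isCompact_Icc.prod isCompact_Icc)
  simp_rw [he]
  rw [integral_add ((hint _).const_mul _) ((hint _).const_mul _), integral_const_mul,
    integral_const_mul, hD1, hD2, mul_zero, mul_zero, add_zero]

end J_int_per
export J_int_per (int_per)
end Pool.Agent.Helper785.EN
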