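import Pool.Agent.Helper785.EN.Defs
import Pool.Agent.Helper785.EN.P_int_per

set_option autoImplicit false
open MeasureTheory

namespace Pool.Agent.Helper785.EN
namespace J_closed_of_calib



variable {al : ℝ} {G G' : ℝ × ℝ × ℝ × ℝ → ℝ}







theorem aux_mu (ρ : ℝ × ℝ → ℝ) (hρ : Continuous ρ) (h0 : ∀ z, 0 ≤ ρ z)
    (h1 : ∫ z in Set.Icc (0 : ℝ) 1 ×ˢ Set.Icc (0 : ℝ) 1, ρ z = 1)
    (T : ℝ × ℝ → (Fin 2 → ℝ) × (Fin 2 → ℝ)) (hT : Continuous T) :
    ∃ μ : Measure ((Fin 2 → ℝ) × (Fin 2 → ℝ)), IsProbabilityMeasure μ ∧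
      ∀ F : (Fin 2 → ℝ) × (Fin 2 → ℝ) → ℝ, Continuous F → Integrable F μ ∧
        ∫ p, F p ∂μ = ∫ z in Set.Icc (0 : ℝ) 1 ×ˢ Set.Icc (0 : ℝ) 1, ρ z * F (T z) := by
  set Q : Set (ℝ × ℝ) := Set.Icc (0 : ℝ) 1 ×ˢ Set.Icc (0 : ℝ) 1 with hQ
  have hQc : IsCompact Q := isCompact_Icc.prod isCompact_Icc
  have hcint : ∀ g : ℝ × ℝ → ℝ, Continuous g → Integrable g (volume.restrict Q) := fun g hg =>
    hg.continuousOn.integrableOn_compact hQc
  set dn : ℝ × ℝ → NNReal := fun z => (ρ z).toNNReal with hdn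
  have hdm : Measurable dn := (continuous_real_toNNReal.comp hρ).measurable
  set ν : Measure (ℝ × ℝ) := (volume.restrict Q).withDensity (fun z => (dn z : ENNReal)) with hν
  have hνu : ν Set.univ = 1 := by
    rw [hν, withDensity_apply _ MeasurableSet.univ, Measure.restrict_univ]
    have := ofReal_integral_eq_lintegral_ofReal (hcint ρ hρ) (Filter.Eventually.of_forall h0)
    rw [h1, ENNReal.ofReal_one] at this
    exact this.symm
  have hsm : ∀ (z : ℝ × ℝ) (r : ℝ), dn z • r = ρ z * r := by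
    intro z r
    rw [NNReal.smul_def, hdn]
    simp only [Real.coe_toNNReal _ (h0 z), smul_eq_mul]
  refine ⟨ν.map T, ⟨?_⟩, ?_⟩
  · rw [Measure.map_apply hT.measurable MeasurableSet.univ, Set.preimage_univ, hνu]
  · intro F hF
    constructor
    · rw [integrable_map_measure hF.aestronglyMeasurable hT.aemeasurable, hν,
        integrable_withDensity_iff_integrable_smul hdm]
      have : (fun x => dn x • (F ∘ T) x) = fun x => ρ x * F (T x) := by
        funext x
        exact hsm x _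
      rw [this]
      exact hcint _ (hρ.mul (hF.comp hT))
    · rw [integral_map hT.aemeasurable hF.aestronglyMeasurable, hν,
        integral_withDensity_eq_integral_smul hdm]
      congr 1
      funext x
      exact hsm x _

/-- inverse of `Az` -/
noncomputable def Bzc (al : ℝ) : ℝ × ℝ →L[ℝ] (Fin 2 → ℝ) :=
  ContinuousLinearMap.pi ![ContinuousLinearMap.fst ℝ ℝ ℝ,
    ContinuousLinearMap.snd ℝ ℝ ℝ + al • ContinuousLinearMap.fst ℝ ℝ ℝ]

theorem Bzc_zero (al : ℝ) (v : ℝ × ℝ) : Bzc al v 0 = v.1 := by simp [Bzc]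
theorem Bzc_one (al : ℝ) (v : ℝ × ℝ) : Bzc al v 1 = v.2 + al * v.1 := by simp [Bzc]

theorem Az_Bzc (al : ℝ) (v : ℝ × ℝ) : Az al (Bzc al v) = v := by
  simp only [Az, Bzc_zero, Bzc_one]
  ext
  · rfl
  · simp

/-- the linear functional `dot c (Az al x)` -/
noncomputable def Lamc (al : ℝ) (c : ℝ × ℝ) : (Fin 2 → ℝ) →L[ℝ] ℝ :=
  c.1 • (ContinuousLinearMap.proj 0 : (Fin 2 → ℝ) →L[ℝ] ℝ) +
    c.2 • ((ContinuousLinearMap.proj 1 : (Fin 2 → ℝ) →L[ℝ] ℝ) -
      al • (ContinuousLinearMap.proj 0 : (Fin 2 → ℝ) →L[ℝ] ℝ))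

theorem Lamc_apply (al : ℝ) (c : ℝ × ℝ) (x : Fin 2 → ℝ) : Lamc al c x = dot c (Az al x) := by
  simp [Lamc, dot, Az]

/-- the weighted integral of the derivative along the flow vanishes -/
theorem aux_flow {H : (ℝ × ℝ) × (ℝ × ℝ) → ℝ} {c : ℝ × ℝ} {e0 : ℝ}
    {u Y w V e} (hc : Calib al H c e0 u Y w V e) (f : ℝ × ℝ → ℝ) (hf : ContDiff ℝ 1 f)
    (hp : Per al f) :
    ∫ z in Set.Icc (0 : ℝ) 1 ×ˢ Set.Icc (0 : ℝ) 1, w (z.1, z.2 - al * z.1) *
      fderiv ℝ f (Y (z.1, z.2 - al * z.1)) (V (z.1, z.2 - al * z.1)) = 0 := by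
  have h1 : ∀ s, w s * fderiv ℝ f (Y s) (V s) = fderiv ℝ (f ∘ Y) s e := by
    intro s
    rw [fderiv_comp s (hf.differentiable one_ne_zero _) (hc.hY.differentiable one_ne_zero _)]
    rw [ContinuousLinearMap.comp_apply, ← hc.flow s, map_smul, smul_eq_mul]
  have h2 : Per al (f ∘ Y) := by
    refine ⟨fun y => ?_, fun y => ?_⟩
    · rw [Function.comp_apply, hc.eY1, hp.1]
      rfl
    · rw [Function.comp_apply, hc.eY2, hp.2]
      rfl
  have h3 := int_per (hf.comp hc.hY) h2 e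
  refine Eq.trans ?_ h3
  congr 1
  funext z
  exact h1 _

/-- the closed measure carried by a calibrated graph. -/
theorem closed_of_calib {H L : (ℝ × ℝ) × (ℝ × ℝ) → ℝ} (hL : LegP H L) {c : ℝ × ℝ} {e0 : ℝ}
    {u Y w V e} (hc : Calib al H c e0 u Y w V e) :
    ∃ μ, AdmL (lift al L) μ ∧
      ∫ p, lift al L p ∂μ = dot c (Az al (∫ p, p.2 ∂μ)) - e0 := by
  set Q : Set (ℝ × ℝ) := Set.Icc (0 : ℝ) 1 ×ˢ Set.Icc (0 : ℝ) 1 with hQ
  have hQc : IsCompact Q := isCompact_Icc.prod isCompact_Icc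
  have hcint : ∀ g : ℝ × ℝ → ℝ, Continuous g → Integrable g (volume.restrict Q) := fun g hg =>
    hg.continuousOn.integrableOn_compact hQc
  set sz : ℝ × ℝ → ℝ × ℝ := fun z => (z.1, z.2 - al * z.1) with hsz
  have hszc : Continuous sz := by
    rw [hsz]
    fun_prop
  have hwc : Continuous (fun z => w (sz z)) := hc.hw.comp hszc
  set W : ℝ := ∫ z in Q, w (sz z) with hW
  have hWpos : 0 < W := by
    rw [hW, integral_pos_iff_support_of_nonneg (fun z => (hc.w0 _).le) (hcint _ hwc)]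
    have hsupp : Function.support (fun z => w (sz z)) = Set.univ := by
      ext z
      simp only [Function.mem_support, Set.mem_univ, iff_true]
      exact (hc.w0 _).ne'
    rw [hsupp, Measure.restrict_apply MeasurableSet.univ, Set.univ_inter, hQ,
      Measure.volume_eq_prod, Measure.prod_prod]
    simp
  obtain ⟨μ, hμ, hF⟩ := aux_mu (fun z => W⁻¹ * w (sz z)) (continuous_const.mul hwc)
    (fun z => mul_nonneg (inv_nonneg.2 hWpos.le) (hc.w0 _).le)
    (by rw [integral_const_mul, ← hW, inv_mul_cancel₀ hWpos.ne'])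
    (fun z => (Bzc al (Y (sz z)), Bzc al (V (sz z))))
    (((Bzc al).continuous.comp (hc.hY.continuous.comp hszc)).prodMk
      ((Bzc al).continuous.comp (hc.hV.comp hszc)))
  have hAz : Continuous (Az al) := by
    unfold Az
    fun_prop
  have hLc : Continuous (lift al L) := by
    unfold lift
    exact hL.smooth.continuous.comp ((hAz.comp continuous_fst).prodMk (hAz.comp continuous_snd))
  have hnorm := hF (fun p => ‖p.2‖) (continuous_snd.norm)
  have hlift := hF (lift al L) hLc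
  have hsnd : Integrable (fun p : (Fin 2 → ℝ) × (Fin 2 → ℝ) => p.2) μ :=
    (integrable_norm_iff (continuous_snd.aestronglyMeasurable)).1 hnorm.1
  refine ⟨μ, ⟨hμ, hnorm.1, hlift.1, ?_⟩, ?_⟩
  · intro φ hφ hper
    have hcd : Continuous (fun p : (Fin 2 → ℝ) × (Fin 2 → ℝ) => fderiv ℝ φ p.1 p.2) := by
      have h1 : Continuous (fderiv ℝ φ) := hφ.continuous_fderiv one_ne_zero
      exact (h1.comp continuous_fst).clm_apply continuous_snd
    rw [(hF _ hcd).2]
    set f : ℝ × ℝ → ℝ := φ ∘ (Bzc al) with hfdef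
    have hf : ContDiff ℝ 1 f := hφ.comp (Bzc al).contDiff
    have hfp : Per al f := by
      refine ⟨fun y => ?_, fun y => ?_⟩
      · rw [hfdef, Function.comp_apply, Function.comp_apply, map_add]
        have h1 : Bzc al (1, -al) = (fun i => ((![1, 0] : Fin 2 → ℤ) i : ℝ)) := by
          funext i
          fin_cases i
          · simp [Bzc_zero]
          · simp [Bzc_one]
        rw [h1, hper]
      · rw [hfdef, Function.comp_apply, Function.comp_apply, map_add]
        have h1 : Bzc al (0, 1) = (fun i => ((![0, 1] : Fin 2 → ℤ) i : ℝ)) := by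
          funext i
          fin_cases i
          · simp [Bzc_zero]
          · simp [Bzc_one]
        rw [h1, hper]
    have hder : ∀ y v, fderiv ℝ f y v = fderiv ℝ φ (Bzc al y) (Bzc al v) := by
      intro y v
      rw [hfdef, fderiv_comp y (hφ.differentiable one_ne_zero _)
        (Bzc al).differentiableAt, ContinuousLinearMap.fderiv]
      rfl
    have h3 := aux_flow hc f hf hfp
    have h4 : (fun z : ℝ × ℝ => W⁻¹ * w (sz z) *
        fderiv ℝ φ (Bzc al (Y (sz z))) (Bzc al (V (sz z)))) =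
        fun z => W⁻¹ * (w (z.1, z.2 - al * z.1) *
          fderiv ℝ f (Y (z.1, z.2 - al * z.1)) (V (z.1, z.2 - al * z.1))) := by
      funext z
      rw [hder, mul_assoc]
    show ∫ z in Q, W⁻¹ * w (sz z) *
        fderiv ℝ φ (Bzc al (Y (sz z))) (Bzc al (V (sz z))) = 0
    rw [h4, integral_const_mul, h3, mul_zero]
  · have hΛ : dot c (Az al (∫ p, p.2 ∂μ)) = ∫ p, Lamc al c p.2 ∂μ := by
      rw [← Lamc_apply, ContinuousLinearMap.integral_comp_comm _ hsnd]
    have hΛ2 := hF (fun p => Lamc al c p.2) ((Lamc al c).continuous.comp continuous_snd)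
    rw [hΛ, hlift.2, hΛ2.2]
    have hL' : ∀ s, L (Y s, V s) = dot c (V s) + fderiv ℝ u (Y s) (V s) - e0 := by
      intro s
      have h1 := hL.eq_of (Y s) (c.1 + fderiv ℝ u (Y s) (1, 0), c.2 + fderiv ℝ u (Y s) (0, 1))
        (V s) (fun q => hc.grad s q)
      rw [hc.hH] at h1
      have h2 : fderiv ℝ u (Y s) (V s) = fderiv ℝ u (Y s) (1, 0) * (V s).1 +
          fderiv ℝ u (Y s) (0, 1) * (V s).2 := by
        have h3 : V s = (V s).1 • ((1 : ℝ), (0 : ℝ)) + (V s).2 • ((0 : ℝ), (1 : ℝ)) := by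
          ext <;> simp
        conv_lhs => rw [h3]
        rw [map_add, map_smul, map_smul, smul_eq_mul, smul_eq_mul]
        ring
      simp only at h1
      rw [h2, dot]
      linarith
    have hu0 := aux_flow hc u hc.hu hc.pu
    have e1 : ∀ z : ℝ × ℝ, W⁻¹ * w (sz z) * lift al L (Bzc al (Y (sz z)), Bzc al (V (sz z))) =
        W⁻¹ * w (sz z) * Lamc al c (Bzc al (V (sz z))) + W⁻¹ * (w (z.1, z.2 - al * z.1) *
          fderiv ℝ u (Y (z.1, z.2 - al * z.1)) (V (z.1, z.2 - al * z.1))) -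
          (W⁻¹ * w (sz z)) * e0 := by
      intro z
      have : lift al L (Bzc al (Y (sz z)), Bzc al (V (sz z))) = L (Y (sz z), V (sz z)) := by
        simp only [lift, Az_Bzc]
      rw [this, hL', Lamc_apply, Az_Bzc]
      ring
    have hcΛ : Continuous (fun z : ℝ × ℝ => W⁻¹ * w (sz z) * Lamc al c (Bzc al (V (sz z)))) :=
      (continuous_const.mul hwc).mul ((Lamc al c).continuous.comp
        ((Bzc al).continuous.comp (hc.hV.comp hszc)))
    have hcu : Continuous (fun z : ℝ × ℝ => W⁻¹ * (w (z.1, z.2 - al * z.1) *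
          fderiv ℝ u (Y (z.1, z.2 - al * z.1)) (V (z.1, z.2 - al * z.1)))) := by
      have h1 : Continuous (fderiv ℝ u) := hc.hu.continuous_fderiv one_ne_zero
      exact continuous_const.mul (hwc.mul ((h1.comp (hc.hY.continuous.comp hszc)).clm_apply
        (hc.hV.comp hszc)))
    have hcw : Continuous (fun z : ℝ × ℝ => (W⁻¹ * w (sz z)) * e0) :=
      (continuous_const.mul hwc).mul continuous_const
    show ∫ z in Q, W⁻¹ * w (sz z) * lift al L (Bzc al (Y (sz z)), Bzc al (V (sz z))) =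
      (∫ z in Q, W⁻¹ * w (sz z) * Lamc al c (Bzc al (V (sz z)))) - e0
    simp_rw [e1]
    have hcs : Continuous (fun z : ℝ × ℝ => W⁻¹ * w (sz z) * Lamc al c (Bzc al (V (sz z))) +
        W⁻¹ * (w (z.1, z.2 - al * z.1) *
          fderiv ℝ u (Y (z.1, z.2 - al * z.1)) (V (z.1, z.2 - al * z.1)))) := hcΛ.add hcu
    rw [integral_sub (hcint _ hcs) (hcint _ hcw),
      integral_add (hcint _ hcΛ) (hcint _ hcu), integral_const_mul, hu0, mul_zero, add_zero,
      integral_mul_const, integral_const_mul, ← hW, inv_mul_cancel₀ hWpos.ne', one_mul]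

end J_closed_of_calib
export J_closed_of_calib (closed_of_calib)
end Pool.Agent.Helper785.EN
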