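import Pool.Agent.Helper785.EN.Defs

set_option autoImplicit false
open MeasureTheory

namespace Pool.Agent.Helper785.EN
namespace J_lower



variable {al : ℝ} {G G' : ℝ × ℝ × ℝ × ℝ → ℝ}



/-- `Az` as a continuous linear map -/
noncomputable def x18033_A (al : ℝ) : (Fin 2 → ℝ) →L[ℝ] ℝ × ℝ :=
  (ContinuousLinearMap.proj (R := ℝ) (φ := fun _ : Fin 2 => ℝ) 0).prod
    (ContinuousLinearMap.proj (R := ℝ) (φ := fun _ : Fin 2 => ℝ) 1 -
      al • ContinuousLinearMap.proj (R := ℝ) (φ := fun _ : Fin 2 => ℝ) 0)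

theorem x18033_A_apply (al : ℝ) (z : Fin 2 → ℝ) : x18033_A al z = Az al z := by
  simp [x18033_A, Az]

theorem x18033_per {al : ℝ} {u : ℝ × ℝ → ℝ} (hu : Per al u) (x : Fin 2 → ℝ) (k : Fin 2 → ℤ) :
    u (x18033_A al (x + (fun i => (k i : ℝ)))) = u (x18033_A al x) := by
  have h1 : Function.Periodic u ((1, -al) : ℝ × ℝ) := hu.1
  have h2 : Function.Periodic u ((0, 1) : ℝ × ℝ) := hu.2
  have e : x18033_A al (x + (fun i => (k i : ℝ))) =
      x18033_A al x + (k 0 • ((1, -al) : ℝ × ℝ)) + (k 1 • ((0, 1) : ℝ × ℝ)) := by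
    rw [x18033_A_apply, x18033_A_apply]
    ext
    · simp [Az]
    · simp [Az]; ring
  rw [e, (h2.zsmul (k 1)) _, (h1.zsmul (k 0)) _]

/-- calibration inequality integrated against a closed measure. -/
theorem lower {H L : (ℝ × ℝ) × (ℝ × ℝ) → ℝ} (hL : LegP H L) {c : ℝ × ℝ} {e0 : ℝ} {u Y w V e}
    (hc : Calib al H c e0 u Y w V e) {μ : Measure ((Fin 2 → ℝ) × (Fin 2 → ℝ))}
    (hμ : AdmL (lift al L) μ) :
    dot c (Az al (∫ p, p.2 ∂μ)) - e0 ≤ ∫ p, lift al L p ∂μ := by
  obtain ⟨hprob, hint1, hintL, hclosed⟩ := hμ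
  set f : (Fin 2 → ℝ) → ℝ := fun z => u (x18033_A al z) with hf
  have hfC : ContDiff ℝ 1 f := hc.hu.comp (x18033_A al).contDiff
  have hfper : ∀ (x : Fin 2 → ℝ) (k : Fin 2 → ℤ), f (x + (fun i => (k i : ℝ))) = f x :=
    fun x k => x18033_per hc.pu x k
  have hfd : ∀ z w, fderiv ℝ f z w = fderiv ℝ u (Az al z) (Az al w) := by
    intro z w
    have h1 : fderiv ℝ f z = (fderiv ℝ u (x18033_A al z)).comp (x18033_A al) := by
      have h2 := fderiv_comp (f := (x18033_A al : (Fin 2 → ℝ) → ℝ × ℝ)) (g := u) z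
        ((hc.hu.differentiable (by norm_num)) _) (x18033_A al).differentiableAt
      rw [ContinuousLinearMap.fderiv] at h2
      exact h2
    rw [h1]
    simp [x18033_A_apply]
  have hzero := hclosed f hfC hfper
  -- pointwise inequality
  have hpt : ∀ p : (Fin 2 → ℝ) × (Fin 2 → ℝ),
      dot c (Az al p.2) + fderiv ℝ f p.1 p.2 ≤ lift al L p + e0 := by
    intro p
    have hy := hL.young (Az al p.1)
      (c.1 + fderiv ℝ u (Az al p.1) (1, 0), c.2 + fderiv ℝ u (Az al p.1) (0, 1)) (Az al p.2)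
    rw [hc.hH] at hy
    have hlin : fderiv ℝ u (Az al p.1) (Az al p.2) =
        fderiv ℝ u (Az al p.1) (1, 0) * (Az al p.2).1 +
          fderiv ℝ u (Az al p.1) (0, 1) * (Az al p.2).2 := by
      have e : Az al p.2 = (Az al p.2).1 • ((1, 0) : ℝ × ℝ) + (Az al p.2).2 • ((0, 1) : ℝ × ℝ) := by
        ext <;> simp
      conv_lhs => rw [e]
      rw [map_add, map_smul, map_smul, smul_eq_mul, smul_eq_mul]
      ring
    rw [hfd, hlin]
    have hl : lift al L p = L (Az al p.1, Az al p.2) := rfl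
    rw [hl]
    simp only [dot]
    simp only at hy
    linarith
  -- boundedness of the derivative
  have hfdc : Continuous (fderiv ℝ f) := hfC.continuous_fderiv (by norm_num)
  have hfdper : ∀ (x : Fin 2 → ℝ) (k : Fin 2 → ℤ),
      fderiv ℝ f (x + (fun i => (k i : ℝ))) = fderiv ℝ f x := by
    intro x k
    have h1 := fderiv_comp_add_right (𝕜 := ℝ) (f := f) (x := x) (fun i => (k i : ℝ))
    rw [← h1]
    congr 1
    funext y
    exact hfper y k
  obtain ⟨K, hK⟩ : ∃ K, ∀ x, ‖fderiv ℝ f x‖ ≤ K := by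
    have hcomp : IsCompact (Set.Icc (0 : Fin 2 → ℝ) 1) := isCompact_Icc
    obtain ⟨K, hK⟩ := hcomp.exists_bound_of_continuousOn hfdc.continuousOn
    refine ⟨K, fun x => ?_⟩
    have h1 := hfdper x (fun i => -⌊x i⌋)
    rw [← h1]
    apply hK
    constructor
    · intro i
      have := Int.floor_le (x i)
      simp only [Pi.zero_apply, Pi.add_apply, Int.cast_neg]
      linarith
    · intro i
      have := (Int.lt_floor_add_one (x i)).le
      simp only [Pi.one_apply, Pi.add_apply, Int.cast_neg]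
      linarith
  have hsm : AEStronglyMeasurable (fun p : (Fin 2 → ℝ) × (Fin 2 → ℝ) => p.2) μ :=
    continuous_snd.aestronglyMeasurable
  have hint2 : Integrable (fun p : (Fin 2 → ℝ) × (Fin 2 → ℝ) => p.2) μ :=
    (integrable_norm_iff hsm).mp hint1
  have hintf : Integrable (fun p : (Fin 2 → ℝ) × (Fin 2 → ℝ) => fderiv ℝ f p.1 p.2) μ := by
    refine Integrable.mono' (hint1.const_mul K) ?_ ?_
    · have : Continuous (fun p : (Fin 2 → ℝ) × (Fin 2 → ℝ) => fderiv ℝ f p.1 p.2) :=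
        (hfdc.comp continuous_fst).clm_apply continuous_snd
      exact this.aestronglyMeasurable
    · refine Filter.Eventually.of_forall fun p => ?_
      exact ((fderiv ℝ f p.1).le_opNorm p.2).trans
        (mul_le_mul_of_nonneg_right (hK p.1) (norm_nonneg _))
  -- the linear functional
  let ℓ : (Fin 2 → ℝ) →L[ℝ] ℝ :=
    (c.1 • ContinuousLinearMap.fst ℝ ℝ ℝ + c.2 • ContinuousLinearMap.snd ℝ ℝ ℝ).comp (x18033_A al)
  have hℓ : ∀ w, ℓ w = dot c (Az al w) := by
    intro w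
    simp [ℓ, dot, x18033_A_apply]
  have hintd : Integrable (fun p : (Fin 2 → ℝ) × (Fin 2 → ℝ) => dot c (Az al p.2)) μ := by
    have := ℓ.integrable_comp hint2
    refine this.congr (Filter.Eventually.of_forall fun p => ?_)
    exact hℓ p.2
  have hdi : ∫ p, dot c (Az al p.2) ∂μ = dot c (Az al (∫ p, p.2 ∂μ)) := by
    rw [← hℓ, ← ContinuousLinearMap.integral_comp_comm ℓ hint2]
    exact integral_congr_ae (Filter.Eventually.of_forall fun p => (hℓ p.2).symm)
  have hle : ∫ p, (dot c (Az al p.2) + fderiv ℝ f p.1 p.2) ∂μ ≤ ∫ p, (lift al L p + e0) ∂μ :=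
    integral_mono (hintd.add hintf) (hintL.add (integrable_const e0)) hpt
  rw [integral_add hintd hintf, hzero, add_zero, hdi,
    integral_add hintL (integrable_const e0)] at hle
  have hone : ∫ _p : (Fin 2 → ℝ) × (Fin 2 → ℝ), e0 ∂μ = e0 := by simp
  rw [hone] at hle
  linarith

end J_lower
export J_lower (lower)
end Pool.Agent.Helper785.EN
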