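import Pool.Agent.Helper785.EN.Defs
import Pool.Agent.Helper785.EN.P_lower
import Pool.Agent.Helper785.EN.P_closed_of_calib

set_option autoImplicit false
open MeasureTheory

namespace Pool.Agent.Helper785.EN
namespace J_finite_beta



variable {al : ℝ} {G G' : ℝ × ℝ × ℝ × ℝ → ℝ}










theorem Az_inj_aux {z z' : Fin 2 → ℝ} (h : Az al z = Az al z') : z = z' := by
  have h1 : z 0 = z' 0 := congrArg Prod.fst h
  have h2 : z 1 - al * z 0 = z' 1 - al * z' 0 := congrArg Prod.snd h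
  rw [h1] at h2
  funext i
  fin_cases i
  · exact h1
  · show z 1 = z' 1
    linarith

/-- for a finite stage: closed measures with every rotation vector and the right action. -/
theorem finite_beta {C : (ℝ × ℝ) × (ℝ × ℝ) → ℝ}
    (hT : ∀ c, ∃ u Y w V e, Calib al (Hof C) c (H0 c) u Y w V e)
    {L L0 : (ℝ × ℝ) × (ℝ × ℝ) → ℝ} (hL : LegP (Hof C) L)
    (hL0 : LegP (fun q : (ℝ × ℝ) × (ℝ × ℝ) => H0 q.2) L0) :
    (∀ μ, AdmL (lift al L) μ → L0 (0, Az al (∫ p, p.2 ∂μ)) ≤ ∫ p, lift al L p ∂μ) ∧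
    ∀ h : Fin 2 → ℝ, ∃ μ, AdmL (lift al L) μ ∧ ∫ p, p.2 ∂μ = h ∧
      ∫ p, lift al L p ∂μ = L0 (0, Az al h) := by
  have first : ∀ μ, AdmL (lift al L) μ →
      L0 (0, Az al (∫ p, p.2 ∂μ)) ≤ ∫ p, lift al L p ∂μ := by
    intro μ hμ
    obtain ⟨c, hc⟩ := hL0.surj 0 (Az al (∫ p, p.2 ∂μ))
    obtain ⟨u, Y, w, V, e, hcal⟩ := hT c
    have h1 := lower hL hcal hμ
    have h2 : dot c (Az al (∫ p, p.2 ∂μ)) = L0 (0, Az al (∫ p, p.2 ∂μ)) + H0 c := hc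
    linarith
  refine ⟨first, ?_⟩
  intro h
  obtain ⟨c, hc⟩ := hL0.surj 0 (Az al h)
  obtain ⟨u, Y, w, V, e, hcal⟩ := hT c
  obtain ⟨μ, hμ, hint⟩ := closed_of_calib hL hcal
  have h1 := first μ hμ
  have h2 : dot c (Az al (∫ p, p.2 ∂μ)) ≤ L0 (0, Az al (∫ p, p.2 ∂μ)) + H0 c :=
    hL0.young 0 c (Az al (∫ p, p.2 ∂μ))
  have h3 : dot c (Az al (∫ p, p.2 ∂μ)) = L0 (0, Az al (∫ p, p.2 ∂μ)) + H0 c := by
    linarith
  have g1 := hL0.grad_of 0 c (Az al (∫ p, p.2 ∂μ)) h3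
  have g2 := hL0.grad_of 0 c (Az al h) hc
  have e1 : (Az al (∫ p, p.2 ∂μ)).1 = (Az al h).1 := by
    have a := g1 (1, 0)
    have b := g2 (1, 0)
    rw [a] at b
    simpa using b
  have e2 : (Az al (∫ p, p.2 ∂μ)).2 = (Az al h).2 := by
    have a := g1 (0, 1)
    have b := g2 (0, 1)
    rw [a] at b
    simpa using b
  have e3 : Az al (∫ p, p.2 ∂μ) = Az al h := Prod.ext e1 e2
  have e4 : ∫ p, p.2 ∂μ = h := Az_inj_aux e3
  refine ⟨μ, hμ, e4, ?_⟩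
  rw [← e3]
  linarith

end J_finite_beta
export J_finite_beta (finite_beta)
end Pool.Agent.Helper785.EN
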