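import Pool.Agent.Helper785.EN.Defs

set_option autoImplicit false
open MeasureTheory

namespace Pool.Agent.Helper785.EN
namespace J_gap_zero



variable {al : ℝ} {G G' : ℝ × ℝ × ℝ × ℝ → ℝ}



theorem gz_AL (al : ℝ) : ∃ AL : (Fin 2 → ℝ) →L[ℝ] ℝ × ℝ, ∀ z, AL z = Az al z := by
  refine ⟨(ContinuousLinearMap.proj 0).prod
    (ContinuousLinearMap.proj 1 - al • ContinuousLinearMap.proj 0), fun z => ?_⟩
  simp [Az]

theorem gz_per_fderiv {φ : ℝ × ℝ → ℝ} {c : ℝ × ℝ} (h : ∀ y, φ (y + c) = φ y) (y : ℝ × ℝ) :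
    fderiv ℝ φ (y + c) = fderiv ℝ φ y := by
  have e : (fun x => φ (x + c)) = φ := funext h
  have h2 := fderiv_comp_add_right (𝕜 := ℝ) (f := φ) (x := y) c
  rw [← h2, e]

theorem gz_per_all {α : Type*} {f : ℝ × ℝ → α} (al : ℝ) (h : Per al f) (z : Fin 2 → ℝ)
    (k : Fin 2 → ℤ) : f (Az al (z + fun i => (k i : ℝ))) = f (Az al z) := by
  have h1 : Function.Periodic f ((1 : ℝ), -al) := h.1
  have h2 : Function.Periodic f ((0 : ℝ), (1 : ℝ)) := h.2
  have e : Az al (z + fun i => (k i : ℝ)) = Az al z + (k 0) • ((1 : ℝ), -al) +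
      (k 1) • ((0 : ℝ), (1 : ℝ)) := by
    unfold Az
    ext
    · simp
    · simp
      ring
  rw [e, (h2.zsmul (k 1)) _, (h1.zsmul (k 0)) _]

theorem gz_bound {φ : ℝ × ℝ → ℝ} (al : ℝ) (hφ : ContDiff ℝ 1 φ) (hp : Per al φ) :
    ∃ K : ℝ, ∀ z : Fin 2 → ℝ, ‖fderiv ℝ φ (Az al z)‖ ≤ K := by
  obtain ⟨AL, hAL⟩ := gz_AL al
  have hp' : Per al (fderiv ℝ φ) :=
    ⟨fun y => gz_per_fderiv hp.1 y, fun y => gz_per_fderiv hp.2 y⟩
  have hc : Continuous fun z : Fin 2 → ℝ => fderiv ℝ φ (Az al z) := by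
    have : (fun z : Fin 2 → ℝ => fderiv ℝ φ (Az al z)) = (fderiv ℝ φ) ∘ AL := by
      funext z; simp [hAL]
    rw [this]
    exact (hφ.continuous_fderiv (by norm_num)).comp AL.continuous
  obtain ⟨K, hK⟩ := (isCompact_Icc (a := (0 : Fin 2 → ℝ)) (b := 1)).exists_bound_of_continuousOn
    hc.continuousOn
  refine ⟨K, fun z => ?_⟩
  have hz : z = (fun i => Int.fract (z i)) + fun i => ((⌊z i⌋ : ℤ) : ℝ) := by
    funext i
    simp [Int.fract_add_floor]
  rw [hz, gz_per_all al hp' (fun i => Int.fract (z i)) (fun i => ⌊z i⌋)]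
  refine hK _ ⟨fun i => ?_, fun i => ?_⟩
  · exact Int.fract_nonneg _
  · exact (Int.fract_lt_one _).le

theorem gz_fderiv {φ : ℝ × ℝ → ℝ} (al : ℝ) (hφ : ContDiff ℝ 1 φ) (z w : Fin 2 → ℝ) :
    fderiv ℝ (fun x => φ (Az al x)) z w = fderiv ℝ φ (Az al z) (Az al w) := by
  obtain ⟨AL, hAL⟩ := gz_AL al
  have e : (fun x => φ (Az al x)) = φ ∘ AL := by
    funext x; simp [hAL]
  have h1 : HasFDerivAt φ (fderiv ℝ φ (AL z)) (AL z) :=
    (hφ.differentiable (by norm_num) _).hasFDerivAt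
  rw [e, (h1.comp z AL.hasFDerivAt).fderiv]
  simp [hAL]

/-- test functions kill the measure of the gap. -/
theorem gap_zero {U : Set (ℝ × ℝ)} (hU : IsOpen U)
    {W : ℝ × ℝ → ℝ} (hgap : ∀ ε > 0, ∃ φ : ℝ × ℝ → ℝ, ContDiff ℝ 1 φ ∧ Per al φ ∧
      ∀ y, U.indicator 1 y - ε ≤ fderiv ℝ φ y (1, W y))
    {L : (Fin 2 → ℝ) × (Fin 2 → ℝ) → ℝ}
    {μ : Measure ((Fin 2 → ℝ) × (Fin 2 → ℝ))} (hμ : AdmL L μ)
    (hV : ∀ᵐ p ∂μ, Az al p.2 = (Real.exp 1, Real.exp 1 * W (Az al p.1))) :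
    μ {p | Az al p.1 ∈ U} = 0 := by
  obtain ⟨hprob, hint2, hintL, hclosed⟩ := hμ
  obtain ⟨AL, hAL⟩ := gz_AL al
  set S : Set ((Fin 2 → ℝ) × (Fin 2 → ℝ)) := {p | Az al p.1 ∈ U} with hS
  have hSo : IsOpen S := by
    have : S = (fun p : (Fin 2 → ℝ) × (Fin 2 → ℝ) => AL p.1) ⁻¹' U := by
      ext p; simp [hS, hAL]
    rw [this]
    exact hU.preimage (AL.continuous.comp continuous_fst)
  have hSm : MeasurableSet S := hSo.measurableSet
  have key : ∀ ε > 0, μ.real S ≤ ε := by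
    intro ε hε
    obtain ⟨φ, hφ, hper, hge⟩ := hgap ε hε
    obtain ⟨K, hK⟩ := gz_bound al hφ hper
    have hψ : ContDiff ℝ 1 (fun x : Fin 2 → ℝ => φ (Az al x)) := by
      have e : (fun x : Fin 2 → ℝ => φ (Az al x)) = φ ∘ AL := by
        funext x; simp [hAL]
      rw [e]
      exact hφ.comp AL.contDiff
    have h0 := hclosed (fun x => φ (Az al x)) hψ (fun x k => gz_per_all al hper x k)
    have h0' : ∫ p, fderiv ℝ φ (Az al p.1) (Az al p.2) ∂μ = 0 := by
      rw [← h0]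
      refine integral_congr_ae (Filter.Eventually.of_forall fun p => ?_)
      exact (gz_fderiv al hφ p.1 p.2).symm
    have hcont : Continuous fun p : (Fin 2 → ℝ) × (Fin 2 → ℝ) =>
        fderiv ℝ φ (Az al p.1) (Az al p.2) := by
      have e : (fun p : (Fin 2 → ℝ) × (Fin 2 → ℝ) => fderiv ℝ φ (Az al p.1) (Az al p.2)) =
          fun p => fderiv ℝ φ (AL p.1) (AL p.2) := by
        funext p; simp [hAL]
      rw [e]
      exact ((hφ.continuous_fderiv (by norm_num)).comp (AL.continuous.comp continuous_fst)).clm_apply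
        (AL.continuous.comp continuous_snd)
    have hintf : Integrable (fun p : (Fin 2 → ℝ) × (Fin 2 → ℝ) =>
        fderiv ℝ φ (Az al p.1) (Az al p.2)) μ := by
      refine Integrable.mono' (hint2.const_mul (K * ‖AL‖)) hcont.aestronglyMeasurable
        (Filter.Eventually.of_forall fun p => ?_)
      have hK0 : 0 ≤ K := (norm_nonneg _).trans (hK p.1)
      calc ‖fderiv ℝ φ (Az al p.1) (Az al p.2)‖
          ≤ ‖fderiv ℝ φ (Az al p.1)‖ * ‖Az al p.2‖ := ContinuousLinearMap.le_opNorm _ _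
        _ ≤ K * (‖AL‖ * ‖p.2‖) := by
            refine mul_le_mul (hK p.1) ?_ (norm_nonneg _) hK0
            rw [← hAL]
            exact AL.le_opNorm _
        _ = K * ‖AL‖ * ‖p.2‖ := by ring
    have hind : Integrable (fun p => S.indicator (1 : (Fin 2 → ℝ) × (Fin 2 → ℝ) → ℝ) p) μ :=
      (integrable_const (1 : ℝ)).indicator hSm
    have hintg : Integrable (fun p => Real.exp 1 *
        (S.indicator (1 : (Fin 2 → ℝ) × (Fin 2 → ℝ) → ℝ) p - ε)) μ :=
      Integrable.const_mul (hind.sub (integrable_const _)) _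
    have hle : ∀ᵐ p ∂μ, Real.exp 1 * (S.indicator 1 p - ε) ≤
        fderiv ℝ φ (Az al p.1) (Az al p.2) := by
      filter_upwards [hV] with p hp
      have e1 : Az al p.2 = Real.exp 1 • ((1 : ℝ), W (Az al p.1)) := by
        rw [hp]
        simp
      rw [e1, map_smul, smul_eq_mul]
      refine mul_le_mul_of_nonneg_left ?_ (Real.exp_pos 1).le
      have h1 := hge (Az al p.1)
      have e2 : S.indicator (1 : (Fin 2 → ℝ) × (Fin 2 → ℝ) → ℝ) p =
          U.indicator (1 : ℝ × ℝ → ℝ) (Az al p.1) := by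
        by_cases hpS : Az al p.1 ∈ U
        · have : p ∈ S := hpS
          rw [Set.indicator_of_mem this, Set.indicator_of_mem hpS]
          rfl
        · have : p ∉ S := hpS
          rw [Set.indicator_of_notMem this, Set.indicator_of_notMem hpS]
      rw [e2]
      exact h1
    have hI := integral_mono_ae hintg hintf hle
    rw [h0', integral_const_mul, integral_sub hind
      (integrable_const _), integral_indicator_one hSm] at hI
    simp at hI
    have hexp : 0 < Real.exp 1 := Real.exp_pos 1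
    by_contra hcon
    push Not at hcon
    have : 0 < Real.exp 1 * (μ.real S - ε) := mul_pos hexp (by linarith)
    linarith
  have h0 : μ.real S = 0 := by
    refine le_antisymm ?_ measureReal_nonneg
    refine le_of_forall_pos_le_add fun ε hε => ?_
    rw [zero_add]
    exact key ε hε
  rw [measureReal_eq_zero_iff] at h0
  exact h0

end J_gap_zero
export J_gap_zero (gap_zero)
end Pool.Agent.Helper785.EN
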