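import Pool.Agent.Helper785.EN.Defs

set_option autoImplicit false
open MeasureTheory

namespace Pool.Agent.Helper785.EN
namespace J_energy_close



variable {al : ℝ} {G G' : ℝ × ℝ × ℝ × ℝ → ℝ}



/-- the equation `c = A + G(t,x,p,c)` has at most one solution, stably in `G`. -/
theorem energy_close (hG : Pert al G) {ε : ℝ} (h : ∀ z, |G z - G' z| ≤ ε) {t x p A c c' : ℝ}
    (hc : c = A + G (t, x, p, c)) (hc' : c' = A + G' (t, x, p, c')) : |c - c'| ≤ 2 * ε := by
  have hder : ∀ s : ℝ, HasDerivAt (fun s : ℝ => G (t, x, p, s))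
      (fderiv ℝ G (t, x, p, s) (0, 0, 0, 1)) s := by
    intro s
    have hcurve : HasDerivAt (fun s : ℝ => (t, x, p, s)) ((0 : ℝ), (0 : ℝ), (0 : ℝ), (1 : ℝ)) s :=
      (hasDerivAt_const s t).prodMk ((hasDerivAt_const s x).prodMk
        ((hasDerivAt_const s p).prodMk (hasDerivAt_id s)))
    have hGd : DifferentiableAt ℝ G (t, x, p, s) := hG.smooth.contDiffAt.differentiableAt (by simp)
    exact hGd.hasFDerivAt.comp_hasDerivAt s hcurve
  have hmv := Convex.norm_image_sub_le_of_norm_deriv_le (f := fun s : ℝ => G (t, x, p, s))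
    (C := 1 / 100) (s := Set.univ) (x := c') (y := c)
    (fun s _ => (hder s).differentiableAt)
    (fun s _ => by rw [(hder s).deriv]; exact hG.bC _) convex_univ (Set.mem_univ _) (Set.mem_univ _)
  simp only [Real.norm_eq_abs] at hmv
  have h1 := h (t, x, p, c')
  have h2 : c - c' = (G (t, x, p, c) - G (t, x, p, c')) + (G (t, x, p, c') - G' (t, x, p, c')) := by
    linarith
  have h3 : |c - c'| ≤ |G (t, x, p, c) - G (t, x, p, c')| +
      |G (t, x, p, c') - G' (t, x, p, c')| := by
    calc |c - c'| = |(G (t, x, p, c) - G (t, x, p, c')) +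
          (G (t, x, p, c') - G' (t, x, p, c'))| := by rw [← h2]
      _ ≤ _ := abs_add_le _ _
  have h4 : 0 ≤ |c - c'| := abs_nonneg _
  have h5 : 0 ≤ |G (t, x, p, c') - G' (t, x, p, c')| := abs_nonneg _
  linarith

end J_energy_close
export J_energy_close (energy_close)
end Pool.Agent.Helper785.EN
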