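import Pool.Agent.Helper785.EN.Defs
import Pool.Agent.Helper785.EN.P_energy_close

set_option autoImplicit false
open MeasureTheory

namespace Pool.Agent.Helper785.EN
namespace J_hof_close



variable {al : ℝ} {G G' : ℝ × ℝ × ℝ × ℝ → ℝ}








theorem aux_exp_lip_le {a b : ℝ} (hb : b ≤ 2) (hab : a ≤ b) :
    Real.exp b - Real.exp a ≤ 10 * (b - a) := by
  have h1 : Real.exp a = Real.exp b * Real.exp (a - b) := by
    rw [← Real.exp_add]; congr 1; ring
  have h2 : (a - b) + 1 ≤ Real.exp (a - b) := Real.add_one_le_exp _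
  have h3 : Real.exp b ≤ Real.exp 2 := Real.exp_le_exp.2 hb
  have h4 : Real.exp 2 ≤ 10 := by
    have h5 : Real.exp 2 = Real.exp 1 * Real.exp 1 := by
      rw [← Real.exp_add]; norm_num
    have h6 := Real.exp_one_lt_d9
    have h7 := Real.exp_pos 1
    rw [h5]
    nlinarith
  have h8 : Real.exp b - Real.exp a = Real.exp b * (1 - Real.exp (a - b)) := by
    rw [h1]; ring
  rw [h8]
  have h9 : Real.exp b * (1 - Real.exp (a - b)) ≤ Real.exp b * (b - a) :=
    mul_le_mul_of_nonneg_left (by linarith) (Real.exp_pos b).le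
  have h10 : Real.exp b * (b - a) ≤ 10 * (b - a) :=
    mul_le_mul_of_nonneg_right (h3.trans h4) (by linarith)
  linarith

theorem aux_exp_lip {a b : ℝ} (ha : a ≤ 2) (hb : b ≤ 2) :
    |Real.exp a - Real.exp b| ≤ 10 * |a - b| := by
  rcases le_total a b with h | h
  · have h1 := aux_exp_lip_le hb h
    have h2 : Real.exp a ≤ Real.exp b := Real.exp_le_exp.2 h
    rw [abs_of_nonpos (by linarith), abs_of_nonpos (by linarith)]
    linarith
  · have h1 := aux_exp_lip_le ha h
    have h2 : Real.exp b ≤ Real.exp a := Real.exp_le_exp.2 h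
    rw [abs_of_nonneg (by linarith), abs_of_nonneg (by linarith)]
    linarith

/-- closeness of Hamiltonians from closeness of perturbations. -/
theorem hof_close (hG : Pert al G) (hG' : Pert al G') {C C' : (ℝ × ℝ) × (ℝ × ℝ) → ℝ}
    (hC : IsEnergy G C) (hC' : IsEnergy G' C') {ε : ℝ} (h0 : 0 ≤ ε) (h1 : ε ≤ 1 / 4)
    (h : ∀ z, |G z - G' z| ≤ ε) (q : (ℝ × ℝ) × (ℝ × ℝ)) :
    |Hof C q - Hof C' q| ≤ 20 * ε := by
  have hc := hC q
  have hc' := hC' q
  have hcl := energy_close hG h hc hc'
  have hd : Hof C q - Hof C' q = Real.exp (C q) - Real.exp (C' q) := by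
    unfold Hof; ring
  rw [hd]
  have hcl' := abs_le.1 hcl
  by_cases hz : G (q.1.1, q.1.2, q.2.2, C q) = 0
  · by_cases hz' : G' (q.1.1, q.1.2, q.2.2, C' q) = 0
    · rw [hz] at hc
      rw [hz'] at hc'
      have : C q = C' q := by rw [hc, hc']
      rw [this, sub_self, abs_zero]
      positivity
    · have h2 := (hG'.supp _ _ _ _ hz').2.2
      have h3 := aux_exp_lip (a := C q) (b := C' q) (by linarith) (by linarith)
      linarith
  · have h2 := (hG.supp _ _ _ _ hz).2.2
    have h3 := aux_exp_lip (a := C q) (b := C' q) (by linarith) (by linarith)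
    linarith

end J_hof_close
export J_hof_close (hof_close)
end Pool.Agent.Helper785.EN
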