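import Pool.Agent.Helper785.EN.Defs

set_option autoImplicit false
open MeasureTheory

namespace Pool.Agent.Helper785.EN
namespace J_leg_close



variable {al : ℝ} {G G' : ℝ × ℝ × ℝ × ℝ → ℝ}



theorem leg_close {H L H' L' : (ℝ × ℝ) × (ℝ × ℝ) → ℝ} (h : LegP H L) (h' : LegP H' L') {ε : ℝ}
    (hc : ∀ q, |H q - H' q| ≤ ε) (q : (ℝ × ℝ) × (ℝ × ℝ)) : |L q - L' q| ≤ ε := by
  obtain ⟨y, v⟩ := q
  obtain ⟨p, hp⟩ := h.surj y v
  obtain ⟨p', hp'⟩ := h'.surj y v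
  have h1 := h'.young y p v
  have h2 := h.young y p' v
  have h3 := abs_le.1 (hc (y, p))
  have h4 := abs_le.1 (hc (y, p'))
  rw [abs_le]
  constructor <;> linarith [h3.1, h3.2, h4.1, h4.2]

end J_leg_close
export J_leg_close (leg_close)
end Pool.Agent.Helper785.EN
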