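import Pool.Agent.Helper785.EN.Defs

set_option autoImplicit false
open MeasureTheory

namespace Pool.Agent.Helper785.EN
namespace J_leg_per



variable {al : ℝ} {G G' : ℝ × ℝ × ℝ × ℝ → ℝ}



theorem leg_per_le {H L : (ℝ × ℝ) × (ℝ × ℝ) → ℝ} (h : LegP H L) (y y' v : ℝ × ℝ)
    (hp : ∀ p, H (y', p) = H (y, p)) : L (y, v) ≤ L (y', v) := by
  obtain ⟨p, h1⟩ := h.surj y v
  have h2 := h.young y' p v
  rw [hp p] at h2
  linarith

theorem leg_per {H L : (ℝ × ℝ) × (ℝ × ℝ) → ℝ} (h : LegP H L)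
    (hp : ∀ p, Per al (fun y => H (y, p))) (v : ℝ × ℝ) : Per al (fun y => L (y, v)) := by
  refine ⟨fun y => ?_, fun y => ?_⟩
  · exact le_antisymm
      (leg_per_le h _ _ v (fun p => ((hp p).1 y).symm))
      (leg_per_le h _ _ v (fun p => (hp p).1 y))
  · exact le_antisymm
      (leg_per_le h _ _ v (fun p => ((hp p).2 y).symm))
      (leg_per_le h _ _ v (fun p => (hp p).2 y))

end J_leg_per
export J_leg_per (leg_per)
end Pool.Agent.Helper785.EN
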