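import Pool.Agent.Helper785.EN.Defs

set_option autoImplicit false
open MeasureTheory

namespace Pool.Agent.Helper785.EN
namespace J_ton_L



variable {al : ℝ} {G G' : ℝ × ℝ × ℝ × ℝ → ℝ}




/-- the pairing as a continuous bilinear map -/
noncomputable def dotL : (ℝ × ℝ) →L[ℝ] ((ℝ × ℝ) →L[ℝ] ℝ) :=
  (ContinuousLinearMap.fst ℝ ℝ ℝ).smulRight (ContinuousLinearMap.fst ℝ ℝ ℝ) +
    (ContinuousLinearMap.snd ℝ ℝ ℝ).smulRight (ContinuousLinearMap.snd ℝ ℝ ℝ)

theorem dotL_apply (p b : ℝ × ℝ) : dotL p b = dot p b := by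
  simp [dotL, dot]

theorem fderiv_slice {H : (ℝ × ℝ) × (ℝ × ℝ) → ℝ} (hH : Differentiable ℝ H) (y p : ℝ × ℝ) :
    HasFDerivAt (fun q => H (y, q))
      ((fderiv ℝ H (y, p)).comp (ContinuousLinearMap.inr ℝ (ℝ × ℝ) (ℝ × ℝ))) p :=
  (hH (y, p)).hasFDerivAt.comp p (hasFDerivAt_prodMk_right y p)

theorem ton_L_deriv {H : (ℝ × ℝ) × (ℝ × ℝ) → ℝ} (hH : Differentiable ℝ H)
    {pf : (ℝ × ℝ) × (ℝ × ℝ) → ℝ × ℝ} (hp : Differentiable ℝ pf)
    (hpf : ∀ y v w : ℝ × ℝ, fderiv ℝ (fun q => H (y, q)) (pf (y, v)) w = dot w v)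
    (q : (ℝ × ℝ) × (ℝ × ℝ)) :
    HasFDerivAt (fun q : (ℝ × ℝ) × (ℝ × ℝ) => dot (pf q) q.2 - H (q.1, pf q))
      ((dotL (pf q)).comp (ContinuousLinearMap.snd ℝ (ℝ × ℝ) (ℝ × ℝ)) -
        (fderiv ℝ H (q.1, pf q)).comp ((ContinuousLinearMap.inl ℝ (ℝ × ℝ) (ℝ × ℝ)).comp
          (ContinuousLinearMap.fst ℝ (ℝ × ℝ) (ℝ × ℝ)))) q := by
  have h1 : HasFDerivAt (fun q : (ℝ × ℝ) × (ℝ × ℝ) => dotL (pf q)) (dotL.comp (fderiv ℝ pf q)) q :=
    dotL.hasFDerivAt.comp q (hp q).hasFDerivAt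
  have h2 : HasFDerivAt (fun q : (ℝ × ℝ) × (ℝ × ℝ) => (dotL (pf q)) q.2) _ q :=
    h1.clm_apply hasFDerivAt_snd
  have h3 : HasFDerivAt (fun q : (ℝ × ℝ) × (ℝ × ℝ) => H (q.1, pf q)) _ q :=
    (hH (q.1, pf q)).hasFDerivAt.comp q (hasFDerivAt_fst.prodMk (hp q).hasFDerivAt)
  have h4 := h2.sub h3
  have h5 : (fun q : (ℝ × ℝ) × (ℝ × ℝ) => (dotL (pf q)) q.2 - H (q.1, pf q)) =
      fun q : (ℝ × ℝ) × (ℝ × ℝ) => dot (pf q) q.2 - H (q.1, pf q) := by
    funext q
    rw [dotL_apply]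
  have h4' : HasFDerivAt (fun q : (ℝ × ℝ) × (ℝ × ℝ) => (dotL (pf q)) q.2 - H (q.1, pf q)) _ q := h4
  rw [h5] at h4'
  refine h4'.congr_fderiv ?_
  refine ContinuousLinearMap.ext fun a => ?_
  have h6 : fderiv ℝ H (q.1, pf q) (0, fderiv ℝ pf q a) = dot (fderiv ℝ pf q a) q.2 := by
    rw [← hpf q.1 q.2 (fderiv ℝ pf q a), (fderiv_slice hH q.1 (pf (q.1, q.2))).fderiv]
    simp
  have h7 : fderiv ℝ H (q.1, pf q) (a.1, fderiv ℝ pf q a) =
      fderiv ℝ H (q.1, pf q) (a.1, 0) + fderiv ℝ H (q.1, pf q) (0, fderiv ℝ pf q a) := by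
    rw [← map_add]
    simp
  simp only [ContinuousLinearMap.sub_apply, ContinuousLinearMap.add_apply,
    ContinuousLinearMap.comp_apply, ContinuousLinearMap.flip_apply,
    ContinuousLinearMap.coe_snd', ContinuousLinearMap.coe_fst', ContinuousLinearMap.prod_apply,
    ContinuousLinearMap.inl_apply, dotL_apply]
  rw [h7, h6]
  ring

/-- the Lagrangian is of class C² with positive definite fibre Hessian. -/
theorem ton_L {H : (ℝ × ℝ) × (ℝ × ℝ) → ℝ} (hH : TonH H)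
    {pf : (ℝ × ℝ) × (ℝ × ℝ) → ℝ × ℝ} (hp : ContDiff ℝ 1 pf)
    (hpf : ∀ y v w : ℝ × ℝ, fderiv ℝ (fun q => H (y, q)) (pf (y, v)) w = dot w v) :
    ContDiff ℝ 2 (fun q : (ℝ × ℝ) × (ℝ × ℝ) => dot (pf q) q.2 - H (q.1, pf q)) ∧
    ∀ y v w : ℝ × ℝ, w ≠ 0 →
      0 < fderiv ℝ (fun q => fderiv ℝ (fun q' => dot (pf (y, q')) q' - H (y, pf (y, q'))) q)
        v w w := by
  have hHd : Differentiable ℝ H := hH.smooth.differentiable (by norm_num)
  have hpd : Differentiable ℝ pf := hp.differentiable (by norm_num)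
  have hH1 : ContDiff ℝ 1 (fderiv ℝ H) := hH.smooth.fderiv_right (by norm_num)
  have hL := ton_L_deriv hHd hpd hpf
  constructor
  · have h2 : ContDiff ℝ (1 + 1)
        (fun q : (ℝ × ℝ) × (ℝ × ℝ) => dot (pf q) q.2 - H (q.1, pf q)) := by
      rw [contDiff_succ_iff_fderiv]
      refine ⟨fun q => (hL q).differentiableAt, fun h => ?_, ?_⟩
      · exact absurd h (by decide)
      · have h3 : fderiv ℝ (fun q : (ℝ × ℝ) × (ℝ × ℝ) => dot (pf q) q.2 - H (q.1, pf q)) =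
            fun q => (dotL (pf q)).comp (ContinuousLinearMap.snd ℝ (ℝ × ℝ) (ℝ × ℝ)) -
              (fderiv ℝ H (q.1, pf q)).comp ((ContinuousLinearMap.inl ℝ (ℝ × ℝ) (ℝ × ℝ)).comp
              (ContinuousLinearMap.fst ℝ (ℝ × ℝ) (ℝ × ℝ))) := by
          funext q
          exact (hL q).fderiv
        rw [h3]
        refine ContDiff.sub ?_ ?_
        · exact ContDiff.clm_comp (dotL.contDiff.comp hp) contDiff_const
        · exact ContDiff.clm_comp (hH1.comp (contDiff_fst.prodMk hp)) contDiff_const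
    exact h2
  · intro y v w hw
    have hsl : ∀ q : ℝ × ℝ, HasFDerivAt (fun q' => dot (pf (y, q')) q' - H (y, pf (y, q')))
        (dotL (pf (y, q))) q := by
      intro q
      have h1 := (hL (y, q)).comp q (hasFDerivAt_prodMk_right y q)
      have h2 : HasFDerivAt (fun q' => dot (pf (y, q')) q' - H (y, pf (y, q'))) _ q := h1
      refine h2.congr_fderiv ?_
      refine ContinuousLinearMap.ext fun b => ?_
      have h00 : fderiv ℝ H (y, pf (y, q)) (0, 0) = 0 := by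
        have : ((0, 0) : (ℝ × ℝ) × (ℝ × ℝ)) = 0 := rfl
        rw [this, map_zero]
      simp [h00]
    have h3 : (fun q => fderiv ℝ (fun q' => dot (pf (y, q')) q' - H (y, pf (y, q'))) q) =
        fun q => dotL (pf (y, q)) := by
      funext q
      exact (hsl q).fderiv
    rw [h3]
    have hpy : HasFDerivAt (fun q => pf (y, q))
        ((fderiv ℝ pf (y, v)).comp (ContinuousLinearMap.inr ℝ (ℝ × ℝ) (ℝ × ℝ))) v :=
      (hpd (y, v)).hasFDerivAt.comp v (hasFDerivAt_prodMk_right y v)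
    set r := (fderiv ℝ pf (y, v)).comp (ContinuousLinearMap.inr ℝ (ℝ × ℝ) (ℝ × ℝ)) w with hr
    have h4 : HasFDerivAt (fun q => dotL (pf (y, q)))
        (dotL.comp ((fderiv ℝ pf (y, v)).comp (ContinuousLinearMap.inr ℝ (ℝ × ℝ) (ℝ × ℝ)))) v :=
      dotL.hasFDerivAt.comp v hpy
    rw [h4.fderiv]
    have h5 : (dotL.comp ((fderiv ℝ pf (y, v)).comp
        (ContinuousLinearMap.inr ℝ (ℝ × ℝ) (ℝ × ℝ)))) w w = dot r w := by
      rw [ContinuousLinearMap.comp_apply, dotL_apply]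
    rw [h5]
    -- differentiate the relation
    have hHy : ContDiff ℝ 2 (fun q' => H (y, q')) :=
      hH.smooth.comp (contDiff_const.prodMk contDiff_id)
    have hHy1 : Differentiable ℝ (fderiv ℝ (fun q' => H (y, q'))) :=
      (hHy.fderiv_right (m := 1) (by norm_num)).differentiable (by norm_num)
    have h6 : ∀ z : ℝ × ℝ,
        fderiv ℝ (fun q => fderiv ℝ (fun q' => H (y, q')) q) (pf (y, v)) r z = dot z w := by
      intro z
      have h7 : HasFDerivAt (fun q => fderiv ℝ (fun q' => H (y, q')) (pf (y, q)))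
          ((fderiv ℝ (fderiv ℝ (fun q' => H (y, q'))) (pf (y, v))).comp
            ((fderiv ℝ pf (y, v)).comp (ContinuousLinearMap.inr ℝ (ℝ × ℝ) (ℝ × ℝ)))) v :=
        (hHy1 (pf (y, v))).hasFDerivAt.comp v hpy
      have h8 := h7.clm_apply (hasFDerivAt_const z v)
      have h9 : (fun q => (fderiv ℝ (fun q' => H (y, q')) (pf (y, q))) z) = fun q => dotL z q := by
        funext q
        rw [hpf, dotL_apply]
      have h10 : HasFDerivAt (fun q => (fderiv ℝ (fun q' => H (y, q')) (pf (y, q))) z) _ v := h8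
      rw [h9] at h10
      have h11 := h10.unique (dotL z).hasFDerivAt
      have h12 := congrArg (fun T : (ℝ × ℝ) →L[ℝ] ℝ => T w) h11
      simp only [ContinuousLinearMap.add_apply, ContinuousLinearMap.comp_apply,
        ContinuousLinearMap.zero_apply, map_zero, zero_add, ContinuousLinearMap.flip_apply,
        dotL_apply] at h12
      exact h12
    have hr0 : r ≠ 0 := by
      intro h0
      have h13 := h6 w
      rw [h0] at h13
      simp only [map_zero, ContinuousLinearMap.zero_apply, dot] at h13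
      apply hw
      have h14 : w.1 = 0 := by nlinarith [mul_self_nonneg w.1, mul_self_nonneg w.2]
      have h15 : w.2 = 0 := by nlinarith [mul_self_nonneg w.1, mul_self_nonneg w.2]
      exact Prod.ext h14 h15
    have h16 := hH.pd y (pf (y, v)) r hr0
    rw [h6 r] at h16
    exact h16

end J_ton_L
export J_ton_L (ton_L)
end Pool.Agent.Helper785.EN
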