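import Pool.Agent.Helper785.EN.Defs

set_option autoImplicit false
open MeasureTheory

namespace Pool.Agent.Helper785.EN
namespace J_inv_contDiff



variable {al : ℝ} {G G' : ℝ × ℝ × ℝ × ℝ → ℝ}



/-- global inverse of a C^n bijection with invertible derivative. -/
theorem inv_contDiff {E F : Type*} [NormedAddCommGroup E] [NormedSpace ℝ E] [CompleteSpace E]
    [NormedAddCommGroup F] [NormedSpace ℝ F] [CompleteSpace F] {n : ℕ} (hn : 1 ≤ n)
    {f : E → F} {g : F → E} (hf : ContDiff ℝ n f) (h1 : ∀ x, g (f x) = x) (h2 : ∀ y, f (g y) = y)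
    (hinv : ∀ x, ∃ e : E ≃L[ℝ] F, (e : E →L[ℝ] F) = fderiv ℝ f x) : ContDiff ℝ n g := by
  choose e he using hinv
  have hn0 : (n : WithTop ℕ∞) ≠ 0 := by
    have : n ≠ 0 := by omega
    exact_mod_cast this
  have hstrict : ∀ x, HasStrictFDerivAt f ((e x : E ≃L[ℝ] F) : E →L[ℝ] F) x := by
    intro x
    rw [he x]
    exact hf.contDiffAt.hasStrictFDerivAt hn0
  have hopen : IsOpenMap f := by
    rw [isOpenMap_iff_nhds_le]
    intro x
    exact (hstrict x).map_nhds_eq_of_equiv.ge
  have hH : ContDiff ℝ n ((Equiv.toHomeomorphOfContinuousOpen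
      (⟨f, g, h1, h2⟩ : E ≃ F) hf.continuous hopen).symm : F → E) := by
    apply Homeomorph.contDiff_symm _ (f₀' := e)
    · intro a
      exact (hstrict a).hasFDerivAt
    · exact hf
  exact hH

end J_inv_contDiff
export J_inv_contDiff (inv_contDiff)
end Pool.Agent.Helper785.EN
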