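import Pool.Agent.Helper785.EN.Defs

set_option autoImplicit false
open MeasureTheory

namespace Pool.Agent.Helper785.EN
namespace J_ton_surj



variable {al : ℝ} {G G' : ℝ × ℝ × ℝ × ℝ → ℝ}



/-- the gradient map is onto. -/
theorem ton_surj {H : (ℝ × ℝ) × (ℝ × ℝ) → ℝ} (hH : TonH H) (y v : ℝ × ℝ) :
    ∃ p : ℝ × ℝ, ∀ w : ℝ × ℝ, fderiv ℝ (fun q => H (y, q)) p w = dot w v := by
  have hsm : ContDiff ℝ 2 (fun q : ℝ × ℝ => H (y, q)) :=
    hH.smooth.comp (contDiff_const.prodMk contDiff_id)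
  have hdiff : Differentiable ℝ (fun q : ℝ × ℝ => H (y, q)) := hsm.differentiable (by norm_num)
  obtain ⟨B, hB⟩ := hH.sup (|v.1| + |v.2| + 1)
  have hcont : Continuous (fun q : ℝ × ℝ => H (y, q) - dot q v) := by
    refine hsm.continuous.sub ?_
    unfold dot
    fun_prop
  have hlow : ∀ q : ℝ × ℝ, ‖q‖ + (-B) ≤ H (y, q) - dot q v := by
    intro q
    have h1 := hB y q
    have h2 : dot q v ≤ (|v.1| + |v.2|) * ‖q‖ := by
      unfold dot
      have h3 : |q.1| ≤ ‖q‖ := by simpa using norm_fst_le q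
      have h4 : |q.2| ≤ ‖q‖ := by simpa using norm_snd_le q
      have h5 : q.1 * v.1 ≤ |v.1| * ‖q‖ := by
        calc q.1 * v.1 ≤ |q.1 * v.1| := le_abs_self _
          _ = |v.1| * |q.1| := by rw [abs_mul, mul_comm]
          _ ≤ |v.1| * ‖q‖ := mul_le_mul_of_nonneg_left h3 (abs_nonneg _)
      have h6 : q.2 * v.2 ≤ |v.2| * ‖q‖ := by
        calc q.2 * v.2 ≤ |q.2 * v.2| := le_abs_self _
          _ = |v.2| * |q.2| := by rw [abs_mul, mul_comm]
          _ ≤ |v.2| * ‖q‖ := mul_le_mul_of_nonneg_left h4 (abs_nonneg _)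
      linarith
    linarith
  have hlim : Filter.Tendsto (fun q : ℝ × ℝ => H (y, q) - dot q v)
      (Filter.cocompact (ℝ × ℝ)) Filter.atTop :=
    Filter.tendsto_atTop_mono hlow
      (Filter.tendsto_atTop_add_const_right _ (-B) (tendsto_norm_cocompact_atTop (E := ℝ × ℝ)))
  obtain ⟨p, hp⟩ := hcont.exists_forall_le hlim
  refine ⟨p, fun w => ?_⟩
  have h1 : HasFDerivAt (fun q : ℝ × ℝ => H (y, q)) (fderiv ℝ (fun q => H (y, q)) p) p :=
    (hdiff p).hasFDerivAt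
  have h2 : HasFDerivAt (fun q : ℝ × ℝ => dot q v)
      (v.1 • ContinuousLinearMap.fst ℝ ℝ ℝ + v.2 • ContinuousLinearMap.snd ℝ ℝ ℝ) p := by
    have h3 := (v.1 • ContinuousLinearMap.fst ℝ ℝ ℝ + v.2 • ContinuousLinearMap.snd ℝ ℝ ℝ).hasFDerivAt
      (x := p)
    refine h3.congr_of_eventuallyEq (Filter.Eventually.of_forall fun q => ?_)
    show q.1 * v.1 + q.2 * v.2 = v.1 * q.1 + v.2 * q.2
    ring
  have h4 := h1.sub h2
  have hmin : IsLocalMin (fun q : ℝ × ℝ => H (y, q) - dot q v) p :=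
    Filter.Eventually.of_forall hp
  have h5 := hmin.hasFDerivAt_eq_zero h4
  have h6 := congrArg (fun L : (ℝ × ℝ) →L[ℝ] ℝ => L w) h5
  have h7 : fderiv ℝ (fun q => H (y, q)) p w - (v.1 * w.1 + v.2 * w.2) = 0 := h6
  unfold dot
  linarith

end J_ton_surj
export J_ton_surj (ton_surj)
end Pool.Agent.Helper785.EN
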