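import Pool.Agent.Helper785.EN.Defs

set_option autoImplicit false
open MeasureTheory

namespace Pool.Agent.Helper785.EN
namespace J_ton_young



variable {al : ℝ} {G G' : ℝ × ℝ × ℝ × ℝ → ℝ}



/-- strict convexity: a tangent plane lies strictly below the graph. -/
theorem ton_young {H : (ℝ × ℝ) × (ℝ × ℝ) → ℝ} (hH : TonH H) {y p v : ℝ × ℝ}
    (hv : ∀ w : ℝ × ℝ, fderiv ℝ (fun q => H (y, q)) p w = dot w v) (q : ℝ × ℝ) (hq : q ≠ p) :
    H (y, p) + dot (q - p) v < H (y, q) := by
  set h : ℝ × ℝ → ℝ := fun q' => H (y, q') with hh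
  have hc : ContDiff ℝ 2 h := hH.smooth.comp (contDiff_const.prodMk contDiff_id)
  have hd : ∀ x, HasFDerivAt h (fderiv ℝ h x) x := fun x =>
    (hc.differentiable (by norm_num) x).hasFDerivAt
  have hc1 : ContDiff ℝ 1 (fderiv ℝ h) := hc.fderiv_right (m := 1) (by norm_num)
  have hd2 : ∀ x, HasFDerivAt (fderiv ℝ h) (fderiv ℝ (fderiv ℝ h) x) x := fun x =>
    (hc1.differentiable (by norm_num) x).hasFDerivAt
  have hw : q - p ≠ 0 := sub_ne_zero.2 hq
  have hl : ∀ s : ℝ, HasDerivAt (fun s : ℝ => p + s • (q - p)) (q - p) s := by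
    intro s
    have h1 : HasDerivAt (fun s : ℝ => s • (q - p)) ((1 : ℝ) • (q - p)) s :=
      (hasDerivAt_id s).smul_const _
    rw [one_smul] at h1
    exact h1.const_add p
  have hf : ∀ s : ℝ, HasDerivAt (fun s : ℝ => h (p + s • (q - p)))
      (fderiv ℝ h (p + s • (q - p)) (q - p)) s := fun s =>
    (hd _).comp_hasDerivAt s (hl s)
  have hφ : ∀ s : ℝ, HasDerivAt (fun s : ℝ => fderiv ℝ h (p + s • (q - p)) (q - p))
      (fderiv ℝ (fderiv ℝ h) (p + s • (q - p)) (q - p) (q - p)) s := by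
    intro s
    have h2 : HasDerivAt (fun s : ℝ => fderiv ℝ h (p + s • (q - p)))
      (fderiv ℝ (fderiv ℝ h) (p + s • (q - p)) (q - p)) s := (hd2 _).comp_hasDerivAt s (hl s)
    have h3 := h2.clm_apply (hasDerivAt_const s (q - p))
    simpa using h3
  have hmono : StrictMono (fun s : ℝ => fderiv ℝ h (p + s • (q - p)) (q - p)) := by
    apply strictMono_of_deriv_pos
    intro s
    rw [(hφ s).deriv]
    exact hH.pd y _ _ hw
  obtain ⟨c, hc0, hc2⟩ := exists_hasDerivAt_eq_slope (fun s : ℝ => h (p + s • (q - p)))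
    (fun s : ℝ => fderiv ℝ h (p + s • (q - p)) (q - p)) (zero_lt_one' ℝ)
    (fun s _ => (hf s).continuousAt.continuousWithinAt) (fun s _ => hf s)
  have h5 := hmono hc0.1
  simp only [zero_smul, add_zero, one_smul, sub_zero, div_one, add_sub_cancel] at h5 hc2
  rw [hv, hc2] at h5
  change h p + dot (q - p) v < h q
  linarith

end J_ton_young
export J_ton_young (ton_young)
end Pool.Agent.Helper785.EN
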