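import Pool.Agent.Helper785.EN.Defs
import Pool.Agent.Helper785.EN.P_inv_contDiff
import Pool.Agent.Helper785.EN.P_ton_young
import Pool.Agent.Helper785.EN.P_ton_surj

set_option autoImplicit false
open MeasureTheory

namespace Pool.Agent.Helper785.EN
namespace J_ton_inv



variable {al : ℝ} {G G' : ℝ × ℝ × ℝ × ℝ → ℝ}











theorem j18023_lin (L : (ℝ × ℝ) →L[ℝ] ℝ) (w : ℝ × ℝ) : L w = w.1 * L (1, 0) + w.2 * L (0, 1) := by
  have e : w = w.1 • ((1 : ℝ), (0 : ℝ)) + w.2 • ((0 : ℝ), (1 : ℝ)) := by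
    ext <;> simp
  conv_lhs => rw [e, map_add, map_smul, map_smul]
  rw [smul_eq_mul, smul_eq_mul]

theorem j18023_part {H : (ℝ × ℝ) × (ℝ × ℝ) → ℝ} (hH : Differentiable ℝ H) (y p : ℝ × ℝ) :
    fderiv ℝ (fun q => H (y, q)) p =
      (fderiv ℝ H (y, p)).comp (ContinuousLinearMap.inr ℝ (ℝ × ℝ) (ℝ × ℝ)) := by
  have h1 : HasFDerivAt (fun q : ℝ × ℝ => ((y, q) : (ℝ × ℝ) × (ℝ × ℝ)))
      (ContinuousLinearMap.inr ℝ (ℝ × ℝ) (ℝ × ℝ)) p := hasFDerivAt_prodMk_right y p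
  exact ((hH (y, p)).hasFDerivAt.comp p h1).fderiv

theorem j18023_uniq {H : (ℝ × ℝ) × (ℝ × ℝ) → ℝ} (hH : TonH H) {y p p' v : ℝ × ℝ}
    (hv : ∀ w : ℝ × ℝ, fderiv ℝ (fun q => H (y, q)) p w = dot w v)
    (hv' : ∀ w : ℝ × ℝ, fderiv ℝ (fun q => H (y, q)) p' w = dot w v) : p' = p := by
  by_contra hne
  have h1 := ton_young hH hv p' hne
  have h2 := ton_young hH hv' p (Ne.symm hne)
  have h3 : dot (p' - p) v + dot (p - p') v = 0 := by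
    unfold dot
    simp only [Prod.fst_sub, Prod.snd_sub]
    ring
  linarith



/-- the inverse Legendre map is of class C¹. -/
theorem ton_inv {H : (ℝ × ℝ) × (ℝ × ℝ) → ℝ} (hH : TonH H) :
    ∃ pf : (ℝ × ℝ) × (ℝ × ℝ) → ℝ × ℝ, ContDiff ℝ 1 pf ∧
      ∀ y v w : ℝ × ℝ, fderiv ℝ (fun q => H (y, q)) (pf (y, v)) w = dot w v := by
  have hdH : Differentiable ℝ H := hH.smooth.differentiable (by norm_num)
  have hd1 : ContDiff ℝ 1 (fderiv ℝ H) := hH.smooth.fderiv_right (by norm_num)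
  have hdd : Differentiable ℝ (fderiv ℝ H) := hd1.differentiable one_ne_zero
  choose pf0 hpf0 using fun z : (ℝ × ℝ) × (ℝ × ℝ) => ton_surj hH z.1 z.2
  set e1 : (ℝ × ℝ) × (ℝ × ℝ) := (0, (1, 0)) with he1
  set e2 : (ℝ × ℝ) × (ℝ × ℝ) := (0, (0, 1)) with he2
  set Ψ : (ℝ × ℝ) × (ℝ × ℝ) → (ℝ × ℝ) × (ℝ × ℝ) :=
    fun z => (z.1, (fderiv ℝ H z e1, fderiv ℝ H z e2)) with hΨ
  -- the gradient condition
  have hgr : ∀ z : (ℝ × ℝ) × (ℝ × ℝ), ∀ w : ℝ × ℝ,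
      fderiv ℝ (fun q => H (z.1, q)) z.2 w = dot w (Ψ z).2 := by
    intro z w
    rw [j18023_part hdH, j18023_lin]
    rfl
  have hgr' : ∀ z : (ℝ × ℝ) × (ℝ × ℝ), ∀ v : ℝ × ℝ,
      (∀ w : ℝ × ℝ, fderiv ℝ (fun q => H (z.1, q)) z.2 w = dot w v) → (Ψ z).2 = v := by
    intro z v h
    have h1 := h (1, 0)
    have h2 := h (0, 1)
    rw [hgr] at h1 h2
    unfold dot at h1 h2
    simp only [one_mul, zero_mul, add_zero, zero_add] at h1 h2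
    exact Prod.ext h1 h2
  have hΨc : ContDiff ℝ ((1 : ℕ) : WithTop ℕ∞) Ψ := by
    rw [Nat.cast_one]
    exact contDiff_fst.prodMk ((hd1.clm_apply contDiff_const).prodMk (hd1.clm_apply contDiff_const))
  have hinv : ∀ x, ∃ e : ((ℝ × ℝ) × (ℝ × ℝ)) ≃L[ℝ] ((ℝ × ℝ) × (ℝ × ℝ)),
      (e : ((ℝ × ℝ) × (ℝ × ℝ)) →L[ℝ] ((ℝ × ℝ) × (ℝ × ℝ))) = fderiv ℝ Ψ x := by
    rintro ⟨y, p⟩
    set S := fderiv ℝ (fderiv ℝ H) (y, p) with hS
    have hSd : HasFDerivAt (fderiv ℝ H) S (y, p) := (hdd (y, p)).hasFDerivAt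
    have hg : ∀ u : (ℝ × ℝ) × (ℝ × ℝ), HasFDerivAt (fun z => fderiv ℝ H z u) (S.flip u) (y, p) := by
      intro u
      have := hSd.clm_apply (hasFDerivAt_const u (y, p))
      simpa using this
    have hΨd : HasFDerivAt Ψ ((ContinuousLinearMap.fst ℝ (ℝ × ℝ) (ℝ × ℝ)).prod
        ((S.flip e1).prod (S.flip e2))) (y, p) :=
      hasFDerivAt_fst.prodMk ((hg e1).prodMk (hg e2))
    rw [hΨd.fderiv]
    set D := (ContinuousLinearMap.fst ℝ (ℝ × ℝ) (ℝ × ℝ)).prod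
        ((S.flip e1).prod (S.flip e2)) with hD
    have hinj : Function.Injective (D : ((ℝ × ℝ) × (ℝ × ℝ)) →ₗ[ℝ] ((ℝ × ℝ) × (ℝ × ℝ))) := by
      rw [injective_iff_map_eq_zero]
      rintro ⟨a, b⟩ hab
      have h0 : D (a, b) = 0 := hab
      have ha : a = 0 := congrArg Prod.fst h0
      subst ha
      have h1 : S (0, b) e1 = 0 := congrArg (fun z => z.2.1) h0
      have h2 : S (0, b) e2 = 0 := congrArg (fun z => z.2.2) h0
      by_contra hne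
      have hb : b ≠ 0 := fun h => hne (by rw [h]; rfl)
      have h3 := hH.pd y p b hb
      have h4 : HasFDerivAt (fun q => fderiv ℝ (fun q' => H (y, q')) q)
          ((ContinuousLinearMap.compL ℝ (ℝ × ℝ) ((ℝ × ℝ) × (ℝ × ℝ)) ℝ).flip
            (ContinuousLinearMap.inr ℝ (ℝ × ℝ) (ℝ × ℝ)) ∘L
            (S ∘L ContinuousLinearMap.inr ℝ (ℝ × ℝ) (ℝ × ℝ))) p := by
        have h5 : (fun q => fderiv ℝ (fun q' => H (y, q')) q) =
            fun q => (ContinuousLinearMap.compL ℝ (ℝ × ℝ) ((ℝ × ℝ) × (ℝ × ℝ)) ℝ).flip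
            (ContinuousLinearMap.inr ℝ (ℝ × ℝ) (ℝ × ℝ)) (fderiv ℝ H (y, q)) := by
          funext q
          rw [j18023_part hdH]
          rfl
        rw [h5]
        have h6 : HasFDerivAt (fun q : ℝ × ℝ => ((y, q) : (ℝ × ℝ) × (ℝ × ℝ)))
          (ContinuousLinearMap.inr ℝ (ℝ × ℝ) (ℝ × ℝ)) p := hasFDerivAt_prodMk_right y p
        exact (((ContinuousLinearMap.compL ℝ (ℝ × ℝ) ((ℝ × ℝ) × (ℝ × ℝ)) ℝ).flip
            (ContinuousLinearMap.inr ℝ (ℝ × ℝ) (ℝ × ℝ))).hasFDerivAt).comp p (hSd.comp p h6)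
      rw [h4.fderiv] at h3
      have h7 : ((ContinuousLinearMap.compL ℝ (ℝ × ℝ) ((ℝ × ℝ) × (ℝ × ℝ)) ℝ).flip
            (ContinuousLinearMap.inr ℝ (ℝ × ℝ) (ℝ × ℝ)) ∘L
            (S ∘L ContinuousLinearMap.inr ℝ (ℝ × ℝ) (ℝ × ℝ))) b b =
          ((S (0, b)).comp (ContinuousLinearMap.inr ℝ (ℝ × ℝ) (ℝ × ℝ))) b := rfl
      rw [h7, j18023_lin] at h3
      have h8 : ((S (0, b)).comp (ContinuousLinearMap.inr ℝ (ℝ × ℝ) (ℝ × ℝ))) (1, 0) = 0 := h1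
      have h9 : ((S (0, b)).comp (ContinuousLinearMap.inr ℝ (ℝ × ℝ) (ℝ × ℝ))) (0, 1) = 0 := h2
      rw [h8, h9, mul_zero, mul_zero, add_zero] at h3
      exact lt_irrefl _ h3
    refine ⟨(LinearEquiv.ofInjectiveEndo
      (D : ((ℝ × ℝ) × (ℝ × ℝ)) →ₗ[ℝ] ((ℝ × ℝ) × (ℝ × ℝ))) hinj).toContinuousLinearEquiv, ?_⟩
    refine ContinuousLinearMap.ext fun u => ?_
    rfl
  have hcont := inv_contDiff (n := 1) le_rfl (f := Ψ) (g := fun z => (z.1, pf0 z)) hΨc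
    (fun z => by
      refine Prod.ext rfl ?_
      change pf0 (Ψ z) = z.2
      exact j18023_uniq hH (y := z.1) (p := z.2) (p' := pf0 (Ψ z)) (v := (Ψ z).2) (hgr z)
        (hpf0 (Ψ z)))
    (fun z => by
      refine Prod.ext rfl ?_
      change (Ψ (z.1, pf0 z)).2 = z.2
      exact hgr' (z.1, pf0 z) z.2 (hpf0 z))
    hinv
  rw [Nat.cast_one] at hcont
  refine ⟨pf0, ?_, fun y v w => hpf0 (y, v) w⟩
  exact contDiff_snd.comp hcont

end J_ton_inv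
export J_ton_inv (ton_inv)
end Pool.Agent.Helper785.EN
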