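import Pool.Agent.Helper785.EN.Defs
import Pool.Agent.Helper785.EN.P_ton_young
import Pool.Agent.Helper785.EN.P_ton_inv
import Pool.Agent.Helper785.EN.P_ton_L

set_option autoImplicit false
open MeasureTheory

namespace Pool.Agent.Helper785.EN
namespace J_legendre



variable {al : ℝ} {G G' : ℝ × ℝ × ℝ × ℝ → ℝ}
















theorem h208_sgn (x : ℝ) : ∃ s : ℝ, |s| ≤ 1 ∧ s * x = |x| := by
  rcases le_total 0 x with h | h
  · exact ⟨1, by simp, by rw [abs_of_nonneg h, one_mul]⟩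
  · exact ⟨-1, by simp, by rw [abs_of_nonpos h]; ring⟩

theorem h208_max (A : ℝ) (v : ℝ × ℝ) : ∃ q : ℝ × ℝ, ‖q‖ ≤ |A| ∧
    q.1 * v.1 + q.2 * v.2 = A * ‖v‖ := by
  rcases le_total |v.2| |v.1| with h | h
  · obtain ⟨s, hs, hsx⟩ := h208_sgn v.1
    refine ⟨(A * s, 0), ?_, ?_⟩
    · rw [Prod.norm_def]
      simp only [norm_zero, Real.norm_eq_abs, abs_mul]
      rw [max_eq_left (by positivity)]
      calc |A| * |s| ≤ |A| * 1 := by gcongr
        _ = |A| := mul_one _
    · have h1 : ‖v‖ = |v.1| := by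
        rw [Prod.norm_def, Real.norm_eq_abs, Real.norm_eq_abs, max_eq_left h]
      rw [h1, ← hsx]
      ring
  · obtain ⟨s, hs, hsx⟩ := h208_sgn v.2
    refine ⟨(0, A * s), ?_, ?_⟩
    · rw [Prod.norm_def]
      simp only [norm_zero, Real.norm_eq_abs, abs_mul]
      rw [max_eq_right (by positivity)]
      calc |A| * |s| ≤ |A| * 1 := by gcongr
        _ = |A| := mul_one _
    · have h1 : ‖v‖ = |v.2| := by
        rw [Prod.norm_def, Real.norm_eq_abs, Real.norm_eq_abs, max_eq_right h]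
      rw [h1, ← hsx]
      ring

/-- Legendre transformation: a Tonelli Hamiltonian of class C² has a Lagrangian of class C². -/
theorem legendre {H : (ℝ × ℝ) × (ℝ × ℝ) → ℝ} (hH : TonH H) :
    ∃ L : (ℝ × ℝ) × (ℝ × ℝ) → ℝ, LegP H L := by
  obtain ⟨pf, hp, hpf⟩ := ton_inv hH
  obtain ⟨hL1, hL2⟩ := ton_L hH hp hpf
  have hstrict : ∀ y v p : ℝ × ℝ, p ≠ pf (y, v) →
      p.1 * v.1 + p.2 * v.2 < (dot (pf (y, v)) v - H (y, pf (y, v))) + H (y, p) := by
    intro y v p hne
    have h1 := ton_young hH (hpf y v) p hne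
    unfold dot at h1 ⊢
    simp only [Prod.fst_sub, Prod.snd_sub] at h1
    linarith
  have heq : ∀ y v : ℝ × ℝ, (pf (y, v)).1 * v.1 + (pf (y, v)).2 * v.2 =
      (dot (pf (y, v)) v - H (y, pf (y, v))) + H (y, pf (y, v)) := by
    intro y v
    unfold dot
    ring
  have hyoung : ∀ y p v : ℝ × ℝ, p.1 * v.1 + p.2 * v.2 ≤
      (dot (pf (y, v)) v - H (y, pf (y, v))) + H (y, p) := by
    intro y p v
    by_cases hne : p = pf (y, v)
    · rw [hne]; exact (heq y v).le
    · exact (hstrict y v p hne).le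
  refine ⟨fun q => dot (pf q) q.2 - H (q.1, pf q), hL1, hL2, ?_, hyoung, ?_, ?_, ?_⟩
  · intro A
    obtain ⟨B, hB⟩ := hH.locbd |A|
    refine ⟨B, fun y v => ?_⟩
    obtain ⟨q, hq1, hq2⟩ := h208_max A v
    have h1 := hyoung y q v
    have h2 := hB y q hq1
    show A * ‖v‖ - B ≤ dot (pf (y, v)) v - H (y, pf (y, v))
    linarith
  · intro y p v hv
    by_cases hne : p = pf (y, v)
    · rw [hne]; exact heq y v
    · exfalso
      have h1 := ton_young hH (v := v) hv (pf (y, v)) (Ne.symm hne)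
      have h2 := ton_young hH (hpf y v) p hne
      unfold dot at h1 h2
      simp only [Prod.fst_sub, Prod.snd_sub] at h1 h2
      linarith
  · intro y p v hv
    by_cases hne : p = pf (y, v)
    · rw [hne]; exact hpf y v
    · exact absurd hv (hstrict y v p hne).ne
  · intro y v
    exact ⟨pf (y, v), heq y v⟩

end J_legendre
export J_legendre (legendre)
end Pool.Agent.Helper785.EN
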