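import Pool.Agent.Helper785.EN.Defs

set_option autoImplicit false
open MeasureTheory

namespace Pool.Agent.Helper785.EN
namespace J_limit_beta



variable {al : ℝ} {G G' : ℝ × ℝ × ℝ × ℝ → ℝ}



theorem limit_beta_cont {L : (ℝ × ℝ) × (ℝ × ℝ) → ℝ} (sL : Continuous L) :
    Continuous (lift al L) := by
  unfold lift Az
  fun_prop

theorem limit_beta_adm {L L' : (ℝ × ℝ) × (ℝ × ℝ) → ℝ} (sL : Continuous L) (sL' : Continuous L')
    {ε : ℝ} (h : ∀ q, |L q - L' q| ≤ ε) {μ : Measure ((Fin 2 → ℝ) × (Fin 2 → ℝ))}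
    (hμ : AdmL (lift al L') μ) :
    AdmL (lift al L) μ ∧ |∫ p, lift al L p ∂μ - ∫ p, lift al L' p ∂μ| ≤ ε := by
  obtain ⟨hp, h1, h2, h3⟩ := hμ
  have hD : Continuous (fun p => lift al L p - lift al L' p) :=
    (limit_beta_cont sL).sub (limit_beta_cont sL')
  have hb : ∀ p, ‖lift al L p - lift al L' p‖ ≤ ε := fun p => by
    rw [Real.norm_eq_abs]; exact h _
  have hDi : Integrable (fun p => lift al L p - lift al L' p) μ :=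
    Integrable.of_bound hD.aestronglyMeasurable ε (Filter.Eventually.of_forall hb)
  have hLi : Integrable (lift al L) μ := by
    have := hDi.add h2
    refine this.congr (Filter.Eventually.of_forall fun p => ?_)
    simp
  refine ⟨⟨hp, h1, hLi, h3⟩, ?_⟩
  rw [← integral_sub hLi h2, ← Real.norm_eq_abs]
  refine (norm_integral_le_of_norm_le_const (Filter.Eventually.of_forall hb)).trans ?_
  simp

/-- the same for the limit. -/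
theorem limit_beta {L L0 : (ℝ × ℝ) × (ℝ × ℝ) → ℝ} (sL : Continuous L)
    (hfin : ∀ ε > 0, ∃ L' : (ℝ × ℝ) × (ℝ × ℝ) → ℝ, Continuous L' ∧ (∀ q, |L q - L' q| ≤ ε) ∧
      (∀ μ, AdmL (lift al L') μ → L0 (0, Az al (∫ p, p.2 ∂μ)) ≤ ∫ p, lift al L' p ∂μ) ∧
      ∀ h : Fin 2 → ℝ, ∃ μ, AdmL (lift al L') μ ∧ ∫ p, p.2 ∂μ = h ∧
        ∫ p, lift al L' p ∂μ = L0 (0, Az al h)) :
    (∀ μ, AdmL (lift al L) μ → L0 (0, Az al (∫ p, p.2 ∂μ)) ≤ ∫ p, lift al L p ∂μ) ∧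
    (∀ h : Fin 2 → ℝ, ∀ ε > 0, ∃ μ, AdmL (lift al L) μ ∧ ∫ p, p.2 ∂μ = h ∧
      ∫ p, lift al L p ∂μ ≤ L0 (0, Az al h) + ε) ∧
    ∀ h : Fin 2 → ℝ,
      sInf {r : ℝ | ∃ μ, AdmL (lift al L) μ ∧ ∫ p, p.2 ∂μ = h ∧ ∫ p, lift al L p ∂μ = r}
        = L0 (0, Az al h) := by
  have A1 : ∀ μ, AdmL (lift al L) μ → L0 (0, Az al (∫ p, p.2 ∂μ)) ≤ ∫ p, lift al L p ∂μ := by
    intro μ hμ
    refine le_of_forall_pos_le_add fun ε hε => ?_
    obtain ⟨L', sL', hb, h1, _⟩ := hfin ε hε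
    have hb' : ∀ q, |L' q - L q| ≤ ε := fun q => by rw [abs_sub_comm]; exact hb q
    obtain ⟨ha, hi⟩ := limit_beta_adm (al := al) sL' sL hb' hμ
    have h2 := h1 μ ha
    have h3 := (abs_le.mp hi).2
    linarith
  have A2 : ∀ h : Fin 2 → ℝ, ∀ ε > 0, ∃ μ, AdmL (lift al L) μ ∧ ∫ p, p.2 ∂μ = h ∧
      ∫ p, lift al L p ∂μ ≤ L0 (0, Az al h) + ε := by
    intro h ε hε
    obtain ⟨L', sL', hb, _, h1⟩ := hfin ε hε
    obtain ⟨μ, hμ, hh, hL⟩ := h1 h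
    obtain ⟨ha, hi⟩ := limit_beta_adm (al := al) sL sL' hb hμ
    refine ⟨μ, ha, hh, ?_⟩
    have h3 := (abs_le.mp hi).2
    linarith
  refine ⟨A1, A2, ?_⟩
  intro h
  have hlow : ∀ r ∈ {r : ℝ | ∃ μ, AdmL (lift al L) μ ∧ ∫ p, p.2 ∂μ = h ∧
      ∫ p, lift al L p ∂μ = r}, L0 (0, Az al h) ≤ r := by
    rintro r ⟨μ, hμ, hh, rfl⟩
    have := A1 μ hμ
    rwa [hh] at this
  apply le_antisymm
  · refine le_of_forall_pos_le_add fun ε hε => ?_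
    obtain ⟨μ, hμ, hh, hL⟩ := A2 h ε hε
    exact (csInf_le ⟨_, hlow⟩ ⟨μ, hμ, hh, rfl⟩).trans hL
  · obtain ⟨μ, hμ, hh, hL⟩ := A2 h 1 one_pos
    exact le_csInf ⟨_, μ, hμ, hh, rfl⟩ hlow

end J_limit_beta
export J_limit_beta (limit_beta)
end Pool.Agent.Helper785.EN
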