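import Pool.Agent.Helper785.EN.Defs
import Pool.Agent.Helper785.EN.P_grad_Hof

set_option autoImplicit false
open MeasureTheory

namespace Pool.Agent.Helper785.EN
namespace J_min_graph



variable {al : ℝ} {G G' : ℝ × ℝ × ℝ × ℝ → ℝ}











theorem mg_pert0 (al : ℝ) : Pert al (fun _ => (0 : ℝ)) where
  smooth := contDiff_const
  per1 := fun _ _ _ _ => rfl
  per2 := fun _ _ _ _ => rfl
  supp := fun _ _ _ _ h => absurd rfl h
  zero := fun _ _ _ => rfl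
  bd := fun _ => by norm_num
  bC := fun z => by simp
  bpp := fun z => by simp
  bpC := fun z => by simp
  bCC := fun z => by simp

theorem mg_th1 : th 1 = 0 := by
  unfold th
  rw [max_eq_right (by norm_num)]
  norm_num

theorem mg_fdC (hG : Pert al G) (t x : ℝ) : fderiv ℝ G (t, x, 0, 1) (0, 0, 0, 1) = 0 := by
  have hd : DifferentiableAt ℝ G (t, x, 0, 1) :=
    (hG.smooth.differentiable (by norm_num)) _
  have h1 : HasDerivAt (fun s : ℝ => ((t, x, 0, s) : ℝ × ℝ × ℝ × ℝ)) (0, 0, 0, 1) 1 := by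
    exact (hasDerivAt_const 1 t).prodMk ((hasDerivAt_const 1 x).prodMk
      ((hasDerivAt_const 1 (0 : ℝ)).prodMk (hasDerivAt_id 1)))
  have h2 := hd.hasFDerivAt.comp_hasDerivAt (1 : ℝ) h1
  have h3 : (G ∘ fun s : ℝ => ((t, x, 0, s) : ℝ × ℝ × ℝ × ℝ)) = fun _ => 0 := by
    funext s
    exact hG.zero t x s
  rw [h3] at h2
  exact (h2.unique (hasDerivAt_const 1 0))

theorem mg_C (hG : Pert al G) {C : (ℝ × ℝ) × (ℝ × ℝ) → ℝ} (hC : IsEnergy G C) (y : ℝ × ℝ) :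
    C (y, (1, 0)) = 1 := by
  have h := hC (y, (1, 0))
  rw [hG.zero] at h
  rw [h]
  norm_num

theorem mg_grad (hG : Pert al G) {C : (ℝ × ℝ) × (ℝ × ℝ) → ℝ} (sC : ContDiff ℝ 2 C)
    (hC : IsEnergy G C) (y w : ℝ × ℝ) :
    fderiv ℝ (fun q => Hof C (y, q)) (1, 0) w
      = Real.exp 1 * (w.1 + fderiv ℝ G (y.1, y.2, 0, 1) (0, 0, 1, 0) * w.2) := by
  have h := grad_Hof hG sC hC y (1, 0) w
  rw [mg_C hG hC y] at h
  simp only at h
  rw [mg_fdC hG] at h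
  rw [h, max_eq_right (by norm_num)]
  ring

theorem mg_L0 {L0 : (ℝ × ℝ) × (ℝ × ℝ) → ℝ}
    (hL0 : LegP (fun q : (ℝ × ℝ) × (ℝ × ℝ) => H0 q.2) L0) :
    L0 (0, (Real.exp 1, 0)) = 0 := by
  let C : (ℝ × ℝ) × (ℝ × ℝ) → ℝ := fun q => q.2.1 + q.2.2 ^ 2 / 2
  have sC : ContDiff ℝ 2 C := by
    show ContDiff ℝ 2 (fun q : (ℝ × ℝ) × (ℝ × ℝ) => q.2.1 + q.2.2 ^ 2 / 2)
    fun_prop
  have hC : IsEnergy (fun _ => (0 : ℝ)) C := by
    intro q
    show q.2.1 + q.2.2 ^ 2 / 2 = q.2.1 + q.2.2 ^ 2 / 2 + 0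
    ring
  have h1 : ∀ w : ℝ × ℝ, fderiv ℝ (fun q => (fun q : (ℝ × ℝ) × (ℝ × ℝ) => H0 q.2) ((0 : ℝ × ℝ), q))
      (1, 0) w = w.1 * Real.exp 1 + w.2 * 0 := by
    intro w
    have h2 : (fun q => (fun q : (ℝ × ℝ) × (ℝ × ℝ) => H0 q.2) ((0 : ℝ × ℝ), q)) =
        fun q => Hof C ((0 : ℝ × ℝ), q) := rfl
    rw [h2, mg_grad (mg_pert0 0) sC hC]
    simp
    ring
  have h3 := hL0.eq_of 0 (1, 0) (Real.exp 1, 0) h1
  have h4 : H0 (1, 0) = Real.exp 1 := by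
    unfold H0
    simp only
    rw [mg_th1]
    norm_num
  simp only at h3
  rw [h4] at h3
  linarith

/-- minimisers of the class `(1,0)` live on the graph of the vector field. -/
theorem min_graph (hG : Pert al G) {C : (ℝ × ℝ) × (ℝ × ℝ) → ℝ} (sC : ContDiff ℝ 2 C)
    (hC : IsEnergy G C) {L L0 : (ℝ × ℝ) × (ℝ × ℝ) → ℝ} (hL : LegP (Hof C) L)
    (hL0 : LegP (fun q : (ℝ × ℝ) × (ℝ × ℝ) => H0 q.2) L0)
    (hup : ∀ h : Fin 2 → ℝ, ∀ ε > 0, ∃ μ, AdmL (lift al L) μ ∧ ∫ p, p.2 ∂μ = h ∧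
      ∫ p, lift al L p ∂μ ≤ L0 (0, Az al h) + ε)
    {μ : Measure ((Fin 2 → ℝ) × (Fin 2 → ℝ))} (hμ : AdmL (lift al L) μ)
    (hmin : ∀ ν, AdmL (lift al L) ν →
      ∫ p, (lift al L p - p.2 0) ∂μ ≤ ∫ p, (lift al L p - p.2 0) ∂ν) :
    ∀ᵐ p ∂μ, Az al p.2 = (Real.exp 1,
      Real.exp 1 * fderiv ℝ G ((Az al p.1).1, (Az al p.1).2, 0, 1) (0, 0, 1, 0)) := by
  have hHof : ∀ y : ℝ × ℝ, Hof C (y, (1, 0)) = Real.exp 1 := by
    intro y
    unfold Hof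
    rw [mg_C hG hC]
    simp only
    rw [mg_th1, add_zero]
  have hcoord : ∀ ν : Measure ((Fin 2 → ℝ) × (Fin 2 → ℝ)), AdmL (lift al L) ν →
      Integrable (fun p : (Fin 2 → ℝ) × (Fin 2 → ℝ) => p.2) ν := by
    intro ν hν
    exact (integrable_norm_iff (continuous_snd.aestronglyMeasurable)).mp hν.2.1
  have hcoord0 : ∀ ν : Measure ((Fin 2 → ℝ) × (Fin 2 → ℝ)), AdmL (lift al L) ν →
      Integrable (fun p : (Fin 2 → ℝ) × (Fin 2 → ℝ) => p.2 0) ν := by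
    intro ν hν
    exact (ContinuousLinearMap.proj (R := ℝ) (φ := fun _ : Fin 2 => ℝ) 0).integrable_comp
      (hcoord ν hν)
  let f : (Fin 2 → ℝ) × (Fin 2 → ℝ) → ℝ := fun p => (lift al L p - p.2 0) + Real.exp 1
  have hf0 : ∀ p, 0 ≤ f p := by
    intro p
    have h := hL.young (Az al p.1) (1, 0) (Az al p.2)
    rw [hHof] at h
    have h2 : (Az al p.2).1 = p.2 0 := rfl
    show 0 ≤ (L (Az al p.1, Az al p.2) - p.2 0) + Real.exp 1
    simp only [one_mul, zero_mul, add_zero] at h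
    linarith
  have hprob : IsProbabilityMeasure μ := hμ.1
  have hint1 : Integrable (fun p => lift al L p - p.2 0) μ := hμ.2.2.1.sub (hcoord0 μ hμ)
  have hfint : Integrable f μ := hint1.add (integrable_const _)
  have hle : ∫ p, (lift al L p - p.2 0) ∂μ ≤ - Real.exp 1 := by
    refine le_of_forall_pos_le_add fun ε hε => ?_
    obtain ⟨ν, hν, hν2, hν3⟩ := hup ![Real.exp 1, al * Real.exp 1] ε hε
    have hAz : Az al ![Real.exp 1, al * Real.exp 1] = (Real.exp 1, 0) := by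
      unfold Az
      simp
    rw [hAz, mg_L0 hL0, zero_add] at hν3
    have h1 := hmin ν hν
    have h2 : ∫ p, (lift al L p - p.2 0) ∂ν = ∫ p, lift al L p ∂ν - ∫ p, p.2 0 ∂ν :=
      integral_sub hν.2.2.1 (hcoord0 ν hν)
    have h3 : ∫ p : (Fin 2 → ℝ) × (Fin 2 → ℝ), p.2 0 ∂ν = Real.exp 1 := by
      have h4 := (ContinuousLinearMap.proj (R := ℝ) (φ := fun _ : Fin 2 => ℝ) 0).integral_comp_comm
        (hcoord ν hν)
      have h5 : ∫ p : (Fin 2 → ℝ) × (Fin 2 → ℝ), p.2 0 ∂ν = (∫ p, p.2 ∂ν) 0 := h4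
      rw [h5, hν2]
      rfl
    rw [h2, h3] at h1
    linarith
  have hzero : ∫ p, f p ∂μ = 0 := by
    apply le_antisymm
    · have h1 : ∫ p, f p ∂μ = ∫ p, (lift al L p - p.2 0) ∂μ + ∫ _p, Real.exp 1 ∂μ :=
        integral_add hint1 (integrable_const _)
      rw [h1, integral_const]
      simp only [probReal_univ, one_smul]
      linarith
    · exact integral_nonneg hf0
  have hae : f =ᵐ[μ] 0 := (integral_eq_zero_iff_of_nonneg hf0 hfint).mp hzero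
  filter_upwards [hae] with p hp
  have h1 : (1 : ℝ) * (Az al p.2).1 + 0 * (Az al p.2).2 =
      L (Az al p.1, Az al p.2) + Hof C (Az al p.1, (1, 0)) := by
    rw [hHof]
    have h2 : (Az al p.2).1 = p.2 0 := rfl
    have h3 : (L (Az al p.1, Az al p.2) - p.2 0) + Real.exp 1 = 0 := hp
    rw [h2]
    linarith
  have h2 := hL.grad_of (Az al p.1) (1, 0) (Az al p.2) h1
  have h3 := h2 (1, 0)
  have h4 := h2 (0, 1)
  rw [mg_grad hG sC hC] at h3 h4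
  simp only [mul_zero, add_zero, mul_one, one_mul, zero_mul, zero_add] at h3 h4
  exact Prod.ext h3.symm h4.symm

end J_min_graph
export J_min_graph (min_graph)
end Pool.Agent.Helper785.EN
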