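import Pool.Agent.Helper785.EN.Defs
import Pool.Agent.Helper785.EN.P_th_facts
import Pool.Agent.Helper785.EN.P_grad_Hof

set_option autoImplicit false
open MeasureTheory

namespace Pool.Agent.Helper785.EN
namespace J_pd_Hof



variable {al : ℝ} {G G' : ℝ × ℝ × ℝ × ℝ → ℝ}










/-- positive definite fibre Hessian. -/
theorem pd_Hof (hG : Pert al G) {C : (ℝ × ℝ) × (ℝ × ℝ) → ℝ} (sC : ContDiff ℝ 2 C)
    (hC : IsEnergy G C) (y p w : ℝ × ℝ) (hw : w ≠ 0) :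
    0 < fderiv ℝ (fun q => fderiv ℝ (fun q' => Hof C (y, q')) q) p w w := by
  obtain ⟨hth, hth1, hth2⟩ := th_facts
  have hfC : ContDiff ℝ 2 (fun q : ℝ × ℝ => Hof C (y, q)) := by
    have h1 : ContDiff ℝ 2 (fun q : ℝ × ℝ => C (y, q)) :=
      sC.comp (contDiff_const.prodMk contDiff_id)
    have h2 : ContDiff ℝ 2 (fun q : ℝ × ℝ => th q.1) := hth.comp contDiff_fst
    exact h1.exp.add h2
  -- the line
  have hγ : HasDerivAt (fun s : ℝ => p + s • w) w 0 := by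
    have h1 : HasDerivAt (fun s : ℝ => s • w) ((1 : ℝ) • w) 0 := (hasDerivAt_id (0:ℝ)).smul_const w
    rw [one_smul] at h1
    exact h1.const_add p
  have hγ0 : p + (0 : ℝ) • w = p := by simp
  have hγ1 : HasDerivAt (fun s : ℝ => (p + s • w).1) w.1 0 := by
    have h1 : HasFDerivAt (fun q : ℝ × ℝ => q.1) (ContinuousLinearMap.fst ℝ ℝ ℝ)
      (p + (0:ℝ) • w) := hasFDerivAt_fst
    exact h1.comp_hasDerivAt (0:ℝ) hγ
  have hγ2 : HasDerivAt (fun s : ℝ => (p + s • w).2) w.2 0 := by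
    have h1 : HasFDerivAt (fun q : ℝ × ℝ => q.2) (ContinuousLinearMap.snd ℝ ℝ ℝ)
      (p + (0:ℝ) • w) := hasFDerivAt_snd
    exact h1.comp_hasDerivAt (0:ℝ) hγ
  set c' : ℝ := fderiv ℝ C (y, p) (0, w) with hc'
  have hcs : HasDerivAt (fun s : ℝ => C (y, p + s • w)) c' 0 := by
    have h1 : HasDerivAt (fun s : ℝ => ((y, p + s • w) : (ℝ × ℝ) × (ℝ × ℝ))) (0, w) 0 :=
      (hasDerivAt_const (0:ℝ) y).prodMk hγ
    have h2 : HasFDerivAt C (fderiv ℝ C (y, p)) (y, p + (0:ℝ) • w) := by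
      rw [hγ0]
      exact (sC.differentiable (by norm_num) (y, p)).hasFDerivAt
    exact h2.comp_hasDerivAt (0:ℝ) h1
  set z0 : ℝ × ℝ × ℝ × ℝ := (y.1, y.2, p.2, C (y, p)) with hz0
  have hz : HasDerivAt (fun s : ℝ => ((y.1, y.2, (p + s • w).2, C (y, p + s • w)) :
      ℝ × ℝ × ℝ × ℝ)) (0, 0, w.2, c') 0 :=
    (hasDerivAt_const (0:ℝ) y.1).prodMk ((hasDerivAt_const (0:ℝ) y.2).prodMk (hγ2.prodMk hcs))
  have hG1 : ContDiff ℝ 1 (fderiv ℝ G) := hG.smooth.fderiv_right (by norm_num)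
  have hgd : ∀ a : ℝ × ℝ × ℝ × ℝ, Differentiable ℝ (fun z' => fderiv ℝ G z' a) := fun a =>
    (hG1.differentiable (by norm_num)).clm_apply (differentiable_const a)
  have hgs : ∀ a : ℝ × ℝ × ℝ × ℝ, HasDerivAt (fun s : ℝ =>
      fderiv ℝ G (y.1, y.2, (p + s • w).2, C (y, p + s • w)) a)
      (w.2 * fderiv ℝ (fun z' => fderiv ℝ G z' a) z0 (0, 0, 1, 0) +
        c' * fderiv ℝ (fun z' => fderiv ℝ G z' a) z0 (0, 0, 0, 1)) 0 := by
    intro a
    have h2 : HasFDerivAt (fun z' => fderiv ℝ G z' a) (fderiv ℝ (fun z' => fderiv ℝ G z' a) z0)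
        ((y.1, y.2, (p + (0:ℝ) • w).2, C (y, p + (0:ℝ) • w)) : ℝ × ℝ × ℝ × ℝ) := by
      rw [hγ0]
      exact (hgd a z0).hasFDerivAt
    have h3 := h2.comp_hasDerivAt (0:ℝ) hz
    have h4 : ((0, 0, w.2, c') : ℝ × ℝ × ℝ × ℝ) = w.2 • (0, 0, 1, 0) + c' • (0, 0, 0, 1) := by
      simp
    rw [h4, map_add, map_smul, map_smul, smul_eq_mul, smul_eq_mul] at h3
    exact h3
  -- symmetry
  have hsym : fderiv ℝ (fun z' => fderiv ℝ G z' (0, 0, 0, 1)) z0 (0, 0, 1, 0) =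
      fderiv ℝ (fun z' => fderiv ℝ G z' (0, 0, 1, 0)) z0 (0, 0, 0, 1) := by
    have h1 : ∀ a b : ℝ × ℝ × ℝ × ℝ, fderiv ℝ (fun z' => fderiv ℝ G z' a) z0 b =
        fderiv ℝ (fderiv ℝ G) z0 b a := by
      intro a b
      have h2 : HasFDerivAt (fderiv ℝ G) (fderiv ℝ (fderiv ℝ G) z0) z0 :=
        (hG1.differentiable (by norm_num) z0).hasFDerivAt
      have h3 := h2.clm_apply (hasFDerivAt_const a z0)
      rw [h3.fderiv]
      simp
    rw [h1, h1]
    have h4 : IsSymmSndFDerivAt ℝ G z0 :=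
      (hG.smooth.contDiffAt (x := z0)).isSymmSndFDerivAt (by simp)
    exact h4.eq _ _
  set gpp := fderiv ℝ (fun z' => fderiv ℝ G z' (0, 0, 1, 0)) z0 (0, 0, 1, 0) with hgpp
  set gpC := fderiv ℝ (fun z' => fderiv ℝ G z' (0, 0, 1, 0)) z0 (0, 0, 0, 1) with hgpC
  set gCC := fderiv ℝ (fun z' => fderiv ℝ G z' (0, 0, 0, 1)) z0 (0, 0, 0, 1) with hgCC
  have bpp := hG.bpp z0
  have bpC := hG.bpC z0
  have bCC := hG.bCC z0
  have bC := hG.bC z0
  rw [← hgpp] at bpp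
  rw [← hgpC] at bpC
  rw [← hgCC] at bCC
  have hgP := hgs (0, 0, 1, 0)
  have hgC := hgs (0, 0, 0, 1)
  rw [hsym] at hgC
  rw [← hgpp, ← hgpC] at hgP
  rw [← hgCC] at hgC
  set gC0 := fderiv ℝ G z0 (0, 0, 0, 1) with hgC0
  set gP0 := fderiv ℝ G z0 (0, 0, 1, 0) with hgP0
  have hD0 : 0 < 1 - gC0 := by rw [abs_le] at bC; linarith [bC.1, bC.2]
  have hgC00 : fderiv ℝ G (y.1, y.2, (p + (0:ℝ) • w).2, C (y, p + (0:ℝ) • w)) (0, 0, 0, 1) = gC0 := by
    rw [hγ0]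
  have hgP00 : fderiv ℝ G (y.1, y.2, (p + (0:ℝ) • w).2, C (y, p + (0:ℝ) • w)) (0, 0, 1, 0) = gP0 := by
    rw [hγ0]
  set A : ℝ := (w.1 + (p.2 + gP0) * w.2) / (1 - gC0) with hA
  -- c' = A
  have hcA : c' = A := by
    have h1 := grad_Hof hG sC hC y p w
    have h2 : HasDerivAt (fun s : ℝ => Hof C (y, p + s • w))
        (fderiv ℝ (fun q => Hof C (y, q)) p w) 0 := by
      have h3 : HasFDerivAt (fun q => Hof C (y, q)) (fderiv ℝ (fun q => Hof C (y, q)) p)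
          (p + (0:ℝ) • w) := by
        rw [hγ0]
        exact (hfC.differentiable (by norm_num) p).hasFDerivAt
      exact h3.comp_hasDerivAt (0:ℝ) hγ
    have h4 : HasDerivAt (fun s : ℝ => Hof C (y, p + s • w))
        (Real.exp (C (y, p)) * c' + (-3 * (max (-p.1) 0) ^ 2) * w.1) 0 := by
      have h5 := hcs.exp
      have h6 : HasDerivAt (fun s : ℝ => th (p + s • w).1) ((-3 * (max (-p.1) 0) ^ 2) * w.1) 0 := by
        have h7 : HasDerivAt th (-3 * (max (-p.1) 0) ^ 2) ((p + (0:ℝ) • w).1) := by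
          rw [hγ0]; exact hth1 p.1
        exact HasDerivAt.comp (0:ℝ) h7 hγ1
      have h8 := h5.add h6
      rw [hγ0] at h8
      exact h8
    have h9 := h2.unique h4
    rw [h1] at h9
    have h10 : Real.exp (C (y, p)) / (1 - gC0) * (w.1 + (p.2 + gP0) * w.2)
        - 3 * (max (-p.1) 0) ^ 2 * w.1 = Real.exp (C (y, p)) * c' +
        (-3 * (max (-p.1) 0) ^ 2) * w.1 := h9
    have h11 : Real.exp (C (y, p)) * A = Real.exp (C (y, p)) * c' := by
      have : Real.exp (C (y, p)) * A =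
          Real.exp (C (y, p)) / (1 - gC0) * (w.1 + (p.2 + gP0) * w.2) := by
        rw [hA]; ring
      rw [this]; linarith
    exact (mul_left_cancel₀ (Real.exp_pos _).ne' h11).symm
  -- main derivative
  have hL : HasDerivAt (fun s : ℝ => fderiv ℝ (fun q => Hof C (y, q)) (p + s • w) w)
      (fderiv ℝ (fun q => fderiv ℝ (fun q' => Hof C (y, q')) q) p w w) 0 := by
    have h1 : ContDiff ℝ 1 (fderiv ℝ (fun q : ℝ × ℝ => Hof C (y, q))) :=
      hfC.fderiv_right (by norm_num)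
    have h2 : HasFDerivAt (fderiv ℝ (fun q : ℝ × ℝ => Hof C (y, q)))
        (fderiv ℝ (fderiv ℝ (fun q : ℝ × ℝ => Hof C (y, q))) p) (p + (0:ℝ) • w) := by
      rw [hγ0]
      exact (h1.differentiable (by norm_num) p).hasFDerivAt
    have h3 := (h2.comp_hasDerivAt (0:ℝ) hγ).clm_apply (hasDerivAt_const (0:ℝ) w)
    simpa using h3
  have hR : HasDerivAt (fun s : ℝ => fderiv ℝ (fun q => Hof C (y, q)) (p + s • w) w)
      (Real.exp (C (y, p)) * c' * A + Real.exp (C (y, p)) *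
        (((w.2 + (w.2 * gpp + c' * gpC)) * w.2 * (1 - gC0) -
          (w.1 + (p.2 + gP0) * w.2) * (-(w.2 * gpC + c' * gCC))) / (1 - gC0) ^ 2) +
        6 * max (-p.1) 0 * w.1 * w.1) 0 := by
    have h0 : (fun s : ℝ => fderiv ℝ (fun q => Hof C (y, q)) (p + s • w) w) = fun s : ℝ =>
        Real.exp (C (y, p + s • w)) * ((w.1 + ((p + s • w).2 +
          fderiv ℝ G (y.1, y.2, (p + s • w).2, C (y, p + s • w)) (0, 0, 1, 0)) * w.2) /
          (1 - fderiv ℝ G (y.1, y.2, (p + s • w).2, C (y, p + s • w)) (0, 0, 0, 1))) +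
        (-3 * (max (-(p + s • w).1) 0) ^ 2) * w.1 := by
      funext s
      rw [grad_Hof hG sC hC y (p + s • w) w]
      ring
    rw [h0]
    have h1 := hcs.exp
    have h2 := ((hγ2.add hgP).mul_const w.2).const_add w.1
    have h3 := hgC.const_sub 1
    have h4 := h2.div h3 (by
      show 1 - fderiv ℝ G (y.1, y.2, (p + (0:ℝ) • w).2, C (y, p + (0:ℝ) • w)) (0, 0, 0, 1) ≠ 0
      rw [hgC00]; exact hD0.ne')
    have h5 := h1.mul h4
    have h6 : HasDerivAt (fun s : ℝ => (-3 * (max (-(p + s • w).1) 0) ^ 2)) ((6 * max (-p.1) 0) * w.1) 0 := by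
      have h7 : HasDerivAt (fun s : ℝ => -3 * (max (-s) 0) ^ 2) (6 * max (-p.1) 0) ((p + (0:ℝ) • w).1) := by
        rw [hγ0]; exact hth2 p.1
      have h9 := h7.comp (0:ℝ) hγ1
      exact h9
    have h8 := h5.add (h6.mul_const w.1)
    refine h8.congr_deriv ?_
    simp only [Pi.add_apply, Pi.div_apply, hγ0]
    rw [hA, hgC0, hgP0, hz0]
  have hval := hL.unique hR
  rw [hval]
  set D := 1 - gC0 with hD
  have hDA : w.1 + (p.2 + gP0) * w.2 = D * c' := by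
    rw [hcA, hA]; field_simp
  have hD1 : 99 / 100 ≤ D := by rw [abs_le] at bC; rw [hD]; linarith [bC.1, bC.2]
  have hred : (((w.2 + (w.2 * gpp + c' * gpC)) * w.2 * D -
          (w.1 + (p.2 + gP0) * w.2) * (-(w.2 * gpC + c' * gCC))) / D ^ 2) =
      ((w.2 + (w.2 * gpp + c' * gpC)) * w.2 + c' * (w.2 * gpC + c' * gCC)) / D := by
    rw [hDA]; field_simp; ring
  rw [hred, ← hcA]
  have hmain : 0 < D * c' ^ 2 + ((w.2 + (w.2 * gpp + c' * gpC)) * w.2 +
      c' * (w.2 * gpC + c' * gCC)) := by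
    have hne : c' ≠ 0 ∨ w.2 ≠ 0 := by
      by_contra hcon
      push Not at hcon
      obtain ⟨e1, e2⟩ := hcon
      rw [e1, e2] at hDA
      apply hw
      refine Prod.ext ?_ e2
      show w.1 = 0
      linarith
    have hpos : 0 < c' ^ 2 + w.2 ^ 2 := by
      rcases hne with h | h
      · have := sq_pos_of_ne_zero h
        have h2 := sq_nonneg w.2
        linarith
      · have := sq_pos_of_ne_zero h
        have h2 := sq_nonneg c'
        linarith
    rw [abs_le] at bpp bpC bCC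
    have k1 : -(1/4) * w.2 ^ 2 ≤ gpp * w.2 ^ 2 := mul_le_mul_of_nonneg_right (by linarith [bpp.1]) (sq_nonneg _)
    have k2 : -(1/100) * c' ^ 2 ≤ gCC * c' ^ 2 := mul_le_mul_of_nonneg_right (by linarith [bCC.1]) (sq_nonneg _)
    have k3 : -(1/100) * (c' ^ 2 + w.2 ^ 2) ≤ gpC * (2 * c' * w.2) := by
      have e1 : |gpC * (2 * c' * w.2)| ≤ 1 / 100 * (c' ^ 2 + w.2 ^ 2) := by
        rw [abs_mul]
        apply mul_le_mul (abs_le.2 ⟨by linarith [bpC.1], bpC.2⟩) _ (abs_nonneg _) (by norm_num)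
        rw [abs_le]
        have e2 := two_mul_le_add_sq c' w.2
        have e3 := sq_nonneg (c' + w.2)
        have e4 : (c' + w.2) ^ 2 = c' ^ 2 + 2 * c' * w.2 + w.2 ^ 2 := by ring
        rw [e4] at e3
        constructor <;> linarith
      have := (abs_le.1 e1).1
      linarith
    have k4 : 99 / 100 * c' ^ 2 ≤ D * c' ^ 2 := mul_le_mul_of_nonneg_right hD1 (sq_nonneg _)
    have k5 : D * c' ^ 2 + ((w.2 + (w.2 * gpp + c' * gpC)) * w.2 +
      c' * (w.2 * gpC + c' * gCC)) = D * c' ^ 2 + w.2 ^ 2 + gpp * w.2 ^ 2 +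
      gpC * (2 * c' * w.2) + gCC * c' ^ 2 := by ring
    rw [k5]
    have k6 := sq_nonneg c'
    have k7 := sq_nonneg w.2
    linarith
  have hfin : 0 < Real.exp (C (y, p)) * c' * c' + Real.exp (C (y, p)) *
      (((w.2 + (w.2 * gpp + c' * gpC)) * w.2 + c' * (w.2 * gpC + c' * gCC)) / D) := by
    have e1 : Real.exp (C (y, p)) * c' * c' + Real.exp (C (y, p)) *
      (((w.2 + (w.2 * gpp + c' * gpC)) * w.2 + c' * (w.2 * gpC + c' * gCC)) / D) =
      Real.exp (C (y, p)) * ((D * c' ^ 2 + ((w.2 + (w.2 * gpp + c' * gpC)) * w.2 +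
      c' * (w.2 * gpC + c' * gCC))) / D) := by
      field_simp
    rw [e1]
    exact mul_pos (Real.exp_pos _) (div_pos hmain hD0)
  have hth3 : 0 ≤ 6 * max (-p.1) 0 * w.1 * w.1 := by
    have h1 : 0 ≤ max (-p.1) 0 := le_max_right _ _
    have h2 : 6 * max (-p.1) 0 * w.1 * w.1 = 6 * max (-p.1) 0 * (w.1 ^ 2) := by ring
    rw [h2]; positivity
  linarith

end J_pd_Hof
export J_pd_Hof (pd_Hof)
end Pool.Agent.Helper785.EN
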