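import Pool.Agent.Helper785.EN.Defs

set_option autoImplicit false
open MeasureTheory

namespace Pool.Agent.Helper785.EN
namespace J_sup_Hof



variable {al : ℝ} {G G' : ℝ × ℝ × ℝ × ℝ → ℝ}



theorem sup_Hof (hG : Pert al G) {C : (ℝ × ℝ) × (ℝ × ℝ) → ℝ} (hC : IsEnergy G C) :
    (∀ A : ℝ, ∃ B : ℝ, ∀ y p : ℝ × ℝ, A * ‖p‖ - B ≤ Hof C (y, p)) ∧
    (∀ A : ℝ, ∃ B : ℝ, ∀ y p : ℝ × ℝ, ‖p‖ ≤ A → Hof C (y, p) ≤ B) := by
  have hb : ∀ y p : ℝ × ℝ, p.1 + p.2 ^ 2 / 2 - 1 / 16 ≤ C (y, p) ∧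
      C (y, p) ≤ p.1 + p.2 ^ 2 / 2 + 1 / 16 := by
    intro y p
    have h1 := hC (y, p)
    have h2 := abs_le.mp (hG.bd (y.1, y.2, p.2, C (y, p)))
    simp only at h1
    constructor
    · linarith [h2.1]
    · linarith [h2.2]
  constructor
  · intro A
    obtain ⟨K, hKA, hK1⟩ : ∃ K : ℝ, A ≤ K ∧ 1 ≤ K := ⟨max A 1, le_max_left _ _, le_max_right _ _⟩
    have hK0 : 0 < K := by linarith
    refine ⟨K / 2 + K * Real.log K + 4 * K ^ 2 + K, fun y p => ?_⟩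
    have hnorm : ‖p‖ ≤ |p.1| + |p.2| := by
      rw [Prod.norm_def, Real.norm_eq_abs, Real.norm_eq_abs]
      exact max_le (by linarith [abs_nonneg p.2]) (by linarith [abs_nonneg p.1])
    have h1 : A * ‖p‖ ≤ K * (|p.1| + |p.2|) := by
      calc A * ‖p‖ ≤ K * ‖p‖ := mul_le_mul_of_nonneg_right hKA (norm_nonneg _)
        _ ≤ _ := mul_le_mul_of_nonneg_left hnorm hK0.le
    have h2 : K * (C (y, p) + 1 - Real.log K) ≤ Real.exp (C (y, p)) := by
      have h3 := Real.add_one_le_exp (C (y, p) - Real.log K)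
      rw [Real.exp_sub, Real.exp_log hK0, le_div_iff₀ hK0] at h3
      linarith
    have h4 : K * (p.1 + p.2 ^ 2 / 2 - 1 / 16) ≤ K * C (y, p) :=
      mul_le_mul_of_nonneg_left (hb y p).1 hK0.le
    obtain ⟨m, hm, hm0, hm1⟩ : ∃ m : ℝ, m = max (-p.1) 0 ∧ 0 ≤ m ∧ |p.1| ≤ p.1 + 2 * m := by
      refine ⟨_, rfl, le_max_right _ _, ?_⟩
      rcases le_total 0 p.1 with h | h
      · rw [abs_of_nonneg h, max_eq_right (by linarith)]; linarith
      · rw [abs_of_nonpos h, max_eq_left (by linarith)]; linarith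
    have h5 : 2 * K * m - 4 * K ^ 2 ≤ m ^ 3 := by
      rcases le_total m (2 * K) with h | h
      · have e1 : 0 ≤ m ^ 3 := by positivity
        nlinarith
      · have e1 : 2 * K * m ≤ m ^ 3 := by
          have e2 : 2 * K ≤ m ^ 2 := by nlinarith
          nlinarith
        nlinarith
    have h6 : K * |p.1| ≤ K * (p.1 + 2 * m) := mul_le_mul_of_nonneg_left hm1 hK0.le
    have h7 : K * |p.2| ≤ K * (p.2 ^ 2 / 2 + 1 / 2) := by
      refine mul_le_mul_of_nonneg_left ?_ hK0.le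
      rw [← sq_abs p.2]
      nlinarith [sq_nonneg (|p.2| - 1)]
    have h8 : Hof C (y, p) = Real.exp (C (y, p)) + m ^ 3 := by
      rw [hm]; rfl
    rw [h8]
    nlinarith
  · intro A
    refine ⟨Real.exp (|A| + A ^ 2 / 2 + 1 / 16) + |A| ^ 3, fun y p hp => ?_⟩
    have hp' : ‖p‖ ≤ |A| := hp.trans (le_abs_self A)
    have h1 : |p.1| ≤ |A| := by
      rw [← Real.norm_eq_abs]; exact (norm_fst_le p).trans hp'
    have h2 : |p.2| ≤ |A| := by
      rw [← Real.norm_eq_abs]; exact (norm_snd_le p).trans hp'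
    have h3 : p.2 ^ 2 ≤ A ^ 2 := sq_le_sq.mpr h2
    have h4 := (abs_le.mp h1)
    have h5 : C (y, p) ≤ |A| + A ^ 2 / 2 + 1 / 16 := by
      have := (hb y p).2
      linarith [h4.2]
    have h6 : (max (-p.1) 0) ^ 3 ≤ |A| ^ 3 := by
      refine pow_le_pow_left₀ (le_max_right _ _) (max_le (by linarith [h4.1]) (abs_nonneg _)) 3
    have h7 : Real.exp (C (y, p)) ≤ Real.exp (|A| + A ^ 2 / 2 + 1 / 16) := Real.exp_le_exp.mpr h5
    show Real.exp (C (y, p)) + (max (-p.1) 0) ^ 3 ≤ _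
    linarith

end J_sup_Hof
export J_sup_Hof (sup_Hof)
end Pool.Agent.Helper785.EN
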