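import Pool.Agent.Helper785.EN.Defs

set_option autoImplicit false
open MeasureTheory

namespace Pool.Agent.Helper785.EN
namespace J_zero_pert



variable {al : ℝ} {G G' : ℝ × ℝ × ℝ × ℝ → ℝ}



theorem zero_pert : Pert al (fun _ => 0) ∧
    IsEnergy (fun _ => 0) (fun q : (ℝ × ℝ) × (ℝ × ℝ) => q.2.1 + q.2.2 ^ 2 / 2) := by
  refine ⟨⟨contDiff_const, fun _ _ _ _ => rfl, fun _ _ _ _ => rfl, ?_, fun _ _ _ => rfl,
    ?_, ?_, ?_, ?_, ?_⟩, ?_⟩
  · intro t x p C h
    exact absurd rfl h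
  · intro z
    norm_num
  · intro z
    simp
  · intro z
    simp
  · intro z
    simp
  · intro z
    simp
  · intro q
    simp

end J_zero_pert
export J_zero_pert (zero_pert)
end Pool.Agent.Helper785.EN
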