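import Pool.Agent.Helper785.EN.P_exists_energy
import Pool.Agent.Helper785.EN.P_energy_per
import Pool.Agent.Helper785.EN.P_grad_Hof
import Pool.Agent.Helper785.EN.P_pd_Hof
import Pool.Agent.Helper785.EN.P_sup_Hof
import Pool.Agent.Helper785.EN.P_legendre
import Pool.Agent.Helper785.EN.P_leg_per
import Pool.Agent.Helper785.EN.P_leg_close
import Pool.Agent.Helper785.EN.P_hof_close
import Pool.Agent.Helper785.EN.P_calib_triv
import Pool.Agent.Helper785.EN.P_calib_main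
import Pool.Agent.Helper785.EN.P_zero_pert
import Pool.Agent.Helper785.EN.P_finite_beta
import Pool.Agent.Helper785.EN.P_limit_beta
import Pool.Agent.Helper785.EN.P_min_graph
import Pool.Agent.Helper785.EN.P_gap_zero
import Pool.Agent.Helper785.EN.P_th_facts

set_option autoImplicit false
open MeasureTheory

namespace Pool.Agent.Helper785.EN

variable {al : ℝ} {G G' : ℝ × ℝ × ℝ × ℝ → ℝ}

/-- `Az` as a continuous linear equivalence. -/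
noncomputable def AzL (al : ℝ) : (Fin 2 → ℝ) ≃L[ℝ] (ℝ × ℝ) :=
  LinearEquiv.toContinuousLinearEquiv
    { toFun := fun z => (z 0, z 1 - al * z 0)
      invFun := fun p => ![p.1, p.2 + al * p.1]
      map_add' := fun a b => by ext <;> simp; ring
      map_smul' := fun r a => by ext <;> simp; ring
      left_inv := fun z => by ext i; fin_cases i <;> simp
      right_inv := fun p => by ext <;> simp }

theorem AzL_apply (z : Fin 2 → ℝ) : AzL al z = Az al z := rfl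

theorem per_int {α : Type*} {f : ℝ × ℝ → α} (h : Per al f) (m n : ℤ) (y : ℝ × ℝ) :
    f (y + ((m : ℝ), (n : ℝ) - m * al)) = f y := by
  have h1 : Function.Periodic f ((1 : ℝ), -al) := h.1
  have h2 : Function.Periodic f ((0 : ℝ), (1 : ℝ)) := h.2
  have e : ((m : ℝ), (n : ℝ) - m * al) = m • ((1 : ℝ), -al) + n • ((0 : ℝ), (1 : ℝ)) := by
    ext <;> simp; ring
  rw [e, ← add_assoc]
  rw [(h2.zsmul n) (y + m • ((1 : ℝ), -al))]
  exact h1.zsmul m y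

theorem lift_contDiff {L : (ℝ × ℝ) × (ℝ × ℝ) → ℝ} (hL : ContDiff ℝ 2 L) :
    ContDiff ℝ 2 (lift al L) := by
  have : lift al L = fun q => L (AzL al q.1, AzL al q.2) := rfl
  rw [this]
  exact hL.comp (((AzL al).contDiff.comp contDiff_fst).prodMk ((AzL al).contDiff.comp contDiff_snd))

theorem lift_per {L : (ℝ × ℝ) × (ℝ × ℝ) → ℝ} (hp : ∀ v, Per al (fun y => L (y, v)))
    (x v : Fin 2 → ℝ) (k : Fin 2 → ℤ) :
    lift al L (x + (fun i => (k i : ℝ)), v) = lift al L (x, v) := by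
  have e : Az al (x + fun i => (k i : ℝ)) = Az al x + ((k 0 : ℝ), (k 1 : ℝ) - (k 0 : ℝ) * al) := by
    ext <;> simp [Az]; ring
  simp only [lift, e]
  exact per_int (hp (Az al v)) (k 0) (k 1) (Az al x)

theorem lift_pd {L : (ℝ × ℝ) × (ℝ × ℝ) → ℝ} (sL : ContDiff ℝ 2 L)
    (pd : ∀ y v w : ℝ × ℝ, w ≠ 0 →
      0 < fderiv ℝ (fun q => fderiv ℝ (fun q' => L (y, q')) q) v w w)
    (x v w : Fin 2 → ℝ) (hw : w ≠ 0) :
    0 < fderiv ℝ (fun u => fderiv ℝ (fun u' => lift al L (x, u')) u) v w w := by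
  set φ : ℝ × ℝ → ℝ := fun q' => L (Az al x, q') with hφ
  have sφ : ContDiff ℝ 2 φ := sL.comp (contDiff_const.prodMk contDiff_id)
  have h1 : (fun u => fderiv ℝ (fun u' => lift al L (x, u')) u)
      = fun u => (fderiv ℝ φ (AzL al u)).comp ((AzL al : (Fin 2 → ℝ) ≃L[ℝ] (ℝ × ℝ)) : (Fin 2 → ℝ) →L[ℝ] (ℝ × ℝ)) := by
    funext u
    have : (fun u' => lift al L (x, u')) = φ ∘ (AzL al) := rfl
    rw [this, fderiv_comp _ ((sφ.differentiable (by norm_num)).differentiableAt)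
      (AzL al).differentiableAt]
    rw [(AzL al).fderiv]
  rw [h1]
  have hd : DifferentiableAt ℝ (fderiv ℝ φ) (AzL al v) :=
    ((sφ.fderiv_right (m := 1) (by norm_num)).differentiable (by norm_num)).differentiableAt
  have h2 : HasFDerivAt (fun u => (fderiv ℝ φ (AzL al u)).comp
      ((AzL al : (Fin 2 → ℝ) ≃L[ℝ] (ℝ × ℝ)) : (Fin 2 → ℝ) →L[ℝ] (ℝ × ℝ)))
      (((ContinuousLinearMap.compL ℝ (Fin 2 → ℝ) (ℝ × ℝ) ℝ).flip
        ((AzL al : (Fin 2 → ℝ) ≃L[ℝ] (ℝ × ℝ)) : (Fin 2 → ℝ) →L[ℝ] (ℝ × ℝ))).comp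
        ((fderiv ℝ (fderiv ℝ φ) (AzL al v)).comp
          ((AzL al : (Fin 2 → ℝ) ≃L[ℝ] (ℝ × ℝ)) : (Fin 2 → ℝ) →L[ℝ] (ℝ × ℝ)))) v := by
    have h3 : HasFDerivAt (fun u => fderiv ℝ φ (AzL al u))
        ((fderiv ℝ (fderiv ℝ φ) (AzL al v)).comp
          ((AzL al : (Fin 2 → ℝ) ≃L[ℝ] (ℝ × ℝ)) : (Fin 2 → ℝ) →L[ℝ] (ℝ × ℝ))) v :=
      HasFDerivAt.comp v hd.hasFDerivAt (AzL al).hasFDerivAt
    exact (((ContinuousLinearMap.compL ℝ (Fin 2 → ℝ) (ℝ × ℝ) ℝ).flip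
        ((AzL al : (Fin 2 → ℝ) ≃L[ℝ] (ℝ × ℝ)) : (Fin 2 → ℝ) →L[ℝ] (ℝ × ℝ))).hasFDerivAt).comp v h3
  rw [h2.fderiv]
  have hw' : AzL al w ≠ 0 := by
    intro h; exact hw ((AzL al).injective (by simpa using h))
  have := pd (Az al x) (Az al v) (AzL al w) hw'
  exact this

theorem lift_sup {L : (ℝ × ℝ) × (ℝ × ℝ) → ℝ}
    (sup : ∀ A : ℝ, ∃ B : ℝ, ∀ y v : ℝ × ℝ, A * ‖v‖ - B ≤ L (y, v)) (A : ℝ) :
    ∃ B : ℝ, ∀ x v : Fin 2 → ℝ, A * ‖v‖ - B ≤ lift al L (x, v) := by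
  obtain ⟨B, hB⟩ := sup (max A 0 * ‖((AzL al).symm : (ℝ × ℝ) →L[ℝ] (Fin 2 → ℝ))‖)
  refine ⟨B, fun x v => ?_⟩
  have h1 := hB (Az al x) (Az al v)
  have h2 : ‖v‖ ≤ ‖((AzL al).symm : (ℝ × ℝ) →L[ℝ] (Fin 2 → ℝ))‖ * ‖Az al v‖ := by
    have := ((AzL al).symm : (ℝ × ℝ) →L[ℝ] (Fin 2 → ℝ)).le_opNorm (AzL al v)
    rw [ContinuousLinearEquiv.coe_coe, ContinuousLinearEquiv.symm_apply_apply] at this
    exact this
  have h3 : A * ‖v‖ ≤ max A 0 * ‖v‖ := mul_le_mul_of_nonneg_right (le_max_left _ _) (norm_nonneg _)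
  have h4 : max A 0 * ‖v‖ ≤ max A 0 * (‖((AzL al).symm : (ℝ × ℝ) →L[ℝ] (Fin 2 → ℝ))‖ * ‖Az al v‖) :=
    mul_le_mul_of_nonneg_left h2 (le_max_right _ _)
  have h5 : lift al L (x, v) = L (Az al x, Az al v) := rfl
  rw [h5]
  nlinarith

theorem tonH_Hof (hG : Pert al G) {C : (ℝ × ℝ) × (ℝ × ℝ) → ℝ} (sC : ContDiff ℝ 2 C)
    (hC : IsEnergy G C) : TonH (Hof C) where
  smooth := by
    have h1 : ContDiff ℝ 2 (fun q : (ℝ × ℝ) × (ℝ × ℝ) => Real.exp (C q)) := sC.exp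
    have h2 : ContDiff ℝ 2 (fun q : (ℝ × ℝ) × (ℝ × ℝ) => th q.2.1) :=
      th_facts.1.comp (contDiff_fst.comp contDiff_snd)
    exact h1.add h2
  pd := fun y p w hw => pd_Hof hG sC hC y p w hw
  sup := (sup_Hof hG hC).1
  locbd := (sup_Hof hG hC).2

/-- ENERGY: the frozen negation from the family `G`. -/
theorem energy_main (hG : Pert al G)
    (hfin : ∀ ε > 0, ∃ G', Pert al G' ∧ (∀ z, |G z - G' z| ≤ ε) ∧
      ∀ E : ℝ, ∃ X P F, Triple al (fun z => G' (z.1, z.2.1, z.2.2, E)) X P F)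
    {U : Set (ℝ × ℝ)} (hU : IsOpen U) (hne : U.Nonempty)
    (hUp : ∀ y, (y + (1, -al) ∈ U ↔ y ∈ U) ∧ (y + (0, 1) ∈ U ↔ y ∈ U))
    (hgap : ∀ ε > 0, ∃ φ : ℝ × ℝ → ℝ, ContDiff ℝ 1 φ ∧ Per al φ ∧
      ∀ y, U.indicator 1 y - ε ≤ fderiv ℝ φ y (1, fderiv ℝ G (y.1, y.2, 0, 1) (0, 0, 1, 0))) :
    ¬ (∀ (L : (Fin 2 → ℝ) × (Fin 2 → ℝ) → ℝ),
    ContDiff ℝ 2 L →
    (∀ (x v : Fin 2 → ℝ) (k : Fin 2 → ℤ), L (x + (fun i => (k i : ℝ)), v) = L (x, v)) →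
    (∀ x v w : Fin 2 → ℝ, w ≠ 0 →
      0 < fderiv ℝ (fun u => fderiv ℝ (fun u' => L (x, u')) u) v w w) →
    (∀ A : ℝ, ∃ B : ℝ, ∀ x v : Fin 2 → ℝ, A * ‖v‖ - B ≤ L (x, v)) →
    ∀ (Adm : Measure ((Fin 2 → ℝ) × (Fin 2 → ℝ)) → Prop),
    (∀ μ, Adm μ ↔ (IsProbabilityMeasure μ ∧ Integrable (fun p => ‖p.2‖) μ ∧ Integrable L μ ∧
        ∀ φ : (Fin 2 → ℝ) → ℝ, ContDiff ℝ 1 φ →
          (∀ (x : Fin 2 → ℝ) (k : Fin 2 → ℤ), φ (x + (fun i => (k i : ℝ))) = φ x) →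
          ∫ p, fderiv ℝ φ p.1 p.2 ∂μ = 0)) →
    ContDiff ℝ 1 (fun h : Fin 2 → ℝ =>
      sInf {r : ℝ | ∃ μ, Adm μ ∧ ∫ p, p.2 ∂μ = h ∧ ∫ p, L p ∂μ = r}) →
    ∀ c x : Fin 2 → ℝ, ∃ μ, Adm μ ∧
      (∀ ν, Adm ν → ∫ p, (L p - ∑ i, c i * p.2 i) ∂μ ≤ ∫ p, (L p - ∑ i, c i * p.2 i) ∂ν) ∧
      ∃ (k : Fin 2 → ℤ) (v : Fin 2 → ℝ), ∀ ε > 0,
        0 < μ (Metric.ball (x + (fun i => (k i : ℝ)), v) ε)) := by
  intro hF
  obtain ⟨C, sC, hC⟩ := exists_energy hG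
  obtain ⟨L, hL⟩ := legendre (tonH_Hof hG sC hC)
  obtain ⟨Z0, ZE⟩ := zero_pert (al := al)
  have sZ : ContDiff ℝ 2 (fun q : (ℝ × ℝ) × (ℝ × ℝ) => q.2.1 + q.2.2 ^ 2 / 2) := by fun_prop
  obtain ⟨L0, hL0'⟩ := legendre (tonH_Hof Z0 sZ ZE)
  have hL0 : LegP (fun q : (ℝ × ℝ) × (ℝ × ℝ) => H0 q.2) L0 := hL0'
  have hstage : ∀ ε > 0, ∃ L' : (ℝ × ℝ) × (ℝ × ℝ) → ℝ, Continuous L' ∧
      (∀ q, |L q - L' q| ≤ ε) ∧
      (∀ μ, AdmL (lift al L') μ → L0 (0, Az al (∫ p, p.2 ∂μ)) ≤ ∫ p, lift al L' p ∂μ) ∧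
      ∀ h : Fin 2 → ℝ, ∃ μ, AdmL (lift al L') μ ∧ ∫ p, p.2 ∂μ = h ∧
        ∫ p, lift al L' p ∂μ = L0 (0, Az al h) := by
    intro ε hε
    have hm : 0 < min (ε / 20) (1 / 4) := lt_min (by positivity) (by norm_num)
    obtain ⟨G', hG', hclose, hT⟩ := hfin _ hm
    obtain ⟨C', sC', hC'⟩ := exists_energy hG'
    obtain ⟨L', hL'⟩ := legendre (tonH_Hof hG' sC' hC')
    refine ⟨L', hL'.smooth.continuous, ?_, ?_⟩
    · intro q
      refine leg_close hL hL' (fun q => ?_) q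
      refine (hof_close hG hG' hC hC' hm.le (min_le_right _ _) hclose q).trans ?_
      have := min_le_left (ε / 20) (1 / 4)
      linarith
    · refine finite_beta (C := C') (fun c => ?_) hL' hL0
      by_cases h1 : 1 / 4 ≤ |c.2|
      · exact calib_triv hG' sC' hC' c (Or.inl h1)
      by_cases h2 : c.1 + c.2 ^ 2 / 2 ≤ 1 / 2
      · exact calib_triv hG' sC' hC' c (Or.inr (Or.inl h2))
      exact calib_main hG' sC' hC' c (le_of_lt (not_le.mp h1)) (le_of_lt (not_le.mp h2)) (hT _)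
  obtain ⟨hb1, hb2, hb3⟩ := limit_beta hL.smooth.continuous hstage
  have hβ : ContDiff ℝ 1 (fun h : Fin 2 → ℝ =>
      sInf {r : ℝ | ∃ μ, AdmL (lift al L) μ ∧ ∫ p, p.2 ∂μ = h ∧ ∫ p, lift al L p ∂μ = r}) := by
    have e : (fun h : Fin 2 → ℝ =>
      sInf {r : ℝ | ∃ μ, AdmL (lift al L) μ ∧ ∫ p, p.2 ∂μ = h ∧ ∫ p, lift al L p ∂μ = r})
        = fun h => L0 (0, AzL al h) := by
      funext h; exact hb3 h
    rw [e]
    exact (hL0.smooth.of_le (by norm_num)).comp (contDiff_const.prodMk (AzL al).contDiff)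
  have hLp : ∀ v, Per al (fun y => L (y, v)) := leg_per hL (fun p => energy_per hG hC p)
  obtain ⟨x0, hx0⟩ := hne
  obtain ⟨μ, hμ, hmin, k, v, hball⟩ := hF (lift al L) (lift_contDiff hL.smooth) (lift_per hLp)
    (lift_pd hL.smooth hL.pd) (lift_sup hL.sup) (AdmL (lift al L)) (fun μ => Iff.rfl) hβ
    ![1, 0] ((AzL al).symm x0)
  have hmin' : ∀ ν, AdmL (lift al L) ν →
      ∫ p, (lift al L p - p.2 0) ∂μ ≤ ∫ p, (lift al L p - p.2 0) ∂ν := by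
    intro ν hν
    have := hmin ν hν
    simpa [Fin.sum_univ_two] using this
  have hV := min_graph hG sC hC hL hL0 hb2 hμ hmin'
  have hz := gap_zero (al := al) hU hgap hμ hV
  -- a ball around the bad point lies in the gap
  have hopen : IsOpen {p : (Fin 2 → ℝ) × (Fin 2 → ℝ) | Az al p.1 ∈ U} := by
    have : Continuous (fun p : (Fin 2 → ℝ) × (Fin 2 → ℝ) => AzL al p.1) :=
      (AzL al).continuous.comp continuous_fst
    exact hU.preimage this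
  have hUi : ∀ (m n : ℤ) (y : ℝ × ℝ), y + ((m : ℝ), (n : ℝ) - m * al) ∈ U ↔ y ∈ U := by
    intro m n y
    have hp : Per al (fun y => y ∈ U) := ⟨fun y => propext (hUp y).1, fun y => propext (hUp y).2⟩
    exact Iff.of_eq (per_int hp m n y)
  have hmem : ((AzL al).symm x0 + (fun i => (k i : ℝ)), v) ∈
      {p : (Fin 2 → ℝ) × (Fin 2 → ℝ) | Az al p.1 ∈ U} := by
    have e : Az al ((AzL al).symm x0 + (fun i => (k i : ℝ)))
        = x0 + ((k 0 : ℝ), (k 1 : ℝ) - (k 0 : ℝ) * al) := by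
      have e1 : Az al ((AzL al).symm x0 + (fun i => (k i : ℝ)))
        = AzL al ((AzL al).symm x0) + AzL al (fun i => (k i : ℝ)) := by
        rw [← map_add]; rfl
      rw [e1, ContinuousLinearEquiv.apply_symm_apply]
      congr 1
      ext <;> simp [AzL_apply, Az]
      ring
    change Az al ((AzL al).symm x0 + (fun i => (k i : ℝ))) ∈ U
    rw [e]
    exact (hUi _ _ _).mpr hx0
  obtain ⟨ε, hε, hsub⟩ := Metric.isOpen_iff.mp hopen _ hmem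
  have h1 := hball ε hε
  have h2 : μ (Metric.ball ((AzL al).symm x0 + (fun i => (k i : ℝ)), v) ε) ≤ 0 := by
    rw [← hz]; exact measure_mono hsub
  exact absurd h1 (not_lt.mpr h2)

end Pool.Agent.Helper785.EN
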