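import Pool.Agent.Helper785.EN.Defs

set_option autoImplicit false
open MeasureTheory

namespace Pool.Agent.Helper785.EN
namespace J_family_pert



variable {al : ℝ} {G G' : ℝ × ℝ × ℝ × ℝ → ℝ}



/-- four dimensional space -/
abbrev fp_E : Type := ℝ × ℝ × ℝ × ℝ

/-- coordinates -/
noncomputable def fp_L1 : fp_E →L[ℝ] ℝ := ContinuousLinearMap.fst ℝ ℝ (ℝ × ℝ × ℝ)
noncomputable def fp_L2 : fp_E →L[ℝ] ℝ :=
  (ContinuousLinearMap.fst ℝ ℝ (ℝ × ℝ)).comp (ContinuousLinearMap.snd ℝ ℝ (ℝ × ℝ × ℝ))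
noncomputable def fp_L3 : fp_E →L[ℝ] ℝ :=
  (ContinuousLinearMap.fst ℝ ℝ ℝ).comp
    ((ContinuousLinearMap.snd ℝ ℝ (ℝ × ℝ)).comp (ContinuousLinearMap.snd ℝ ℝ (ℝ × ℝ × ℝ)))
noncomputable def fp_L4 : fp_E →L[ℝ] ℝ :=
  (ContinuousLinearMap.snd ℝ ℝ ℝ).comp
    ((ContinuousLinearMap.snd ℝ ℝ (ℝ × ℝ)).comp (ContinuousLinearMap.snd ℝ ℝ (ℝ × ℝ × ℝ)))

theorem fp_c4 (g : ℝ → ℝ) (hg : Differentiable ℝ g) (z : fp_E) :
    HasFDerivAt (fun z : fp_E => g z.2.2.2) (deriv g z.2.2.2 • fp_L4) z :=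
  (hg z.2.2.2).hasDerivAt.comp_hasFDerivAt z fp_L4.hasFDerivAt

/-- the map inserting the cut-off -/
def fp_S (σ : ℝ → ℝ) (z : fp_E) : fp_E := (z.1, z.2.1, z.2.2.1, σ z.2.2.2)

/-- its derivative -/
noncomputable def fp_D (c : ℝ) : fp_E →L[ℝ] fp_E :=
  fp_L1.prod (fp_L2.prod (fp_L3.prod (c • fp_L4)))

theorem fp_D_apply (c : ℝ) (v : fp_E) : fp_D c v = (v.1, v.2.1, v.2.2.1, c * v.2.2.2) := rfl

theorem fp_S_has (σ : ℝ → ℝ) (hσ : Differentiable ℝ σ) (z : fp_E) :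
    HasFDerivAt (fp_S σ) (fp_D (deriv σ z.2.2.2)) z := by
  have h4 : HasFDerivAt (fun z : fp_E => σ z.2.2.2) (deriv σ z.2.2.2 • fp_L4) z :=
    (hσ z.2.2.2).hasDerivAt.comp_hasFDerivAt z fp_L4.hasFDerivAt
  exact fp_L1.hasFDerivAt.prodMk (fp_L2.hasFDerivAt.prodMk (fp_L3.hasFDerivAt.prodMk h4))

theorem fp_first (σ : ℝ → ℝ) (hσ : Differentiable ℝ σ) (G : fp_E → ℝ) (hG : Differentiable ℝ G)
    (z v : fp_E) : fderiv ℝ (fun z => G (fp_S σ z)) z v =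
      fderiv ℝ G (fp_S σ z) (fp_D (deriv σ z.2.2.2) v) := by
  have h := ((hG (fp_S σ z)).hasFDerivAt.comp z (fp_S_has σ hσ z)).fderiv
  have h2 : fderiv ℝ (fun z => G (fp_S σ z)) z =
    (fderiv ℝ G (fp_S σ z)).comp (fp_D (deriv σ z.2.2.2)) := h
  rw [h2]
  rfl

theorem fp_second_has (σ : ℝ → ℝ) (hσ : Differentiable ℝ σ) (G : fp_E → ℝ)
    (hG : Differentiable ℝ (fderiv ℝ G)) (e z : fp_E) :
    HasFDerivAt (fun z => fderiv ℝ G (fp_S σ z) e)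
      ((ContinuousLinearMap.apply ℝ ℝ e).comp
        ((fderiv ℝ (fderiv ℝ G) (fp_S σ z)).comp (fp_D (deriv σ z.2.2.2)))) z := by
  have h := (hG (fp_S σ z)).hasFDerivAt.comp z (fp_S_has σ hσ z)
  exact (ContinuousLinearMap.apply ℝ ℝ e).hasFDerivAt.comp z h

theorem fp_second (σ : ℝ → ℝ) (hσ : Differentiable ℝ σ) (G : fp_E → ℝ)
    (hG : Differentiable ℝ (fderiv ℝ G)) (e z v : fp_E) :
    fderiv ℝ (fun z => fderiv ℝ G (fp_S σ z) e) z v =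
      fderiv ℝ (fderiv ℝ G) (fp_S σ z) (fp_D (deriv σ z.2.2.2) v) e := by
  rw [(fp_second_has σ hσ G hG e z).fderiv]
  rfl

theorem fp_D3 (c : ℝ) : fp_D c (0, 0, 1, 0) = (0, 0, 1, 0) := by
  rw [fp_D_apply]
  simp

theorem fp_D4 (c : ℝ) : fp_D c (0, 0, 0, 1) = c • ((0, 0, 0, 1) : fp_E) := by
  rw [fp_D_apply]
  simp

theorem fp_norm3 : ‖((0, 0, 1, 0) : fp_E)‖ = 1 := by
  simp [Prod.norm_def]

theorem fp_norm4 : ‖((0, 0, 0, 1) : fp_E)‖ = 1 := by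
  simp [Prod.norm_def]

theorem fp_b1 (G : fp_E → ℝ) (ep : ℝ) (h : ∀ z, ‖fderiv ℝ G z‖ ≤ ep) (z e : fp_E)
    (he : ‖e‖ = 1) : |fderiv ℝ G z e| ≤ ep := by
  have h1 := (fderiv ℝ G z).le_opNorm e
  rw [he, mul_one, Real.norm_eq_abs] at h1
  exact h1.trans (h z)

theorem fp_b2 (G : fp_E → ℝ) (ep : ℝ) (h : ∀ z, ‖fderiv ℝ (fderiv ℝ G) z‖ ≤ ep) (z e e' : fp_E)
    (he : ‖e‖ = 1) (he' : ‖e'‖ = 1) : |fderiv ℝ (fderiv ℝ G) z e e'| ≤ ep := by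
  have h1 := (fderiv ℝ (fderiv ℝ G) z e).le_opNorm e'
  have h2 := (fderiv ℝ (fderiv ℝ G) z).le_opNorm e
  rw [he', mul_one, Real.norm_eq_abs] at h1
  rw [he, mul_one] at h2
  exact h1.trans (h2.trans (h z))

/-- inserting the energy cut-off into the amplitude. -/
theorem family_pert : ∃ (sig : ℝ → ℝ) (ep0 : ℝ), ContDiff ℝ 2 sig ∧ sig 1 = 1 ∧ 0 < ep0 ∧
    ∀ (al ep : ℝ) (G : ℝ × ℝ × ℝ × ℝ → ℝ), 0 < ep → ep ≤ ep0 → ContDiff ℝ 2 G →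
      (∀ t x p a : ℝ, G (t, x + 1, p, a) = G (t, x, p, a)) →
      (∀ t x p a : ℝ, G (t + 1, x - al, p, a) = G (t, x, p, a)) →
      (∀ t x p a : ℝ, ep ≤ |p| → G (t, x, p, a) = 0) →
      (∀ t x a : ℝ, G (t, x, 0, a) = 0) →
      (∀ t x p a : ℝ, a ≤ 0 → G (t, x, p, a) = 0) →
      (∀ z, |G z| ≤ ep) → (∀ z, ‖fderiv ℝ G z‖ ≤ ep) →
      (∀ z, ‖fderiv ℝ (fderiv ℝ G) z‖ ≤ ep) →
      Pert al (fun z => G (z.1, z.2.1, z.2.2.1, sig z.2.2.2)) ∧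
      ∀ t x : ℝ, fderiv ℝ (fun z : ℝ × ℝ × ℝ × ℝ => G (z.1, z.2.1, z.2.2.1, sig z.2.2.2))
        (t, x, 0, 1) (0, 0, 1, 0) = fderiv ℝ G (t, x, 0, 1) (0, 0, 1, 0) := by
  let b : ContDiffBump (1 : ℝ) := ⟨1 / 8, 1 / 4, by norm_num, by norm_num⟩
  obtain ⟨σ, hσ⟩ : ∃ σ : ℝ → ℝ, σ = b := ⟨_, rfl⟩
  have hσc : ContDiff ℝ 2 σ := by
    rw [hσ]
    exact b.contDiff
  have hσs : HasCompactSupport σ := by
    rw [hσ]
    exact b.hasCompactSupport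
  have hσd : Differentiable ℝ σ := hσc.differentiable (by norm_num)
  have hσ1c : ContDiff ℝ 1 (deriv σ) := by
    have h : ContDiff ℝ (1 + 1) σ := by
      have e : ((1 : WithTop ℕ∞) + 1) = 2 := by norm_num
      rw [e]
      exact hσc
    exact (contDiff_succ_iff_deriv.1 h).2.2
  have hσ1d : Differentiable ℝ (deriv σ) := hσ1c.differentiable (by norm_num)
  obtain ⟨M1, hM1⟩ : ∃ M1, ∀ x, ‖deriv σ x‖ ≤ M1 :=
    hσs.deriv.exists_bound_of_continuous hσ1c.continuous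
  obtain ⟨M2, hM2⟩ : ∃ M2, ∀ x, ‖deriv (deriv σ) x‖ ≤ M2 :=
    hσs.deriv.deriv.exists_bound_of_continuous (hσ1c.continuous_deriv le_rfl)
  have hM1' : 0 ≤ M1 := (norm_nonneg _).trans (hM1 0)
  have hM2' : 0 ≤ M2 := (norm_nonneg _).trans (hM2 0)
  set M : ℝ := M1 + M2 + M1 ^ 2 + 1 with hM
  have hMpos : 0 < M := by positivity
  have hone : σ 1 = 1 := by
    rw [hσ]
    exact b.one_of_mem_closedBall (Metric.mem_closedBall_self (by norm_num))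
  have hsupp : ∀ C, 0 < σ C → 1 / 2 < C ∧ C < 3 / 2 := by
    intro C hC
    have h1 : C ∈ Function.support b := by
      rw [hσ] at hC
      exact hC.ne'
    rw [b.support_eq, Metric.mem_ball, Real.dist_eq, abs_lt] at h1
    have h2 : b.rOut = 1 / 4 := rfl
    rw [h2] at h1
    constructor <;> linarith [h1.1, h1.2]
  refine ⟨σ, min (1 / 16) (1 / (100 * M)), hσc, hone, by positivity, ?_⟩
  intro al ep G hep hep0 hG hper2 hper1 hp0 hz0 ha0 hbd hb1 hb2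
  have hep1 : ep ≤ 1 / 16 := hep0.trans (min_le_left _ _)
  have hep2 : M * ep ≤ 1 / 100 := by
    have h1 : ep ≤ 1 / (100 * M) := hep0.trans (min_le_right _ _)
    rw [le_div_iff₀ (by positivity)] at h1
    linarith
  have hGd : Differentiable ℝ G := hG.differentiable (by norm_num)
  have hG1 : ContDiff ℝ 1 (fderiv ℝ G) := hG.fderiv_right (by norm_num)
  have hGd2 : Differentiable ℝ (fderiv ℝ G) := hG1.differentiable (by norm_num)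
  have hfirst : ∀ z v : fp_E, fderiv ℝ (fun z : ℝ × ℝ × ℝ × ℝ => G (z.1, z.2.1, z.2.2.1, σ z.2.2.2)) z v =
      fderiv ℝ G (fp_S σ z) (fp_D (deriv σ z.2.2.2) v) := fun z v => fp_first σ hσd G hGd z v
  have hp : ∀ z : fp_E, fderiv ℝ (fun z : ℝ × ℝ × ℝ × ℝ => G (z.1, z.2.1, z.2.2.1, σ z.2.2.2)) z
      (0, 0, 1, 0) = fderiv ℝ G (fp_S σ z) (0, 0, 1, 0) := by
    intro z
    rw [hfirst, fp_D3]
  have hC : ∀ z : fp_E, fderiv ℝ (fun z : ℝ × ℝ × ℝ × ℝ => G (z.1, z.2.1, z.2.2.1, σ z.2.2.2)) z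
      (0, 0, 0, 1) = deriv σ z.2.2.2 * fderiv ℝ G (fp_S σ z) (0, 0, 0, 1) := by
    intro z
    rw [hfirst, fp_D4, map_smul, smul_eq_mul]
  have key1 : M1 * ep ≤ 1 / 100 := by
    refine le_trans ?_ hep2
    apply mul_le_mul_of_nonneg_right _ hep.le
    rw [hM]
    nlinarith [sq_nonneg M1]
  refine ⟨⟨?_, ?_, ?_, ?_, ?_, ?_, ?_, ?_, ?_, ?_⟩, ?_⟩
  · exact hG.comp (by fun_prop)
  · intro t x p C
    exact hper1 t x p (σ C)
  · intro t x p C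
    exact hper2 t x p (σ C)
  · intro t x p C h
    refine ⟨?_, ?_⟩
    · by_contra hlt
      apply h
      apply hp0
      linarith [not_lt.1 hlt]
    · apply hsupp
      by_contra hle
      exact h (ha0 t x p (σ C) (not_lt.1 hle))
  · intro t x C
    exact hz0 t x (σ C)
  · intro z
    exact (hbd _).trans hep1
  · intro z
    rw [hC z, abs_mul]
    refine le_trans ?_ key1
    have h1 := hM1 z.2.2.2
    rw [Real.norm_eq_abs] at h1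
    exact mul_le_mul h1 (fp_b1 G ep hb1 _ _ fp_norm4) (abs_nonneg _) hM1'
  · intro z
    have h1 : (fun z' => fderiv ℝ (fun z : ℝ × ℝ × ℝ × ℝ => G (z.1, z.2.1, z.2.2.1, σ z.2.2.2)) z'
      (0, 0, 1, 0)) = fun z' => fderiv ℝ G (fp_S σ z') (0, 0, 1, 0) := funext hp
    rw [h1, fp_second σ hσd G hGd2, fp_D3]
    refine (fp_b2 G ep hb2 _ _ _ fp_norm3 fp_norm3).trans ?_
    linarith
  · intro z
    have h1 : (fun z' => fderiv ℝ (fun z : ℝ × ℝ × ℝ × ℝ => G (z.1, z.2.1, z.2.2.1, σ z.2.2.2)) z'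
      (0, 0, 1, 0)) = fun z' => fderiv ℝ G (fp_S σ z') (0, 0, 1, 0) := funext hp
    rw [h1, fp_second σ hσd G hGd2, fp_D4, map_smul]
    show |deriv σ z.2.2.2 * fderiv ℝ (fderiv ℝ G) (fp_S σ z) (0, 0, 0, 1) (0, 0, 1, 0)| ≤ 1 / 100
    rw [abs_mul]
    refine le_trans ?_ key1
    have h2 := hM1 z.2.2.2
    rw [Real.norm_eq_abs] at h2
    exact mul_le_mul h2 (fp_b2 G ep hb2 _ _ _ fp_norm4 fp_norm3) (abs_nonneg _) hM1'
  · intro z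
    have h1 : (fun z' => fderiv ℝ (fun z : ℝ × ℝ × ℝ × ℝ => G (z.1, z.2.1, z.2.2.1, σ z.2.2.2)) z'
      (0, 0, 0, 1)) = fun z' => deriv σ z'.2.2.2 * fderiv ℝ G (fp_S σ z') (0, 0, 0, 1) := funext hC
    have h2 : HasFDerivAt (fun z' : fp_E => deriv σ z'.2.2.2)
        (deriv (deriv σ) z.2.2.2 • fp_L4) z := fp_c4 (deriv σ) hσ1d z
    have h3 := h2.mul (fp_second_has σ hσd G hGd2 (0, 0, 0, 1) z)
    have h4 : fderiv ℝ (fun z' : fp_E => deriv σ z'.2.2.2 * fderiv ℝ G (fp_S σ z') (0, 0, 0, 1)) z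
        (0, 0, 0, 1) = deriv σ z.2.2.2 * (fderiv ℝ (fderiv ℝ G) (fp_S σ z)
          (fp_D (deriv σ z.2.2.2) (0, 0, 0, 1)) (0, 0, 0, 1)) +
          fderiv ℝ G (fp_S σ z) (0, 0, 0, 1) * (deriv (deriv σ) z.2.2.2 * 1) := by
      have h5 := h3.fderiv
      have h6 : fderiv ℝ (fun z' : fp_E =>
          deriv σ z'.2.2.2 * fderiv ℝ G (fp_S σ z') (0, 0, 0, 1)) z = _ := h5
      rw [h6]
      rfl
    rw [h1, h4, fp_D4, map_smul]
    show |deriv σ z.2.2.2 * (deriv σ z.2.2.2 *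
      fderiv ℝ (fderiv ℝ G) (fp_S σ z) (0, 0, 0, 1) (0, 0, 0, 1)) +
      fderiv ℝ G (fp_S σ z) (0, 0, 0, 1) * (deriv (deriv σ) z.2.2.2 * 1)| ≤ 1 / 100
    have a1 := hM1 z.2.2.2
    have a2 := hM2 z.2.2.2
    rw [Real.norm_eq_abs] at a1 a2
    have a3 := fp_b2 G ep hb2 (fp_S σ z) _ _ fp_norm4 fp_norm4
    have a4 := fp_b1 G ep hb1 (fp_S σ z) _ fp_norm4
    refine (abs_add_le _ _).trans ?_
    rw [abs_mul, abs_mul, abs_mul, abs_mul, abs_one, mul_one]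
    have b1 : |deriv σ z.2.2.2| * (|deriv σ z.2.2.2| *
        |fderiv ℝ (fderiv ℝ G) (fp_S σ z) (0, 0, 0, 1) (0, 0, 0, 1)|) ≤ M1 * (M1 * ep) :=
      mul_le_mul a1 (mul_le_mul a1 a3 (abs_nonneg _) hM1')
        (mul_nonneg (abs_nonneg _) (abs_nonneg _)) hM1'
    have b2 : |fderiv ℝ G (fp_S σ z) (0, 0, 0, 1)| * |deriv (deriv σ) z.2.2.2| ≤ ep * M2 :=
      mul_le_mul a4 a2 (abs_nonneg _) hep.le
    have b3 : M1 * (M1 * ep) + ep * M2 ≤ M * ep := by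
      rw [hM]
      nlinarith [mul_nonneg hM1' hep.le]
    linarith
  · intro t x
    rw [hp]
    show fderiv ℝ G (t, x, 0, σ 1) (0, 0, 1, 0) = _
    rw [hone]

end J_family_pert
export J_family_pert (family_pert)
end Pool.Agent.Helper785.EN
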