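import Pool.Agent.Helper785.EN.Defs

set_option autoImplicit false
open MeasureTheory

namespace Pool.Agent.Helper785.EN
namespace J_eta_fun



variable {al : ℝ} {G G' : ℝ × ℝ × ℝ × ℝ → ℝ}



/-- trapezoid profile -/
noncomputable def tauEN (t : ℝ) : ℝ := max 0 (min 1 (2 - 2 * |t|))

theorem tauEN_cont : Continuous tauEN := by
  unfold tauEN; fun_prop

theorem tauEN_nonneg (t : ℝ) : 0 ≤ tauEN t := le_max_left _ _

theorem tauEN_le (t : ℝ) : tauEN t ≤ 1 := by
  unfold tauEN
  exact max_le zero_le_one (min_le_left _ _)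

theorem tauEN_zero {t : ℝ} (h : 1 ≤ |t|) : tauEN t = 0 := by
  unfold tauEN
  apply max_eq_left
  exact (min_le_right _ _).trans (by linarith)

theorem tauEN_one {t : ℝ} (h : |t| ≤ 1 / 2) : tauEN t = 1 := by
  unfold tauEN
  rw [min_eq_left (by linarith)]
  norm_num

/-- primitive of the profile -/
noncomputable def AEN (t : ℝ) : ℝ := ∫ s in (-1 : ℝ)..t, tauEN s

theorem AEN_hasDeriv (t : ℝ) : HasDerivAt AEN (tauEN t) t :=
  intervalIntegral.integral_hasDerivAt_right (tauEN_cont.intervalIntegrable _ _)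
    (tauEN_cont.stronglyMeasurableAtFilter _ _) tauEN_cont.continuousAt

theorem AEN_left {t : ℝ} (h : t ≤ -1) : AEN t = 0 := by
  unfold AEN
  rw [intervalIntegral.integral_congr (g := fun _ => (0 : ℝ))]
  · simp
  · intro s hs
    rw [Set.uIcc_of_ge h] at hs
    apply tauEN_zero
    rw [abs_of_nonpos (by linarith [hs.2])]
    linarith [hs.2]

theorem AEN_right {t : ℝ} (h : 1 ≤ t) : AEN t = AEN 1 := by
  unfold AEN
  rw [← intervalIntegral.integral_add_adjacent_intervals (tauEN_cont.intervalIntegrable (-1) 1)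
    (tauEN_cont.intervalIntegrable 1 t)]
  rw [intervalIntegral.integral_congr (a := 1) (b := t) (g := fun _ => (0 : ℝ))]
  · simp
  · intro s hs
    rw [Set.uIcc_of_le h] at hs
    apply tauEN_zero
    rw [abs_of_nonneg (by linarith [hs.1])]
    exact hs.1

/-- one-variable profile functions. -/
theorem eta_fun {R l : ℝ} (hR : 1 ≤ R) (hl : 0 < l) : ∃ η ζ : ℝ → ℝ,
    ContDiff ℝ 1 η ∧ ContDiff ℝ 1 ζ ∧ (∀ t, 2 * R + 1 ≤ |t| → η t = 0) ∧
    (∀ s, 3 * l / 4 ≤ |s| → ζ s = 0) ∧ (∀ t, |t| ≤ 1 / 2 → deriv η t = 1) ∧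
    (∀ t, -(1 / R) ≤ deriv η t) ∧ (∀ s, |s| ≤ l / 2 → ζ s = 1) ∧ ∀ s, 0 ≤ ζ s ∧ ζ s ≤ 1 := by
  have hR0 : 0 < R := by linarith
  have hd : ∀ t, HasDerivAt (fun t => AEN t - AEN ((t - R - 1) / R))
      (tauEN t - tauEN ((t - R - 1) / R) * (1 / R)) t := by
    intro t
    apply (AEN_hasDeriv t).sub
    have h1 : HasDerivAt (fun t : ℝ => (t - R - 1) / R) (1 / R) t := by
      have := (((hasDerivAt_id t).sub_const R).sub_const 1).div_const R
      simpa using this
    exact (AEN_hasDeriv ((t - R - 1) / R)).comp t h1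
  have hder : deriv (fun t => AEN t - AEN ((t - R - 1) / R)) =
      fun t => tauEN t - tauEN ((t - R - 1) / R) * (1 / R) := funext fun t => (hd t).deriv
  have hiR : 0 < 1 / R := by positivity
  let f : ContDiffBump (0 : ℝ) := ⟨l / 2, 3 * l / 4, by positivity, by linarith⟩
  refine ⟨fun t => AEN t - AEN ((t - R - 1) / R), f, ?_, f.contDiff, ?_, ?_, ?_, ?_, ?_, ?_⟩
  · rw [contDiff_one_iff_deriv]
    refine ⟨fun t => (hd t).differentiableAt, ?_⟩
    rw [hder]
    have := tauEN_cont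
    fun_prop
  · intro t ht
    show AEN t - AEN ((t - R - 1) / R) = 0
    rcases le_abs.1 ht with h | h
    · rw [AEN_right (by linarith), AEN_right (t := (t - R - 1) / R) (by rw [le_div_iff₀ hR0]; linarith), sub_self]
    · rw [AEN_left (by linarith), AEN_left (t := (t - R - 1) / R) (by rw [div_le_iff₀ hR0]; linarith), sub_self]
  · intro s hs
    apply f.zero_of_le_dist
    show 3 * l / 4 ≤ dist s 0
    simpa [Real.dist_eq] using hs
  · intro t ht
    rw [hder]
    show tauEN t - tauEN ((t - R - 1) / R) * (1 / R) = 1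
    have h1 : (t - R - 1) / R ≤ -1 := by
      rw [div_le_iff₀ hR0]; linarith [(abs_le.1 ht).2]
    rw [tauEN_one ht, tauEN_zero (t := (t - R - 1) / R) (by rw [abs_of_nonpos (by linarith)]; linarith)]
    ring
  · intro t
    rw [hder]
    show -(1 / R) ≤ tauEN t - tauEN ((t - R - 1) / R) * (1 / R)
    nlinarith [tauEN_nonneg t, tauEN_le ((t - R - 1) / R)]
  · intro s hs
    apply f.one_of_mem_closedBall
    show s ∈ Metric.closedBall (0 : ℝ) (l / 2)
    simpa [Real.dist_eq] using hs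
  · intro s
    exact ⟨f.nonneg, f.le_one⟩

end J_eta_fun
export J_eta_fun (eta_fun)
end Pool.Agent.Helper785.EN
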