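import Pool.Agent.Helper785.EN.Defs

set_option autoImplicit false
open MeasureTheory

namespace Pool.Agent.Helper785.EN
namespace J_per_sum



variable {al : ℝ} {G G' : ℝ × ℝ × ℝ × ℝ → ℝ}



/-- the lattice vectors -/
noncomputable def lvc (al : ℝ) (k : ℤ × ℤ) : ℝ × ℝ := ((k.1 : ℝ), (k.2 : ℝ) - k.1 * al)

theorem lvc_finite (al B : ℝ) : {k : ℤ × ℤ | ‖lvc al k‖ ≤ B}.Finite := by
  have hsub : {k : ℤ × ℤ | ‖lvc al k‖ ≤ B} ⊆
      (Set.Icc (-⌈B⌉) ⌈B⌉) ×ˢ (Set.Icc (-⌈B + B * |al|⌉) ⌈B + B * |al|⌉) := by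
    rintro ⟨a, b⟩ hk
    rw [Set.mem_ofPred_eq] at hk
    have h1 := (norm_fst_le (lvc al (a, b))).trans hk
    have h2 := (norm_snd_le (lvc al (a, b))).trans hk
    simp only [lvc, Real.norm_eq_abs] at h1 h2
    have hc1 := Int.le_ceil B
    have hc2 := Int.le_ceil (B + B * |al|)
    rw [abs_le] at h1
    have h3 : |(a : ℝ) * al| ≤ B * |al| := by
      rw [abs_mul]
      exact mul_le_mul_of_nonneg_right (abs_le.2 h1) (abs_nonneg _)
    rw [abs_le] at h2 h3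
    refine Set.mem_prod.2 ⟨⟨?_, ?_⟩, ⟨?_, ?_⟩⟩
    · have : (-(⌈B⌉ : ℝ)) ≤ (a : ℝ) := by linarith [h1.1]
      exact_mod_cast this
    · have : (a : ℝ) ≤ (⌈B⌉ : ℝ) := by linarith [h1.2]
      exact_mod_cast this
    · have : (-(⌈B + B * |al|⌉ : ℝ)) ≤ (b : ℝ) := by linarith [h2.1, h3.1, h3.2]
      exact_mod_cast this
    · have : (b : ℝ) ≤ (⌈B + B * |al|⌉ : ℝ) := by linarith [h2.2, h3.1, h3.2]
      exact_mod_cast this
  exact ((Set.finite_Icc _ _).prod (Set.finite_Icc _ _)).subset hsub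

/-- periodisation of a compactly supported C¹ function. -/
theorem per_sum {f : ℝ × ℝ → ℝ} (hf : ContDiff ℝ 1 f) (hc : HasCompactSupport f) :
    ∃ φ : ℝ × ℝ → ℝ, ContDiff ℝ 1 φ ∧ Per al φ ∧
      (∀ y v : ℝ × ℝ, fderiv ℝ φ y v
        = ∑' k : ℤ × ℤ, fderiv ℝ f (y + ((k.1 : ℝ), (k.2 : ℝ) - k.1 * al)) v) ∧
      ∀ y : ℝ × ℝ, {k : ℤ × ℤ | y + ((k.1 : ℝ), (k.2 : ℝ) - k.1 * al) ∈ tsupport f}.Finite := by
  obtain ⟨R, hR⟩ := hc.isCompact.isBounded.exists_norm_le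
  have hS : ∀ y0 : ℝ × ℝ, ∃ S : Finset (ℤ × ℤ), ∀ y ∈ Metric.ball y0 1, ∀ k : ℤ × ℤ,
      y + lvc al k ∈ tsupport f → k ∈ S := by
    intro y0
    refine ⟨(lvc_finite al (R + ‖y0‖ + 1)).toFinset, ?_⟩
    intro y hy k hk
    rw [Set.Finite.mem_toFinset, Set.mem_ofPred_eq]
    have h1 := hR _ hk
    have h2 : ‖y‖ ≤ ‖y0‖ + 1 := by
      have h3 : dist y y0 < 1 := hy
      rw [dist_eq_norm] at h3
      have h4 : ‖y‖ ≤ ‖y - y0‖ + ‖y0‖ := by
        have := norm_add_le (y - y0) y0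
        rwa [sub_add_cancel] at this
      linarith
    have h5 : ‖lvc al k‖ ≤ ‖y + lvc al k‖ + ‖y‖ := by
      have := norm_sub_le (y + lvc al k) y
      rwa [add_sub_cancel_left] at this
    linarith
  let φ : ℝ × ℝ → ℝ := fun y => ∑' k : ℤ × ℤ, f (y + lvc al k)
  have hloc : ∀ (y0 : ℝ × ℝ) (S : Finset (ℤ × ℤ)), (∀ y ∈ Metric.ball y0 1, ∀ k : ℤ × ℤ,
      y + lvc al k ∈ tsupport f → k ∈ S) →
      φ =ᶠ[nhds y0] fun y => ∑ k ∈ S, f (y + lvc al k) := by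
    intro y0 S hS
    filter_upwards [Metric.ball_mem_nhds y0 one_pos] with y hy
    refine tsum_eq_sum fun k hk => ?_
    by_contra hne
    exact hk (hS y hy k (subset_tsupport f hne))
  have hdf : Differentiable ℝ f := hf.differentiable one_ne_zero
  refine ⟨φ, ?_, ⟨?_, ?_⟩, ?_, ?_⟩
  · rw [contDiff_iff_contDiffAt]
    intro y0
    obtain ⟨S, hS0⟩ := hS y0
    have h1 : ContDiff ℝ 1 fun y => ∑ k ∈ S, f (y + lvc al k) :=
      ContDiff.sum fun k _ => hf.comp (contDiff_id.add contDiff_const)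
    exact h1.contDiffAt.congr_of_eventuallyEq (hloc y0 S hS0)
  · intro y
    change ∑' k : ℤ × ℤ, f (y + (1, -al) + lvc al k) = ∑' k : ℤ × ℤ, f (y + lvc al k)
    rw [← (Equiv.addRight ((1, 0) : ℤ × ℤ)).tsum_eq fun k => f (y + lvc al k)]
    refine tsum_congr fun k => ?_
    congr 1
    rw [add_assoc]
    congr 1
    simp only [lvc, Equiv.coe_addRight, Prod.mk_add_mk, Prod.fst_add, Prod.snd_add, Prod.mk.injEq]
    push_cast
    constructor <;> ring
  · intro y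
    change ∑' k : ℤ × ℤ, f (y + (0, 1) + lvc al k) = ∑' k : ℤ × ℤ, f (y + lvc al k)
    rw [← (Equiv.addRight ((0, 1) : ℤ × ℤ)).tsum_eq fun k => f (y + lvc al k)]
    refine tsum_congr fun k => ?_
    congr 1
    rw [add_assoc]
    congr 1
    simp only [lvc, Equiv.coe_addRight, Prod.mk_add_mk, Prod.fst_add, Prod.snd_add, Prod.mk.injEq]
    push_cast
    constructor <;> ring
  · intro y v
    obtain ⟨S, hS0⟩ := hS y
    change _ = ∑' k : ℤ × ℤ, fderiv ℝ f (y + lvc al k) v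
    rw [(hloc y S hS0).fderiv_eq]
    have hd : ∀ k ∈ S, DifferentiableAt ℝ (fun y => f (y + lvc al k)) y := fun k _ =>
      (hdf.comp (differentiable_id.add_const (lvc al k))).differentiableAt
    rw [fderiv_fun_sum hd]
    rw [tsum_eq_sum (s := S) fun k hk => ?_]
    · rw [sum_apply]
      refine Finset.sum_congr rfl fun k _ => ?_
      rw [fderiv_comp_add_right]
    · have h1 : y + lvc al k ∉ tsupport f := fun h => hk (hS0 y (Metric.mem_ball_self one_pos) k h)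
      rw [fderiv_of_notMem_tsupport (𝕜 := ℝ) h1]
      rfl
  · intro y
    obtain ⟨S, hS0⟩ := hS y
    refine S.finite_toSet.subset fun k hk => ?_
    exact hS0 y (Metric.mem_ball_self one_pos) k hk

end J_per_sum
export J_per_sum (per_sum)
end Pool.Agent.Helper785.EN
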