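import Pool.Agent.Helper785.EN.Defs
import Pool.Agent.Helper785.EN.P_inv_contDiff
import Pool.Agent.Helper785.EN.P_per_sum
import Pool.Agent.Helper785.EN.P_eta_fun

set_option autoImplicit false
open MeasureTheory

namespace Pool.Agent.Helper785.EN
namespace J_gap_test



variable {al : ℝ} {G G' : ℝ × ℝ × ℝ × ℝ → ℝ}













theorem Xj_18045 {X : ℝ × ℝ → ℝ} (X1 : ∀ t θ : ℝ, X (t, θ + 1) = X (t, θ) + 1) (j : ℤ) (t θ : ℝ) :
    X (t, θ + j) = X (t, θ) + j := by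
  induction j using Int.induction_on with
  | zero => simp
  | succ i ih =>
    have e : θ + (((i : ℤ) + 1 : ℤ) : ℝ) = (θ + ((i : ℤ) : ℝ)) + 1 := by push_cast; ring
    rw [e, X1, ih]
    push_cast
    ring
  | pred i ih =>
    have h := X1 t (θ + ((-(i : ℤ) - 1 : ℤ) : ℝ))
    have e : θ + ((-(i : ℤ) - 1 : ℤ) : ℝ) + 1 = θ + ((-(i : ℤ) : ℤ) : ℝ) := by push_cast; ring
    rw [e, ih] at h
    push_cast at h ⊢
    linarith

theorem Xk_18045 {X : ℝ × ℝ → ℝ} (Xt : ∀ t θ : ℝ, X (t + 1, θ - al) = X (t, θ) - al) (k : ℤ)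
    (t θ : ℝ) : X (t + k, θ - k * al) = X (t, θ) - k * al := by
  induction k using Int.induction_on with
  | zero => simp
  | succ i ih =>
    have e : θ - (((i : ℤ) + 1 : ℤ) : ℝ) * al = (θ - ((i : ℤ) : ℝ) * al) - al := by push_cast; ring
    have e2 : t + (((i : ℤ) + 1 : ℤ) : ℝ) = (t + ((i : ℤ) : ℝ)) + 1 := by push_cast; ring
    rw [e, e2, Xt, ih]
    push_cast
    ring
  | pred i ih =>
    have h := Xt (t + ((-(i : ℤ) - 1 : ℤ) : ℝ)) (θ - ((-(i : ℤ) - 1 : ℤ) : ℝ) * al)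
    have e : θ - ((-(i : ℤ) - 1 : ℤ) : ℝ) * al - al = θ - ((-(i : ℤ) : ℤ) : ℝ) * al := by
      push_cast; ring
    have e2 : t + ((-(i : ℤ) - 1 : ℤ) : ℝ) + 1 = t + ((-(i : ℤ) : ℤ) : ℝ) := by push_cast; ring
    rw [e, e2, ih] at h
    push_cast at h ⊢
    linarith

theorem Xkj_18045 {X : ℝ × ℝ → ℝ} (X1 : ∀ t θ : ℝ, X (t, θ + 1) = X (t, θ) + 1)
    (Xt : ∀ t θ : ℝ, X (t + 1, θ - al) = X (t, θ) - al) (k j : ℤ) (t θ : ℝ) :
    X (t + k, θ + (j - k * al)) = X (t, θ) + (j - k * al) := by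
  have e : θ + ((j : ℝ) - k * al) = (θ + j) - k * al := by ring
  rw [e, Xk_18045 Xt, Xj_18045 X1]
  ring

theorem Wkj_18045 {W : ℝ × ℝ → ℝ} (hW : Per al W) (k j : ℤ) (t θ : ℝ) :
    W (t + k, θ + (j - k * al)) = W (t, θ) := by
  have h2 : ∀ (j : ℤ) (t θ : ℝ), W (t, θ + j) = W (t, θ) := by
    intro j t θ
    have hh : ∀ t θ : ℝ, W (t, θ + 1) = W (t, θ) := fun t θ => by
      have := hW.2 (t, θ)
      rw [Prod.mk_add_mk, add_zero] at this
      exact this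
    induction j using Int.induction_on with
    | zero => simp
    | succ i ih =>
      have e : θ + (((i : ℤ) + 1 : ℤ) : ℝ) = (θ + ((i : ℤ) : ℝ)) + 1 := by push_cast; ring
      rw [e, hh, ih]
    | pred i ih =>
      have h := hh t (θ + ((-(i : ℤ) - 1 : ℤ) : ℝ))
      have e : θ + ((-(i : ℤ) - 1 : ℤ) : ℝ) + 1 = θ + ((-(i : ℤ) : ℤ) : ℝ) := by push_cast; ring
      rw [e, ih] at h
      exact h.symm
  have h1 : ∀ (k : ℤ) (t θ : ℝ), W (t + k, θ - k * al) = W (t, θ) := by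
    intro k t θ
    have hh : ∀ t θ : ℝ, W (t + 1, θ - al) = W (t, θ) := fun t θ => by
      have := hW.1 (t, θ)
      rw [Prod.mk_add_mk, ← sub_eq_add_neg] at this
      exact this
    induction k using Int.induction_on with
    | zero => simp
    | succ i ih =>
      have e : θ - (((i : ℤ) + 1 : ℤ) : ℝ) * al = (θ - ((i : ℤ) : ℝ) * al) - al := by push_cast; ring
      have e2 : t + (((i : ℤ) + 1 : ℤ) : ℝ) = (t + ((i : ℤ) : ℝ)) + 1 := by push_cast; ring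
      rw [e, e2, hh, ih]
    | pred i ih =>
      have h := hh (t + ((-(i : ℤ) - 1 : ℤ) : ℝ)) (θ - ((-(i : ℤ) - 1 : ℤ) : ℝ) * al)
      have e : θ - ((-(i : ℤ) - 1 : ℤ) : ℝ) * al - al = θ - ((-(i : ℤ) : ℤ) : ℝ) * al := by
        push_cast; ring
      have e2 : t + ((-(i : ℤ) - 1 : ℤ) : ℝ) + 1 = t + ((-(i : ℤ) : ℤ) : ℝ) := by push_cast; ring
      rw [e, e2, ih] at h
      exact h.symm
  have e : θ + ((j : ℝ) - k * al) = (θ + j) - k * al := by ring
  rw [e, h1, h2]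

theorem abs_le_iff_18045 {a b : ℝ} : |a| ≤ b ↔ a ∈ Set.Icc (-b) b := abs_le

/-- the inverse of `(t, θ) ↦ (t, X (t, θ))` -/
theorem inv_18045 {X : ℝ × ℝ → ℝ} (sX : ContDiff ℝ 2 X)
    (X1 : ∀ t θ : ℝ, X (t, θ + 1) = X (t, θ) + 1)
    (mono : ∀ y, 0 < fderiv ℝ X y (0, 1)) : ∃ g : ℝ × ℝ → ℝ × ℝ, ContDiff ℝ 1 g ∧
      (∀ z : ℝ × ℝ, g (z.1, X z) = z) ∧ ∀ y : ℝ × ℝ, (g y).1 = y.1 ∧ X (g y) = y.2 := by
  have hdX : Differentiable ℝ X := sX.differentiable (by norm_num)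
  have hmono : ∀ t, StrictMono fun θ => X (t, θ) := by
    intro t
    apply strictMono_of_deriv_pos
    intro θ
    have h1 : HasDerivAt (fun s : ℝ => ((t, s) : ℝ × ℝ)) ((0, 1) : ℝ × ℝ) θ :=
      (hasDerivAt_const θ t).prodMk (hasDerivAt_id θ)
    have h2 := (hdX (t, θ)).hasFDerivAt.comp_hasDerivAt θ h1
    have h3 : deriv (fun θ => X (t, θ)) θ = fderiv ℝ X (t, θ) (0, 1) := h2.deriv
    rw [h3]
    exact mono _
  have hsurj : ∀ t x, ∃ θ, X (t, θ) = x := by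
    intro t x
    have hc : Continuous fun θ => X (t, θ) := sX.continuous.comp (by fun_prop)
    refine mem_range_of_exists_le_of_exists_ge hc ?_ ?_
    · refine ⟨0 + ((-⌈X (t, 0) - x⌉ : ℤ) : ℝ), ?_⟩
      show X (t, 0 + ((-⌈X (t, 0) - x⌉ : ℤ) : ℝ)) ≤ x
      rw [Xj_18045 X1]
      push_cast
      have := Int.le_ceil (X (t, 0) - x)
      linarith
    · refine ⟨0 + ((⌈x - X (t, 0)⌉ : ℤ) : ℝ), ?_⟩
      show x ≤ X (t, 0 + ((⌈x - X (t, 0)⌉ : ℤ) : ℝ))
      rw [Xj_18045 X1]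
      have := Int.le_ceil (x - X (t, 0))
      linarith
  choose S hS using hsurj
  have hg1 : ∀ z : ℝ × ℝ, ((z.1, S z.1 (X z)) : ℝ × ℝ) = z := by
    rintro ⟨t, θ⟩
    have : S t (X (t, θ)) = θ := (hmono t).injective (hS t (X (t, θ)))
    show (t, S t (X (t, θ))) = (t, θ)
    rw [this]
  have hg2 : ∀ y : ℝ × ℝ, ((y.1, X (y.1, S y.1 y.2)) : ℝ × ℝ) = y := by
    rintro ⟨t, x⟩
    show (t, X (t, S t x)) = (t, x)
    rw [hS]
  have hfd : ∀ z : ℝ × ℝ, HasFDerivAt (fun z : ℝ × ℝ => ((z.1, X z) : ℝ × ℝ))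
      ((ContinuousLinearMap.fst ℝ ℝ ℝ).prod (fderiv ℝ X z)) z := fun z =>
    hasFDerivAt_fst.prodMk (hdX z).hasFDerivAt
  have hcd : ContDiff ℝ ((1 : ℕ) : WithTop ℕ∞) (fun z : ℝ × ℝ => ((z.1, X z) : ℝ × ℝ)) := by
    have : ContDiff ℝ 1 (fun z : ℝ × ℝ => ((z.1, X z) : ℝ × ℝ)) :=
      contDiff_fst.prodMk (sX.of_le (by norm_num))
    exact_mod_cast this
  have hcg := inv_contDiff (E := ℝ × ℝ) (F := ℝ × ℝ) (n := 1) le_rfl
    (f := fun z : ℝ × ℝ => ((z.1, X z) : ℝ × ℝ)) (g := fun y : ℝ × ℝ => (y.1, S y.1 y.2)) hcd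
    (fun z => hg1 z) (fun y => hg2 y) (fun z => by
      have hinj : Function.Injective
          (((ContinuousLinearMap.fst ℝ ℝ ℝ).prod (fderiv ℝ X z) : ℝ × ℝ →L[ℝ] ℝ × ℝ) :
            ℝ × ℝ →ₗ[ℝ] ℝ × ℝ) := by
        rw [← LinearMap.ker_eq_bot, LinearMap.ker_eq_bot']
        rintro ⟨a, b⟩ h
        have h1 : (a, fderiv ℝ X z (a, b)) = ((0, 0) : ℝ × ℝ) := h
        obtain ⟨ha, hb⟩ := Prod.mk.inj h1
        subst ha
        have h2 : ((0, b) : ℝ × ℝ) = b • ((0, 1) : ℝ × ℝ) := by simp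
        rw [h2, map_smul, smul_eq_mul] at hb
        rcases mul_eq_zero.1 hb with hb | hb
        · rw [hb]; rfl
        · exact absurd hb (mono z).ne'
      refine ⟨(LinearEquiv.ofInjectiveEndo _ hinj).toContinuousLinearEquiv, ?_⟩
      rw [(hfd z).fderiv]
      ext <;> rfl)
  refine ⟨fun y => (y.1, S y.1 y.2), ?_, fun z => hg1 z, fun y => ⟨rfl, hS _ _⟩⟩
  exact_mod_cast hcg

/-- the gap test function from a wandering strip. -/
theorem gap_test {W : ℝ × ℝ → ℝ} (hW : Per al W) {T l ρ R : ℝ} {X : ℝ × ℝ → ℝ}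
    (sX : ContDiff ℝ 2 X)
    (X1 : ∀ t θ : ℝ, X (t, θ + 1) = X (t, θ) + 1)
    (Xt : ∀ t θ : ℝ, X (t + 1, θ - al) = X (t, θ) - al)
    (mono : ∀ y, 0 < fderiv ℝ X y (0, 1))
    (disj : ∀ k j : ℤ, ∀ t θ : ℝ, |t| < T → |θ| < l → |t + k| < T → |θ + (j - k * al)| < l →
      k = 0 ∧ j = 0)
    (flow : ∀ t θ : ℝ, |t| < T → |θ| < l → fderiv ℝ X (t, θ) (1, 0) = W (t, X (t, θ)))
    (core : ∀ t θ : ℝ, |t| ≤ 1 / 2 → |X (t, θ)| ≤ ρ → |θ| ≤ l / 2)
    (hR : 1 ≤ R) (hT : 2 * R + 1 < T) (hl : 0 < l) :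
    ∃ φ : ℝ × ℝ → ℝ, ContDiff ℝ 1 φ ∧ Per al φ ∧
      ∀ y, {y : ℝ × ℝ | ∃ k j : ℤ, |y.1 + k| < 1 / 2 ∧ |y.2 + (j - k * al)| < ρ}.indicator 1 y
        - 1 / R ≤ fderiv ℝ φ y (1, W y) := by
  classical
  obtain ⟨g, hgc, hg1, hg2⟩ := inv_18045 sX X1 mono
  have hdX : Differentiable ℝ X := sX.differentiable (by norm_num)
  obtain ⟨η, ζ, hη, hζ, hη0, hζ0, hη1, hηR, hζ1, hζb⟩ := eta_fun hR hl
  -- the profile on the strip
  have hf : ContDiff ℝ 1 (fun z : ℝ × ℝ => η z.1 * ζ z.2) :=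
    (hη.comp contDiff_fst).mul (hζ.comp contDiff_snd)
  have hsub : tsupport (fun z : ℝ × ℝ => η z.1 * ζ z.2) ⊆
      Set.Icc (-(2 * R + 1)) (2 * R + 1) ×ˢ Set.Icc (-(3 * l / 4)) (3 * l / 4) := by
    refine closure_minimal ?_ (isClosed_Icc.prod isClosed_Icc)
    rintro ⟨t, s⟩ h
    have h' : η t * ζ s ≠ 0 := h
    refine ⟨?_, ?_⟩
    · show t ∈ Set.Icc _ _
      rw [← abs_le_iff_18045]
      by_contra hcon
      exact h' (by rw [hη0 t (not_le.1 hcon).le, zero_mul])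
    · show s ∈ Set.Icc _ _
      rw [← abs_le_iff_18045]
      by_contra hcon
      exact h' (by rw [hζ0 s (not_le.1 hcon).le, mul_zero])
  have hcs : HasCompactSupport (fun z : ℝ × ℝ => η z.1 * ζ z.2) :=
    (isCompact_Icc.prod isCompact_Icc).of_isClosed_subset (isClosed_tsupport _) hsub
  have hfd : ∀ z : ℝ × ℝ, fderiv ℝ (fun z : ℝ × ℝ => η z.1 * ζ z.2) z (1, 0) =
      deriv η z.1 * ζ z.2 := by
    intro z
    have h1 : HasFDerivAt (fun z : ℝ × ℝ => η z.1)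
        ((ContinuousLinearMap.toSpanSingleton ℝ (deriv η z.1)).comp (ContinuousLinearMap.fst ℝ ℝ ℝ)) z :=
      (((hη.differentiable one_ne_zero) z.1).hasDerivAt.hasFDerivAt).comp z hasFDerivAt_fst
    have h2 : HasFDerivAt (fun z : ℝ × ℝ => ζ z.2)
        ((ContinuousLinearMap.toSpanSingleton ℝ (deriv ζ z.2)).comp (ContinuousLinearMap.snd ℝ ℝ ℝ)) z :=
      (((hζ.differentiable one_ne_zero) z.2).hasDerivAt.hasFDerivAt).comp z hasFDerivAt_snd
    have h3 : fderiv ℝ (fun z : ℝ × ℝ => η z.1 * ζ z.2) z = _ := (h1.mul h2).fderiv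
    rw [h3]
    simp
    ring
  -- outside the open strip the derivative of the profile vanishes
  have hfz : ∀ z : ℝ × ℝ, ¬ (|z.1| < T ∧ |z.2| < l) →
      fderiv ℝ (fun z : ℝ × ℝ => η z.1 * ζ z.2) z = 0 := by
    intro z hz
    apply fderiv_of_notMem_tsupport
    intro hmem
    have h1 := hsub hmem
    apply hz
    constructor
    · have : |z.1| ≤ 2 * R + 1 := abs_le.2 h1.1
      linarith
    · have : |z.2| ≤ 3 * l / 4 := abs_le.2 h1.2
      linarith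
  obtain ⟨Ψ, hΨc, hΨp, hΨd, -⟩ := per_sum (al := al) hf hcs
  have hgeq : ∀ v : ℝ × ℝ, (∀ z : ℝ × ℝ, X (z + v) = X z + v.2) → ∀ y, g (y + v) = g y + v := by
    intro v hv y
    have h1 := hg1 (g y + v)
    rw [hv (g y), (hg2 y).2] at h1
    have h2 : (g y + v).1 = y.1 + v.1 := by rw [Prod.fst_add, (hg2 y).1]
    rw [h2] at h1
    exact h1
  have hg3 : ∀ y : ℝ × ℝ, g (y + (1, -al)) = g y + (1, -al) := hgeq _ (by
    rintro ⟨t, θ⟩
    rw [Prod.mk_add_mk, ← sub_eq_add_neg, Xt, ← sub_eq_add_neg])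
  have hg4 : ∀ y : ℝ × ℝ, g (y + (0, 1)) = g y + (0, 1) := hgeq _ (by
    rintro ⟨t, θ⟩
    rw [Prod.mk_add_mk, add_zero, X1])
  refine ⟨fun y => Ψ (g y), hΨc.comp hgc, ⟨fun y => ?_, fun y => ?_⟩, fun y => ?_⟩
  · show Ψ (g (y + (1, -al))) = Ψ (g y)
    rw [hg3, hΨp.1]
  · show Ψ (g (y + (0, 1))) = Ψ (g y)
    rw [hg4, hΨp.2]
  have hΨdiff : Differentiable ℝ Ψ := hΨc.differentiable one_ne_zero
  have hgdiff : Differentiable ℝ g := hgc.differentiable one_ne_zero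
  -- a translate in the indicator set lies in the strip
  have hcore : ∀ k j : ℤ, |y.1 + k| < 1 / 2 → |y.2 + (j - k * al)| < ρ →
      |(g y).1 + k| ≤ 1 / 2 ∧ |(g y).2 + (j - k * al)| ≤ l / 2 := by
    intro k j h1 h2
    have e1 : (g y).1 = y.1 := (hg2 y).1
    have e2 : X ((g y).1 + k, (g y).2 + (j - k * al)) = y.2 + (j - k * al) := by
      rw [Xkj_18045 X1 Xt, Prod.mk.eta, (hg2 y).2]
    rw [e1]
    refine ⟨h1.le, ?_⟩
    have := core ((g y).1 + k) ((g y).2 + (j - k * al)) (by rw [e1]; exact h1.le)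
      (by rw [e2]; exact h2.le)
    exact this
  by_cases hA : ∃ k j : ℤ, |(g y).1 + k| < T ∧ |(g y).2 + (j - k * al)| < l
  · obtain ⟨k, j, hk, hj⟩ := hA
    -- the flow equation at `g y`
    have hfl : fderiv ℝ X (g y) (1, 0) = W y := by
      have h1 := flow ((g y).1 + k) ((g y).2 + (j - k * al)) hk hj
      rw [Xkj_18045 X1 Xt, Wkj_18045 hW] at h1
      have h2 : fderiv ℝ X ((g y).1 + k, (g y).2 + (j - k * al)) = fderiv ℝ X (g y) := by
        have e : X = fun z : ℝ × ℝ => X (z + ((k : ℝ), (j : ℝ) - k * al)) - (j - k * al) := by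
          funext z
          obtain ⟨t, θ⟩ := z
          rw [Prod.mk_add_mk, Xkj_18045 X1 Xt]
          ring
        have h3 : fderiv ℝ X (g y) =
            fderiv ℝ (fun z : ℝ × ℝ => X (z + ((k : ℝ), (j : ℝ) - k * al)) - (j - k * al)) (g y) := by
          rw [← e]
        rw [h3, fderiv_sub_const, fderiv_comp_add_right]
        rfl
      rw [h2] at h1
      have e1 : ((g y).1, X ((g y).1, (g y).2)) = y := by
        rw [Prod.mk.eta, (hg2 y).2, (hg2 y).1]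
      rw [e1] at h1
      exact h1
    -- the derivative of the test function
    have hder : fderiv ℝ (fun y => Ψ (g y)) y (1, W y) = fderiv ℝ Ψ (g y) (1, 0) := by
      have hΦ : HasFDerivAt (fun z : ℝ × ℝ => ((z.1, X z) : ℝ × ℝ))
        ((ContinuousLinearMap.fst ℝ ℝ ℝ).prod (fderiv ℝ X (g y))) (g y) :=
        hasFDerivAt_fst.prodMk (hdX _).hasFDerivAt
      have e1 : ((g y).1, X (g y)) = y := by rw [(hg2 y).2, (hg2 y).1]
      have hφ : HasFDerivAt (fun y => Ψ (g y)) (fderiv ℝ (fun y => Ψ (g y)) y) ((g y).1, X (g y)) := by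
        rw [e1]
        exact ((hΨdiff.comp hgdiff) y).hasFDerivAt
      have h1 := hφ.comp (g y) hΦ
      have h2 : (fun y => Ψ (g y)) ∘ (fun z : ℝ × ℝ => ((z.1, X z) : ℝ × ℝ)) = Ψ := by
        funext z
        show Ψ (g (z.1, X z)) = Ψ z
        rw [hg1]
      rw [h2] at h1
      rw [h1.fderiv]
      show _ = fderiv ℝ (fun y => Ψ (g y)) y
        (((ContinuousLinearMap.fst ℝ ℝ ℝ).prod (fderiv ℝ X (g y))) (1, 0))
      have h3 : (((ContinuousLinearMap.fst ℝ ℝ ℝ).prod (fderiv ℝ X (g y))) ((1, 0) : ℝ × ℝ)) =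
          ((1 : ℝ), fderiv ℝ X (g y) (1, 0)) := rfl
      rw [h3, hfl]
    have hsum : fderiv ℝ Ψ (g y) (1, 0) =
        deriv η ((g y).1 + k) * ζ ((g y).2 + (j - k * al)) := by
      rw [hΨd (g y) (1, 0), tsum_eq_single ((k, j) : ℤ × ℤ)]
      · rw [hfd]
        rfl
      · rintro ⟨k', j'⟩ hne
        rw [hfz]
        · rfl
        · rintro ⟨h1, h2⟩
          apply hne
          have h1' : |(g y).1 + (k' : ℝ)| < T := h1
          have h2' : |(g y).2 + ((j' : ℝ) - k' * al)| < l := h2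
          have hd := disj (k' - k) (j' - j) ((g y).1 + k) ((g y).2 + (j - k * al)) hk hj
            (by
              have e : (g y).1 + (k : ℝ) + ((k' - k : ℤ) : ℝ) = (g y).1 + k' := by push_cast; ring
              rw [e]; exact h1')
            (by
              have e : (g y).2 + ((j : ℝ) - k * al) + (((j' - j : ℤ) : ℝ) - ((k' - k : ℤ) : ℝ) * al) =
                (g y).2 + (j' - k' * al) := by push_cast; ring
              rw [e]; exact h2')
          have e1 : k' = k := by linarith [hd.1]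
          have e2 : j' = j := by linarith [hd.2]
          rw [e1, e2]
    rw [hder]
    have hRinv : 0 < 1 / R := by positivity
    by_cases hy : y ∈ {y : ℝ × ℝ | ∃ k j : ℤ, |y.1 + k| < 1 / 2 ∧ |y.2 + (j - k * al)| < ρ}
    · rw [Set.indicator_of_mem hy]
      obtain ⟨k', j', h1, h2⟩ := hy
      obtain ⟨c1, c2⟩ := hcore k' j' h1 h2
      have hd := disj (k' - k) (j' - j) ((g y).1 + k) ((g y).2 + (j - k * al)) hk hj
        (by
          have e : (g y).1 + (k : ℝ) + ((k' - k : ℤ) : ℝ) = (g y).1 + k' := by push_cast; ring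
          rw [e]
          have : (1 : ℝ) / 2 < T := by linarith
          linarith)
        (by
          have e : (g y).2 + ((j : ℝ) - k * al) + (((j' - j : ℤ) : ℝ) - ((k' - k : ℤ) : ℝ) * al) =
            (g y).2 + (j' - k' * al) := by push_cast; ring
          rw [e]
          linarith)
      have e1 : k' = k := by linarith [hd.1]
      have e2 : j' = j := by linarith [hd.2]
      subst e1
      subst e2
      rw [hsum, hη1 _ c1, hζ1 _ c2]
      show (1 : ℝ) - 1 / R ≤ 1 * 1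
      linarith
    · rw [Set.indicator_of_notMem hy, hsum]
      have h1 := hηR ((g y).1 + k)
      have h2 := hζb ((g y).2 + (j - k * al))
      nlinarith [mul_nonneg (sub_nonneg.2 h1) h2.1, mul_nonneg hRinv.le (sub_nonneg.2 h2.2)]
  · have hnot : y ∉ {y : ℝ × ℝ | ∃ k j : ℤ, |y.1 + k| < 1 / 2 ∧ |y.2 + (j - k * al)| < ρ} := by
      rintro ⟨k, j, h1, h2⟩
      obtain ⟨c1, c2⟩ := hcore k j h1 h2
      exact hA ⟨k, j, by linarith, by linarith⟩
    have hz : fderiv ℝ Ψ (g y) = 0 := by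
      ext v
      · rw [ContinuousLinearMap.comp_apply, hΨd]
        have : ∀ k : ℤ × ℤ, fderiv ℝ (fun z : ℝ × ℝ => η z.1 * ζ z.2)
            (g y + ((k.1 : ℝ), (k.2 : ℝ) - k.1 * al)) = 0 := fun k =>
          hfz _ fun h => hA ⟨k.1, k.2, h.1, h.2⟩
        simp [this]
      · rw [ContinuousLinearMap.comp_apply, hΨd]
        have : ∀ k : ℤ × ℤ, fderiv ℝ (fun z : ℝ × ℝ => η z.1 * ζ z.2)
            (g y + ((k.1 : ℝ), (k.2 : ℝ) - k.1 * al)) = 0 := fun k =>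
          hfz _ fun h => hA ⟨k.1, k.2, h.1, h.2⟩
        simp [this]
    have hz2 : fderiv ℝ (fun y => Ψ (g y)) y = 0 := by
      have h1 : HasFDerivAt (fun y => Ψ (g y)) ((fderiv ℝ Ψ (g y)).comp (fderiv ℝ g y)) y :=
        (hΨdiff (g y)).hasFDerivAt.comp y (hgdiff y).hasFDerivAt
      rw [h1.fderiv, hz, ContinuousLinearMap.zero_comp]
    rw [hz2, Set.indicator_of_notMem hnot]
    show (0 : ℝ) - 1 / R ≤ 0
    have hRinv : 0 < 1 / R := by positivity
    linarith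

end J_gap_test
export J_gap_test (gap_test)
end Pool.Agent.Helper785.EN
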