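import Pool.Agent.Helper930.FF.Defs
import Pool.Agent.Helper785.EN.Main
import Pool.Agent.Helper785.EN.P_family_pert
import Pool.Agent.Helper785.EN.P_gap_test

set_option autoImplicit false
open MeasureTheory

namespace Pool.Agent.Helper785.EN

/-- a canonical triple of `H930.FF` is a `Triple`. -/
theorem triple_of {al ep a : ℝ} {G : ℝ × ℝ × ℝ × ℝ → ℝ} {X P F : ℝ × ℝ × ℝ → ℝ}
    (hc : H930.FF.Canon (H930.FF.sl G a) X P F) (he : H930.FF.Equi al X P F)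
    (hp : ∀ z, 0 < fderiv ℝ X z (0, 1, 0))
    (hm : ∀ z : ℝ × ℝ × ℝ, P z = z.2.2 ∨ (|z.2.2| ≤ ep ∧ |P z| ≤ ep)) (h : ep ≤ 1 / 4) :
    Triple al (H930.FF.sl G a) X P F where
  sX := hc.X2
  sP := hc.P2
  sF := hc.F2
  canon := hc.rel
  pos := hp
  X1 := he.Xt
  X2 := he.X1
  P1 := he.Pt
  P2 := he.P1
  F1 := he.Ft
  F2 := he.F1
  mom := fun t s c hc => by
    rcases hm (t, s, c) with h1 | ⟨_, h1⟩
    · rw [h1]; exact hc
    · exact h1.trans h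

theorem fderiv_per {E F : Type*} [NormedAddCommGroup E] [NormedSpace ℝ E]
    [NormedAddCommGroup F] [NormedSpace ℝ F] {f : E → F} {v : E} (h : ∀ x, f (x + v) = f x) (x : E) :
    fderiv ℝ f (x + v) = fderiv ℝ f x := by
  rw [← fderiv_comp_add_right v]
  congr 1
  funext x; exact h x

/-- ENERGY module of the construction. -/
theorem energy_thm : H930.FF.EnergyThm := by
  obtain ⟨sig, e0, hsig, hs1, he0, hfam⟩ := family_pert
  refine ⟨min e0 (1 / 4), lt_min he0 (by norm_num), ?_⟩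
  intro al ep G Gs hep hle hK
  have hle1 : ep ≤ e0 := hle.trans (min_le_left _ _)
  have hle2 : ep ≤ 1 / 4 := hle.trans (min_le_right _ _)
  have key : ∀ G' : ℝ × ℝ × ℝ × ℝ → ℝ, H930.FF.GBase al ep G' →
      Pert al (fun z => G' (z.1, z.2.1, z.2.2.1, sig z.2.2.2)) ∧
      ∀ t x : ℝ, fderiv ℝ (fun z : ℝ × ℝ × ℝ × ℝ => G' (z.1, z.2.1, z.2.2.1, sig z.2.2.2))
        (t, x, 0, 1) (0, 0, 1, 0) = fderiv ℝ G' (t, x, 0, 1) (0, 0, 1, 0) := fun G' hb =>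
    hfam al ep G' hep hle1 hb.C2 hb.per.G1 hb.per.Gt hb.supp hb.zero hb.a0 hb.s0 hb.s1 hb.s2
  obtain ⟨ρ, hρ, hg⟩ := hK.gap
  have hfin : ∀ ε > 0, ∃ G', Pert al G' ∧
      (∀ z : ℝ × ℝ × ℝ × ℝ, |G (z.1, z.2.1, z.2.2.1, sig z.2.2.2) - G' z| ≤ ε) ∧
      ∀ E : ℝ, ∃ X P F, Triple al (fun z => G' (z.1, z.2.1, z.2.2, E)) X P F := by
    intro ε hε
    obtain ⟨M, hM⟩ := hK.unif ε hε
    refine ⟨_, (key (Gs M) (hK.bases M)).1, fun z => ?_, fun E => ?_⟩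
    · rw [abs_sub_comm]; exact hM _
    · obtain ⟨X, P, F, h1, h2, h3, h4⟩ := hK.triple M (sig E)
      exact ⟨X, P, F, triple_of h1 h2 h3 h4 hle2⟩
  set U : Set (ℝ × ℝ) := {y : ℝ × ℝ | ∃ k j : ℤ, |y.1 + k| < 1 / 2 ∧ |y.2 + (j - k * al)| < ρ}
    with hUdef
  have hU : IsOpen U := by
    have e : U = ⋃ k : ℤ, ⋃ j : ℤ, ({y : ℝ × ℝ | |y.1 + k| < 1 / 2} ∩
        {y : ℝ × ℝ | |y.2 + (j - k * al)| < ρ}) := by
      ext y; simp [hUdef]
    rw [e]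
    exact isOpen_iUnion fun k => isOpen_iUnion fun j =>
      (isOpen_lt (by fun_prop) continuous_const).inter (isOpen_lt (by fun_prop) continuous_const)
  have hne : U.Nonempty := ⟨(0, 0), 0, 0, by norm_num, by simpa using hρ⟩
  have hUp : ∀ y, (y + (1, -al) ∈ U ↔ y ∈ U) ∧ (y + (0, 1) ∈ U ↔ y ∈ U) := by
    rintro ⟨t, x⟩
    refine ⟨⟨?_, ?_⟩, ⟨?_, ?_⟩⟩
    · rintro ⟨k, j, h1, h2⟩
      refine ⟨k + 1, j, ?_, ?_⟩
      · rw [show ((t, x) : ℝ × ℝ).1 + ((k + 1 : ℤ) : ℝ) = ((t, x) + ((1 : ℝ), -al)).1 + k by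
          push_cast; simp; ring]
        exact h1
      · rw [show ((t, x) : ℝ × ℝ).2 + ((j : ℝ) - ((k + 1 : ℤ) : ℝ) * al)
          = ((t, x) + ((1 : ℝ), -al)).2 + (j - k * al) by push_cast; simp; ring]
        exact h2
    · rintro ⟨k, j, h1, h2⟩
      refine ⟨k - 1, j, ?_, ?_⟩
      · rw [show ((t, x) + ((1 : ℝ), -al)).1 + ((k - 1 : ℤ) : ℝ) = ((t, x) : ℝ × ℝ).1 + (k : ℝ) by
          push_cast; simp]
        exact h1
      · rw [show ((t, x) + ((1 : ℝ), -al)).2 + ((j : ℝ) - ((k - 1 : ℤ) : ℝ) * al)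
          = ((t, x) : ℝ × ℝ).2 + (j - k * al) by push_cast; simp; ring]
        exact h2
    · rintro ⟨k, j, h1, h2⟩
      refine ⟨k, j + 1, ?_, ?_⟩
      · rw [show ((t, x) : ℝ × ℝ).1 + (k : ℝ) = ((t, x) + ((0 : ℝ), (1 : ℝ))).1 + k by simp]
        exact h1
      · rw [show ((t, x) : ℝ × ℝ).2 + (((j + 1 : ℤ) : ℝ) - (k : ℝ) * al)
          = ((t, x) + ((0 : ℝ), (1 : ℝ))).2 + (j - k * al) by push_cast; simp; ring]
        exact h2
    · rintro ⟨k, j, h1, h2⟩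
      refine ⟨k, j - 1, ?_, ?_⟩
      · rw [show ((t, x) + ((0 : ℝ), (1 : ℝ))).1 + (k : ℝ) = ((t, x) : ℝ × ℝ).1 + (k : ℝ) by simp]
        exact h1
      · rw [show ((t, x) + ((0 : ℝ), (1 : ℝ))).2 + (((j - 1 : ℤ) : ℝ) - (k : ℝ) * al)
          = ((t, x) : ℝ × ℝ).2 + (j - k * al) by push_cast; simp; ring]
        exact h2
  have hW : Per al (fun y : ℝ × ℝ => fderiv ℝ G (y.1, y.2, 0, 1) (0, 0, 1, 0)) := by
    constructor
    · rintro ⟨t, x⟩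
      have h := fderiv_per (f := G) (v := ((1 : ℝ), -al, (0 : ℝ), (0 : ℝ)))
        (fun z => by
          have := hK.base.per.Gt z.1 z.2.1 z.2.2.1 z.2.2.2
          rw [← this]; congr 1; ext <;> simp [sub_eq_add_neg]) (t, x, 0, 1)
      have e : ((t, x, 0, 1) : ℝ × ℝ × ℝ × ℝ) + ((1 : ℝ), -al, (0 : ℝ), (0 : ℝ))
        = (((t, x) + ((1 : ℝ), -al)).1, ((t, x) + ((1 : ℝ), -al)).2, 0, 1) := by ext <;> simp
      rw [e] at h
      simp only [h]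
    · rintro ⟨t, x⟩
      have h := fderiv_per (f := G) (v := ((0 : ℝ), (1 : ℝ), (0 : ℝ), (0 : ℝ)))
        (fun z => by
          have := hK.base.per.G1 z.1 z.2.1 z.2.2.1 z.2.2.2
          rw [← this]; congr 1; ext <;> simp) (t, x, 0, 1)
      have e : ((t, x, 0, 1) : ℝ × ℝ × ℝ × ℝ) + ((0 : ℝ), (1 : ℝ), (0 : ℝ), (0 : ℝ))
        = (((t, x) + ((0 : ℝ), (1 : ℝ))).1, ((t, x) + ((0 : ℝ), (1 : ℝ))).2, 0, 1) := by
        ext <;> simp
      rw [e] at h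
      simp only [h]
  have hgap : ∀ ε > 0, ∃ φ : ℝ × ℝ → ℝ, ContDiff ℝ 1 φ ∧ Per al φ ∧
      ∀ y, U.indicator 1 y - ε ≤ fderiv ℝ φ y (1,
        fderiv ℝ (fun z : ℝ × ℝ × ℝ × ℝ => G (z.1, z.2.1, z.2.2.1, sig z.2.2.2))
          (y.1, y.2, 0, 1) (0, 0, 1, 0)) := by
    intro ε hε
    set R : ℝ := max 1 (1 / ε) with hR
    have hR1 : 1 ≤ R := le_max_left _ _
    have hR2 : 1 / R ≤ ε := by
      rw [div_le_iff₀ (by linarith)]
      have : 1 / ε ≤ R := le_max_right _ _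
      rw [div_le_iff₀ hε] at this
      linarith
    obtain ⟨n, hn⟩ := exists_nat_gt (2 * R + 1)
    obtain ⟨T, hT, l, hl, X, hS⟩ := hg n
    obtain ⟨φ, hφ, pφ, h⟩ := gap_test (W := fun y : ℝ × ℝ => fderiv ℝ G (y.1, y.2, 0, 1) (0, 0, 1, 0))
      hW hS.C2 hS.X1 hS.Xt hS.mono hS.disj hS.flow hS.core hR1 (lt_of_lt_of_le hn hT) hl
    refine ⟨φ, hφ, pφ, fun y => ?_⟩
    rw [(key G hK.base).2]
    have := h y
    linarith
  exact energy_main (key G hK.base).1 hfin hU hne hUp hgap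

end Pool.Agent.Helper785.EN

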