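import Pool.Agent.Helper785.EN.Defs

set_option autoImplicit false
open MeasureTheory

namespace Pool.Agent.Helper785.EN
namespace J_triple_flow



variable {al : ℝ} {G G' : ℝ × ℝ × ℝ × ℝ → ℝ}



theorem triple_flow_snd {f : ℝ × ℝ × ℝ → ℝ} (hf : ContDiff ℝ 2 f) (z v : ℝ × ℝ × ℝ) :
    HasFDerivAt (fun y => fderiv ℝ f y v)
      ((ContinuousLinearMap.apply ℝ ℝ v).comp (fderiv ℝ (fderiv ℝ f) z)) z := by
  have h1 : ContDiff ℝ 1 (fderiv ℝ f) := hf.fderiv_right (by norm_num)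
  have h2 : HasFDerivAt (fderiv ℝ f) (fderiv ℝ (fderiv ℝ f) z) z :=
    (h1.differentiable (by norm_num)).differentiableAt.hasFDerivAt
  exact (ContinuousLinearMap.apply ℝ ℝ v).hasFDerivAt.comp z h2

theorem triple_flow_symm {f : ℝ × ℝ × ℝ → ℝ} (hf : ContDiff ℝ 2 f) (z v w : ℝ × ℝ × ℝ) :
    fderiv ℝ (fderiv ℝ f) z v w = fderiv ℝ (fderiv ℝ f) z w v := by
  have h := (hf.contDiffAt (x := z)).isSymmSndFDerivAt (by simp)
  exact h v w

/-- the derivative of the canonical identity -/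
theorem triple_flow_eq {g : ℝ × ℝ × ℝ → ℝ} (hg : ContDiff ℝ 2 g) {X P F : ℝ × ℝ × ℝ → ℝ}
    (h : Triple al g X P F) (z v w : ℝ × ℝ × ℝ) :
    fderiv ℝ (fderiv ℝ F) z w v =
      P z * fderiv ℝ (fderiv ℝ X) z w v + fderiv ℝ P z w * fderiv ℝ X z v
      - (P z * fderiv ℝ P z w
          + fderiv ℝ g (z.1, X z, P z) (w.1, fderiv ℝ X z w, fderiv ℝ P z w)) * v.1
      - w.2.2 * v.2.1 + z.2.2 * w.2.2 * v.1 := by
  have hP : HasFDerivAt P (fderiv ℝ P z) z :=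
    (h.sP.differentiable (by norm_num)).differentiableAt.hasFDerivAt
  have hX : HasFDerivAt X (fderiv ℝ X z) z :=
    (h.sX.differentiable (by norm_num)).differentiableAt.hasFDerivAt
  have hG : HasFDerivAt g (fderiv ℝ g (z.1, X z, P z)) (z.1, X z, P z) :=
    (hg.differentiable (by norm_num)).differentiableAt.hasFDerivAt
  have h1 : HasFDerivAt (fun y : ℝ × ℝ × ℝ => y.1) (ContinuousLinearMap.fst ℝ ℝ (ℝ × ℝ)) z :=
    hasFDerivAt_fst
  have hz2 : HasFDerivAt (fun y : ℝ × ℝ × ℝ => y.2.2)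
      ((ContinuousLinearMap.snd ℝ ℝ ℝ).comp (ContinuousLinearMap.snd ℝ ℝ (ℝ × ℝ))) z :=
    ((ContinuousLinearMap.snd ℝ ℝ ℝ).comp (ContinuousLinearMap.snd ℝ ℝ (ℝ × ℝ))).hasFDerivAt
  have hprod : HasFDerivAt (fun y : ℝ × ℝ × ℝ => (y.1, X y, P y))
      ((ContinuousLinearMap.fst ℝ ℝ (ℝ × ℝ)).prod ((fderiv ℝ X z).prod (fderiv ℝ P z))) z :=
    h1.prodMk (hX.prodMk hP)
  have hg2 : HasFDerivAt (fun y : ℝ × ℝ × ℝ => g (y.1, X y, P y))
      ((fderiv ℝ g (z.1, X z, P z)).comp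
        ((ContinuousLinearMap.fst ℝ ℝ (ℝ × ℝ)).prod ((fderiv ℝ X z).prod (fderiv ℝ P z)))) z :=
    HasFDerivAt.comp z hG hprod
  have hXX := triple_flow_snd h.sX z v
  have hFF := triple_flow_snd h.sF z v
  have hfun : (fun y => fderiv ℝ F y v) = fun y : ℝ × ℝ × ℝ =>
      P y * fderiv ℝ X y v - ((P y * P y) * (1 / 2) + g (y.1, X y, P y)) * v.1
        - y.2.2 * v.2.1 + (y.2.2 * y.2.2) * (1 / 2 * v.1) := by
    funext y
    have := h.canon y v
    linear_combination -this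
  rw [hfun] at hFF
  have hall := (((hP.mul hXX).sub ((((hP.mul hP).mul_const (1 / 2 : ℝ)).add hg2).mul_const v.1)).sub
    (hz2.mul_const v.2.1)).add ((hz2.mul hz2).mul_const (1 / 2 * v.1))
  have huniq := hFF.unique hall
  have hw := congrArg (fun T : (ℝ × ℝ × ℝ) →L[ℝ] ℝ => T w) huniq
  simp only [_root_.add_apply, _root_.sub_apply,
    _root_.smul_apply, ContinuousLinearMap.comp_apply,
    ContinuousLinearMap.apply_apply, ContinuousLinearMap.coe_fst', ContinuousLinearMap.coe_snd',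
    ContinuousLinearMap.prod_apply, smul_eq_mul] at hw
  rw [hw]
  ring

/-- transport equation of a canonical triple. -/
theorem triple_flow {g : ℝ × ℝ × ℝ → ℝ} (hg : ContDiff ℝ 2 g) {X P F : ℝ × ℝ × ℝ → ℝ}
    (h : Triple al g X P F) (t s c : ℝ) :
    fderiv ℝ X (t, s, c) (1, c, 0)
      = P (t, s, c) + fderiv ℝ g (t, X (t, s, c), P (t, s, c)) (0, 0, 1) := by
  have key : ∀ v w : ℝ × ℝ × ℝ, fderiv ℝ P (t, s, c) w * fderiv ℝ X (t, s, c) v
      - (P (t, s, c) * fderiv ℝ P (t, s, c) w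
          + fderiv ℝ g (t, X (t, s, c), P (t, s, c)) (w.1, fderiv ℝ X (t, s, c) w, fderiv ℝ P (t, s, c) w)) * v.1
      - w.2.2 * v.2.1 + c * w.2.2 * v.1 =
      fderiv ℝ P (t, s, c) v * fderiv ℝ X (t, s, c) w
      - (P (t, s, c) * fderiv ℝ P (t, s, c) v
          + fderiv ℝ g (t, X (t, s, c), P (t, s, c)) (v.1, fderiv ℝ X (t, s, c) v, fderiv ℝ P (t, s, c) v)) * w.1
      - v.2.2 * w.2.1 + c * v.2.2 * w.1 := by
    intro v w
    have e1 := triple_flow_eq hg h (t, s, c) v w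
    have e2 := triple_flow_eq hg h (t, s, c) w v
    have e3 := triple_flow_symm h.sF (t, s, c) v w
    have e4 := triple_flow_symm h.sX (t, s, c) v w
    simp only at e1 e2
    rw [e3] at e2
    rw [e2] at e1
    rw [e4] at e1
    linear_combination -e1
  have hlin : ∀ a b d : ℝ, fderiv ℝ g (t, X (t, s, c), P (t, s, c)) (a, b, d) =
      a * fderiv ℝ g (t, X (t, s, c), P (t, s, c)) (1, 0, 0)
      + b * fderiv ℝ g (t, X (t, s, c), P (t, s, c)) (0, 1, 0)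
      + d * fderiv ℝ g (t, X (t, s, c), P (t, s, c)) (0, 0, 1) := by
    intro a b d
    have : ((a, b, d) : ℝ × ℝ × ℝ) = a • (1, 0, 0) + b • (0, 1, 0) + d • (0, 0, 1) := by
      simp
    rw [this, map_add, map_add, map_smul, map_smul, map_smul]
    simp
  have key2 : ∀ v w : ℝ × ℝ × ℝ, fderiv ℝ P (t, s, c) w * fderiv ℝ X (t, s, c) v
      - (P (t, s, c) * fderiv ℝ P (t, s, c) w
          + (w.1 * fderiv ℝ g (t, X (t, s, c), P (t, s, c)) (1, 0, 0)
      + fderiv ℝ X (t, s, c) w * fderiv ℝ g (t, X (t, s, c), P (t, s, c)) (0, 1, 0)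
      + fderiv ℝ P (t, s, c) w * fderiv ℝ g (t, X (t, s, c), P (t, s, c)) (0, 0, 1))) * v.1
      - w.2.2 * v.2.1 + c * w.2.2 * v.1 =
      fderiv ℝ P (t, s, c) v * fderiv ℝ X (t, s, c) w
      - (P (t, s, c) * fderiv ℝ P (t, s, c) v
          + (v.1 * fderiv ℝ g (t, X (t, s, c), P (t, s, c)) (1, 0, 0)
      + fderiv ℝ X (t, s, c) v * fderiv ℝ g (t, X (t, s, c), P (t, s, c)) (0, 1, 0)
      + fderiv ℝ P (t, s, c) v * fderiv ℝ g (t, X (t, s, c), P (t, s, c)) (0, 0, 1))) * w.1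
      - v.2.2 * w.2.1 + c * v.2.2 * w.1 := by
    intro v w
    rw [← hlin, ← hlin]
    exact key v w
  have k1 := key2 (0, 1, 0) (0, 0, 1)
  have k2 := key2 (1, 0, 0) (0, 1, 0)
  have k3 := key2 (1, 0, 0) (0, 0, 1)
  simp only at k1 k2 k3
  have hX : fderiv ℝ X (t, s, c) (1, c, 0) =
      fderiv ℝ X (t, s, c) (1, 0, 0) + c * fderiv ℝ X (t, s, c) (0, 1, 0) := by
    have : ((1, c, 0) : ℝ × ℝ × ℝ) = (1, 0, 0) + c • (0, 1, 0) := by simp
    rw [this, map_add, map_smul]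
    simp
  rw [hX]
  set Xt := fderiv ℝ X (t, s, c) (1, 0, 0)
  set Xs := fderiv ℝ X (t, s, c) (0, 1, 0)
  set Xc := fderiv ℝ X (t, s, c) (0, 0, 1)
  set Pt := fderiv ℝ P (t, s, c) (1, 0, 0)
  set Ps := fderiv ℝ P (t, s, c) (0, 1, 0)
  set Pc := fderiv ℝ P (t, s, c) (0, 0, 1)
  set gt := fderiv ℝ g (t, X (t, s, c), P (t, s, c)) (1, 0, 0)
  set gx := fderiv ℝ g (t, X (t, s, c), P (t, s, c)) (0, 1, 0)
  set gp := fderiv ℝ g (t, X (t, s, c), P (t, s, c)) (0, 0, 1)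
  set P0 := P (t, s, c)
  have j1 : Pc * Xs - Ps * Xc = 1 := by linear_combination k1
  have j2 : Ps * (Xt - P0 - gp) - Xs * (Pt + gx) = 0 := by linear_combination k2
  have j3 : Pc * (Xt - P0 - gp) - Xc * (Pt + gx) + c = 0 := by linear_combination k3
  linear_combination Xs * j3 - Xc * j2 - (Xt - P0 - gp) * j1

end J_triple_flow
export J_triple_flow (triple_flow)
end Pool.Agent.Helper785.EN
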