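import Pool.Agent.Helper785.EN.Defs
import Pool.Agent.Helper785.EN.P_inv_contDiff

set_option autoImplicit false
open MeasureTheory

namespace Pool.Agent.Helper785.EN
namespace J_triple_u



variable {al : ℝ} {G G' : ℝ × ℝ × ℝ × ℝ → ℝ}






/-- generating function of a leaf of a canonical triple. -/
theorem triple_u {g : ℝ × ℝ × ℝ → ℝ} (hg : ContDiff ℝ 2 g) {X P F : ℝ × ℝ × ℝ → ℝ}
    (h : Triple al g X P F) (c : ℝ) :
    ∃ u : ℝ × ℝ → ℝ, ContDiff ℝ 1 u ∧ Per al u ∧
      (∀ t x : ℝ, ∃ s : ℝ, X (t, s, c) = x) ∧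
      ∀ t s a b : ℝ, fderiv ℝ u (t, X (t, s, c)) (a, b)
        = (c ^ 2 / 2 - P (t, s, c) ^ 2 / 2 - g (t, X (t, s, c), P (t, s, c))) * a
          + (P (t, s, c) - c) * b := by
  have hXd : ∀ z, HasFDerivAt X (fderiv ℝ X z) z := fun z =>
    ((h.sX.differentiable (by norm_num)) z).hasFDerivAt
  have hFd : ∀ z, HasFDerivAt F (fderiv ℝ F z) z := fun z =>
    ((h.sF.differentiable (by norm_num)) z).hasFDerivAt
  -- monotone in s
  have hder : ∀ t s, HasDerivAt (fun s => X (t, s, c)) (fderiv ℝ X (t, s, c) (0, 1, 0)) s := by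
    intro t s
    have h1 : HasDerivAt (fun s : ℝ => ((t, s, c) : ℝ × ℝ × ℝ)) (0, 1, 0) s :=
      (hasDerivAt_const s t).prodMk ((hasDerivAt_id s).prodMk (hasDerivAt_const s c))
    exact (hXd (t, s, c)).comp_hasDerivAt s h1
  have hmono : ∀ t, StrictMono (fun s => X (t, s, c)) := by
    intro t
    refine strictMono_of_deriv_pos fun s => ?_
    rw [(hder t s).deriv]
    exact h.pos _
  have hcts : ∀ t, Continuous (fun s => X (t, s, c)) := fun t =>
    h.sX.continuous.comp (by fun_prop)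
  have hnat : ∀ (t s : ℝ) (n : ℕ), X (t, s + n, c) = X (t, s, c) + n := by
    intro t s n
    induction n with
    | zero => simp
    | succ n ih =>
      have := h.X2 t (s + n) c
      rw [ih] at this
      push_cast
      rw [← add_assoc, this]
      ring
  have hsurj : ∀ t x : ℝ, ∃ s : ℝ, X (t, s, c) = x := by
    intro t x
    obtain ⟨n, hn⟩ := exists_nat_ge (x - X (t, 0, c))
    obtain ⟨m, hm⟩ := exists_nat_ge (X (t, 0, c) - x)
    have h1 := hnat t 0 n
    have h2 := hnat t (-(m : ℝ)) m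
    rw [neg_add_cancel] at h2
    rw [zero_add] at h1
    have hmn : (-(m : ℝ)) ≤ n := by
      have a1 : (0 : ℝ) ≤ m := Nat.cast_nonneg m
      have a2 : (0 : ℝ) ≤ n := Nat.cast_nonneg n
      linarith
    have := intermediate_value_Icc hmn (hcts t).continuousOn
    obtain ⟨s, _, hs⟩ := this (show x ∈ Set.Icc (X (t, -(m : ℝ), c)) (X (t, (n : ℝ), c)) from
      ⟨by linarith, by linarith⟩)
    exact ⟨s, hs⟩
  choose S' hS' using hsurj
  have hS'' : ∀ t s, S' t (X (t, s, c)) = s := fun t s =>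
    (hmono t).injective (hS' t (X (t, s, c)))
  let Φ : ℝ × ℝ → ℝ × ℝ := fun z => (z.1, X (z.1, z.2, c))
  let Ψ : ℝ × ℝ → ℝ × ℝ := fun z => (z.1, S' z.1 z.2)
  have hiota : ContDiff ℝ 2 (fun z : ℝ × ℝ => ((z.1, z.2, c) : ℝ × ℝ × ℝ)) :=
    contDiff_fst.prodMk (contDiff_snd.prodMk contDiff_const)
  have hfc : ContDiff ℝ 2 (fun z : ℝ × ℝ => X (z.1, z.2, c)) := h.sX.comp hiota
  have hΦ : ContDiff ℝ 2 Φ := contDiff_fst.prodMk hfc
  have hfd : ∀ z : ℝ × ℝ, HasFDerivAt (fun z : ℝ × ℝ => X (z.1, z.2, c))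
      ((fderiv ℝ X (z.1, z.2, c)).comp
        ((ContinuousLinearMap.fst ℝ ℝ ℝ).prod
          ((ContinuousLinearMap.snd ℝ ℝ ℝ).prod 0))) z := by
    intro z
    refine (hXd (z.1, z.2, c)).comp z ?_
    exact hasFDerivAt_fst.prodMk (hasFDerivAt_snd.prodMk (hasFDerivAt_const c z))
  have hΦd : ∀ z : ℝ × ℝ, HasFDerivAt Φ ((ContinuousLinearMap.fst ℝ ℝ ℝ).prod
      ((fderiv ℝ X (z.1, z.2, c)).comp
        ((ContinuousLinearMap.fst ℝ ℝ ℝ).prod
          ((ContinuousLinearMap.snd ℝ ℝ ℝ).prod 0)))) z := fun z =>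
    hasFDerivAt_fst.prodMk (hfd z)
  have hΨ : ContDiff ℝ ((2 : ℕ) : WithTop ℕ∞) Ψ := by
    refine inv_contDiff (f := Φ) (n := 2) (by norm_num) (by exact_mod_cast hΦ) ?_ ?_ ?_
    · intro z
      simp only [Φ, Ψ, hS'']
    · intro z
      simp only [Φ, Ψ, hS']
    · intro z
      have hinj : Function.Injective ((fderiv ℝ Φ z).toLinearMap) := by
        rw [injective_iff_map_eq_zero]
        intro v hv
        rw [(hΦd z).fderiv] at hv
        have e1 := congrArg Prod.fst hv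
        have e2 := congrArg Prod.snd hv
        simp only [ContinuousLinearMap.coe_coe, ContinuousLinearMap.prod_apply,
          ContinuousLinearMap.comp_apply, ContinuousLinearMap.coe_fst',
          ContinuousLinearMap.coe_snd', Prod.fst_zero, Prod.snd_zero,
          ContinuousLinearMap.zero_apply] at e1 e2
        have e3 : ((v.1, v.2, 0) : ℝ × ℝ × ℝ) = v.2 • ((0, 1, 0) : ℝ × ℝ × ℝ) := by
          rw [e1]; simp
        rw [e3, map_smul, smul_eq_mul] at e2
        rcases mul_eq_zero.mp e2 with e4 | e4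
        · exact Prod.ext e1 e4
        · exact absurd e4 (h.pos _).ne'
      refine ⟨(LinearEquiv.ofInjectiveEndo _ hinj).toContinuousLinearEquiv, ?_⟩
      ext v <;> rfl
  have hS : ContDiff ℝ 2 (fun z : ℝ × ℝ => S' z.1 z.2) :=
    contDiff_snd.comp (by exact_mod_cast hΨ : ContDiff ℝ 2 Ψ)
  have hSal : ∀ t x, S' (t + 1) (x - al) = S' t x - al := by
    intro t x
    apply (hmono (t + 1)).injective
    simp only
    rw [hS', h.X1, hS']
  have hS1 : ∀ t x, S' t (x + 1) = S' t x + 1 := by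
    intro t x
    apply (hmono t).injective
    simp only
    rw [hS', h.X2, hS']
  let u : ℝ × ℝ → ℝ := fun y => c * (S' y.1 y.2 - y.2) + F (y.1, S' y.1 y.2, c)
  have hSd : ∀ y : ℝ × ℝ, HasFDerivAt (fun z : ℝ × ℝ => S' z.1 z.2)
      (fderiv ℝ (fun z : ℝ × ℝ => S' z.1 z.2) y) y := fun y =>
    ((hS.differentiable (by norm_num)) y).hasFDerivAt
  refine ⟨u, ?_, ⟨?_, ?_⟩, fun t x => ⟨S' t x, hS' t x⟩, ?_⟩
  · have h1 : ContDiff ℝ 2 u :=
      (contDiff_const.mul (hS.sub contDiff_snd)).add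
        (h.sF.comp (contDiff_fst.prodMk (hS.prodMk contDiff_const)))
    exact h1.of_le (by norm_num)
  · rintro ⟨t, x⟩
    have e1 := hSal t x
    have e2 : x + -al = x - al := by ring
    simp only [u, Prod.mk_add_mk, e2, e1, h.F1]
    ring
  · rintro ⟨t, x⟩
    have e1 := hS1 t x
    simp only [u, Prod.mk_add_mk, add_zero, e1, h.F2]
    ring
  · intro t s a b
    set y : ℝ × ℝ := (t, X (t, s, c)) with hy
    have hSy : S' y.1 y.2 = s := hS'' t s
    set dS := fderiv ℝ (fun z : ℝ × ℝ => S' z.1 z.2) y with hdS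
    have hι : HasFDerivAt (fun z : ℝ × ℝ => ((z.1, S' z.1 z.2, c) : ℝ × ℝ × ℝ))
        ((ContinuousLinearMap.fst ℝ ℝ ℝ).prod (dS.prod 0)) y :=
      hasFDerivAt_fst.prodMk ((hSd y).prodMk (hasFDerivAt_const c y))
    have hιy : ((y.1, S' y.1 y.2, c) : ℝ × ℝ × ℝ) = (t, s, c) := by rw [hSy]
    have hXι : HasFDerivAt (fun z : ℝ × ℝ => X (z.1, S' z.1 z.2, c))
        ((fderiv ℝ X (t, s, c)).comp ((ContinuousLinearMap.fst ℝ ℝ ℝ).prod (dS.prod 0))) y := by
      have := (hXd (y.1, S' y.1 y.2, c)).comp y hι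
      rw [hιy] at this
      exact this
    have hFι : HasFDerivAt (fun z : ℝ × ℝ => F (z.1, S' z.1 z.2, c))
        ((fderiv ℝ F (t, s, c)).comp ((ContinuousLinearMap.fst ℝ ℝ ℝ).prod (dS.prod 0))) y := by
      have := (hFd (y.1, S' y.1 y.2, c)).comp y hι
      rw [hιy] at this
      exact this
    have hXs : (fun z : ℝ × ℝ => X (z.1, S' z.1 z.2, c)) = fun z => z.2 := by
      funext z
      exact hS' z.1 z.2
    have hb : fderiv ℝ X (t, s, c) (a, dS (a, b), 0) = b := by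
      rw [hXs] at hXι
      have := congrArg (fun L : ℝ × ℝ →L[ℝ] ℝ => L (a, b)) (hXι.unique hasFDerivAt_snd)
      simpa using this
    have hu : HasFDerivAt u (c • (dS - ContinuousLinearMap.snd ℝ ℝ ℝ) +
        (fderiv ℝ F (t, s, c)).comp ((ContinuousLinearMap.fst ℝ ℝ ℝ).prod (dS.prod 0))) y :=
      (((hSd y).sub hasFDerivAt_snd).const_mul c).add hFι
    rw [hu.fderiv]
    have hc := h.canon (t, s, c) (a, dS (a, b), 0)
    rw [hb] at hc
    simp only at hc
    have e : (c • (dS - ContinuousLinearMap.snd ℝ ℝ ℝ) +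
        (fderiv ℝ F (t, s, c)).comp ((ContinuousLinearMap.fst ℝ ℝ ℝ).prod (dS.prod 0))) (a, b)
        = c * (dS (a, b) - b) + fderiv ℝ F (t, s, c) (a, dS (a, b), 0) := by
      simp
    rw [e]
    linarith

end J_triple_u
export J_triple_u (triple_u)
end Pool.Agent.Helper785.EN
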