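import Pool.Agent.Helper785.EN.Defs
import Pool.Agent.Helper785.EN.P_energy_close
import Pool.Agent.Helper785.EN.P_grad_Hof
import Pool.Agent.Helper785.EN.P_triple_u
import Pool.Agent.Helper785.EN.P_triple_flow

set_option autoImplicit false
open MeasureTheory

namespace Pool.Agent.Helper785.EN
namespace J_calib_main



variable {al : ℝ} {G G' : ℝ × ℝ × ℝ × ℝ → ℝ}
















/-- calibration data from a canonical triple. -/
theorem calib_main (hG : Pert al G) {C : (ℝ × ℝ) × (ℝ × ℝ) → ℝ} (sC : ContDiff ℝ 2 C)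
    (hC : IsEnergy G C) (c : ℝ × ℝ)
    (h1 : |c.2| ≤ 1 / 4) (h2 : 1 / 2 ≤ c.1 + c.2 ^ 2 / 2)
    (hT : ∃ X P F, Triple al (fun z => G (z.1, z.2.1, z.2.2, c.1 + c.2 ^ 2 / 2)) X P F) :
    ∃ u Y w V e, Calib al (Hof C) c (H0 c) u Y w V e := by
  obtain ⟨c1, c2⟩ := c
  simp only at h1 h2 hT
  obtain ⟨X, P, F, hT⟩ := hT
  have hGd : Differentiable ℝ G := hG.smooth.differentiable (by norm_num)
  have hGs := hG.smooth
  set E : ℝ := c1 + c2 ^ 2 / 2 with hE
  have hg : ContDiff ℝ 2 (fun z : ℝ × ℝ × ℝ => G (z.1, z.2.1, z.2.2, E)) := by fun_prop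
  obtain ⟨u, hu, pu, hsurj, hfu⟩ := triple_u hg hT c2
  have hflow := fun t s => triple_flow hg hT t s c2
  simp only at hfu hflow
  have hmom : ∀ t s, |P (t, s, c2)| ≤ 1 / 4 := fun t s => hT.mom t s c2 h1
  have hGbd : ∀ z, |G z| ≤ 1 / 16 := hG.bd
  have hsX : ContDiff ℝ 2 X := hT.sX
  have hsP : ContDiff ℝ 2 P := hT.sP
  -- p as function of (t,s)
  have hut : ∀ t s, fderiv ℝ u (t, X (t, s, c2)) (1, 0)
      = c2 ^ 2 / 2 - P (t, s, c2) ^ 2 / 2 - G (t, X (t, s, c2), P (t, s, c2), E) := by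
    intro t s
    rw [hfu t s 1 0]; ring
  have hux : ∀ t s, fderiv ℝ u (t, X (t, s, c2)) (0, 1) = P (t, s, c2) - c2 := by
    intro t s
    rw [hfu t s 0 1]; ring
  have hp1 : ∀ t s, 0 < c1 + fderiv ℝ u (t, X (t, s, c2)) (1, 0) := by
    intro t s
    rw [hut t s]
    have a1 := hmom t s
    have a2 := hGbd (t, X (t, s, c2), P (t, s, c2), E)
    have a3 : P (t, s, c2) ^ 2 ≤ 1 / 16 := by
      have := abs_le.1 a1
      nlinarith [this.1, this.2]
    have a4 := abs_le.1 a2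
    nlinarith [a4.1, a4.2]
  have hCE : ∀ t s, C ((t, X (t, s, c2)), (c1 + fderiv ℝ u (t, X (t, s, c2)) (1, 0),
      c2 + fderiv ℝ u (t, X (t, s, c2)) (0, 1))) = E := by
    intro t s
    have e1 := hC ((t, X (t, s, c2)), (c1 + fderiv ℝ u (t, X (t, s, c2)) (1, 0),
      c2 + fderiv ℝ u (t, X (t, s, c2)) (0, 1)))
    simp only at e1
    have e2 : c2 + fderiv ℝ u (t, X (t, s, c2)) (0, 1) = P (t, s, c2) := by rw [hux t s]; ring
    set K := C ((t, X (t, s, c2)), (c1 + fderiv ℝ u (t, X (t, s, c2)) (1, 0),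
      c2 + fderiv ℝ u (t, X (t, s, c2)) (0, 1))) with hK
    rw [e2, hut t s] at e1
    have e3 : K = (E - G (t, X (t, s, c2), P (t, s, c2), E)) +
        G (t, X (t, s, c2), P (t, s, c2), K) := by
      rw [hE] at e1 ⊢
      linarith [e1]
    have e4 : E = (E - G (t, X (t, s, c2), P (t, s, c2), E)) +
        G (t, X (t, s, c2), P (t, s, c2), E) := by ring
    have e5 := energy_close (G := G) (G' := G) hG (ε := 0) (by intro z; simp) e3 e4
    have e6 : |K - E| ≤ 0 := by simpa using e5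
    have e7 : K - E = 0 := by
      have := abs_nonneg (K - E)
      exact abs_eq_zero.1 (le_antisymm e6 this)
    linarith
  have hc1 : 0 < c1 := by
    have a3 : c2 ^ 2 ≤ 1 / 16 := by
      have := abs_le.1 h1
      nlinarith [this.1, this.2]
    linarith
  have hth : ∀ r : ℝ, 0 < r → th r = 0 := by
    intro r hr
    unfold th
    rw [max_eq_right (by linarith)]
    norm_num
  have hw0 : ∀ z, 0 < 1 - fderiv ℝ G z (0, 0, 0, 1) := by
    intro z
    have := abs_le.1 (hG.bC z)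
    linarith [this.2]
  have hfc : Continuous (fun z => fderiv ℝ G z) := hGs.continuous_fderiv (by norm_num)
  have hcont : Continuous (fun s : ℝ × ℝ => (s.1, X (s.1, s.2, c2), P (s.1, s.2, c2), E)) := by
    have a := hsX.continuous
    have b := hsP.continuous
    fun_prop
  -- periodicity of the derivative
  have hper1 : ∀ t x p D, fderiv ℝ G (t + 1, x - al, p, D) = fderiv ℝ G (t, x, p, D) := by
    intro t x p D
    have e1 : (fun z : ℝ × ℝ × ℝ × ℝ => G (z + (1, -al, 0, 0))) = G := by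
      funext z
      obtain ⟨a, b, d, e⟩ := z
      have := hG.per1 a b d e
      simpa [sub_eq_add_neg] using this
    have e2 := fderiv_comp_add_right (𝕜 := ℝ) (f := G) (x := (t, x, p, D)) ((1, -al, 0, 0) : ℝ × ℝ × ℝ × ℝ)
    rw [e1] at e2
    rw [e2]
    congr 1
    simp [sub_eq_add_neg]
  have hper2 : ∀ t x p D, fderiv ℝ G (t, x + 1, p, D) = fderiv ℝ G (t, x, p, D) := by
    intro t x p D
    have e1 : (fun z : ℝ × ℝ × ℝ × ℝ => G (z + (0, 1, 0, 0))) = G := by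
      funext z
      obtain ⟨a, b, d, e⟩ := z
      have := hG.per2 a b d e
      simpa using this
    have e2 := fderiv_comp_add_right (𝕜 := ℝ) (f := G) (x := (t, x, p, D)) ((0, 1, 0, 0) : ℝ × ℝ × ℝ × ℝ)
    rw [e1] at e2
    rw [e2]
    congr 1
    simp
  have hS1 : ∀ s : ℝ × ℝ, fderiv ℝ G ((s + (1, -al)).1, X ((s + (1, -al)).1, (s + (1, -al)).2, c2),
      P ((s + (1, -al)).1, (s + (1, -al)).2, c2), E) =
      fderiv ℝ G (s.1, X (s.1, s.2, c2), P (s.1, s.2, c2), E) := by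
    intro s
    have e1 : (s + (1, -al)).1 = s.1 + 1 := rfl
    have e2 : (s + (1, -al)).2 = s.2 - al := by simp [sub_eq_add_neg]
    rw [e1, e2, hT.X1, hT.P1, hper1]
  have hS2 : ∀ s : ℝ × ℝ, fderiv ℝ G ((s + (0, 1)).1, X ((s + (0, 1)).1, (s + (0, 1)).2, c2),
      P ((s + (0, 1)).1, (s + (0, 1)).2, c2), E) =
      fderiv ℝ G (s.1, X (s.1, s.2, c2), P (s.1, s.2, c2), E) := by
    intro s
    have e1 : (s + (0, 1)).1 = s.1 := by simp
    have e2 : (s + (0, 1)).2 = s.2 + 1 := rfl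
    rw [e1, e2, hT.X2, hT.P2, hper2]
  have hPS1 : ∀ s : ℝ × ℝ, P ((s + (1, -al)).1, (s + (1, -al)).2, c2) = P (s.1, s.2, c2) := by
    intro s
    have e1 : (s + (1, -al)).1 = s.1 + 1 := rfl
    have e2 : (s + (1, -al)).2 = s.2 - al := by simp [sub_eq_add_neg]
    rw [e1, e2, hT.P1]
  have hPS2 : ∀ s : ℝ × ℝ, P ((s + (0, 1)).1, (s + (0, 1)).2, c2) = P (s.1, s.2, c2) := by
    intro s
    have e1 : (s + (0, 1)).1 = s.1 := by simp
    have e2 : (s + (0, 1)).2 = s.2 + 1 := rfl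
    rw [e1, e2, hT.P2]
  set w : ℝ × ℝ → ℝ := fun s => 1 - fderiv ℝ G (s.1, X (s.1, s.2, c2), P (s.1, s.2, c2), E) (0, 0, 0, 1)
    with hw
  set V : ℝ × ℝ → ℝ × ℝ := fun s => (Real.exp E / w s, Real.exp E / w s *
    (P (s.1, s.2, c2) + fderiv ℝ G (s.1, X (s.1, s.2, c2), P (s.1, s.2, c2), E) (0, 0, 1, 0))) with hV
  have hwc : Continuous w := by
    have a : Continuous (fun s : ℝ × ℝ => fderiv ℝ G (s.1, X (s.1, s.2, c2), P (s.1, s.2, c2), E)) :=
      hfc.comp hcont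
    exact continuous_const.sub (a.clm_apply continuous_const)
  have hwp : ∀ s, 0 < w s := fun s => hw0 _
  have hVc : Continuous V := by
    have a : Continuous (fun s : ℝ × ℝ => fderiv ℝ G (s.1, X (s.1, s.2, c2), P (s.1, s.2, c2), E)) :=
      hfc.comp hcont
    have b : Continuous (fun s : ℝ × ℝ => P (s.1, s.2, c2)) := by
      have := hsP.continuous
      fun_prop
    have d : Continuous (fun s : ℝ × ℝ => Real.exp E / w s) :=
      continuous_const.div hwc (fun s => (hwp s).ne')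
    exact d.prodMk (d.mul (b.add (a.clm_apply continuous_const)))
  refine ⟨u, fun s => (s.1, X (s.1, s.2, c2)), w, V, (Real.exp E, Real.exp E * c2), ?_⟩
  constructor
  · exact hu
  · exact pu
  · rintro ⟨t, x⟩
    obtain ⟨s, rfl⟩ := hsurj t x
    simp only
    have e1 := hCE t s
    have e2 := hp1 t s
    unfold Hof H0
    rw [e1]
    simp only
    rw [hth _ e2, hth _ hc1]
  · have : ContDiff ℝ 2 (fun s : ℝ × ℝ => (s.1, X (s.1, s.2, c2))) := by fun_prop
    exact this.of_le (by norm_num)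
  · intro s
    have e1 : (s + (1, -al)).1 = s.1 + 1 := rfl
    have e2 : (s + (1, -al)).2 = s.2 - al := by simp [sub_eq_add_neg]
    simp only [e1, e2, hT.X1]
    ext
    · simp
    · simp [sub_eq_add_neg]
  · intro s
    have e1 : (s + (0, 1)).1 = s.1 := by simp
    have e2 : (s + (0, 1)).2 = s.2 + 1 := rfl
    simp only [e1, e2, hT.X2]
    ext
    · simp
    · simp
  · exact hwc
  · exact ⟨fun s => by simp only [hw]; rw [hS1 s], fun s => by simp only [hw]; rw [hS2 s]⟩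
  · exact hwp
  · exact hVc
  · exact ⟨fun s => by simp only [hV, hw]; rw [hS1 s, hPS1 s], fun s => by simp only [hV, hw]; rw [hS2 s, hPS2 s]⟩
  · rintro ⟨t, s⟩
    have hd : HasFDerivAt (fun s : ℝ × ℝ => ((s.1, s.2, c2) : ℝ × ℝ × ℝ))
        ((ContinuousLinearMap.fst ℝ ℝ ℝ).prod ((ContinuousLinearMap.snd ℝ ℝ ℝ).prod 0)) (t, s) := by
      refine hasFDerivAt_fst.prodMk (hasFDerivAt_snd.prodMk ?_)
      exact hasFDerivAt_const c2 (t, s)
    have hXd : HasFDerivAt X (fderiv ℝ X (t, s, c2)) (t, s, c2) :=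
      (hsX.differentiable (by norm_num) _).hasFDerivAt
    have hXc := HasFDerivAt.comp (t, s) (f := fun s : ℝ × ℝ => ((s.1, s.2, c2) : ℝ × ℝ × ℝ)) hXd hd
    have hYd := (hasFDerivAt_fst (𝕜 := ℝ) (p := ((t, s) : ℝ × ℝ))).prodMk hXc
    have e1 : fderiv ℝ (fun s : ℝ × ℝ => (s.1, X (s.1, s.2, c2))) (t, s) =
        (ContinuousLinearMap.fst ℝ ℝ ℝ).prod ((fderiv ℝ X (t, s, c2)).comp
          ((ContinuousLinearMap.fst ℝ ℝ ℝ).prod ((ContinuousLinearMap.snd ℝ ℝ ℝ).prod 0))) :=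
      hYd.fderiv
    rw [e1]
    have e2 := hflow t s
    have e3 : fderiv ℝ (fun z : ℝ × ℝ × ℝ => G (z.1, z.2.1, z.2.2, E)) (t, X (t, s, c2), P (t, s, c2))
        (0, 0, 1) = fderiv ℝ G (t, X (t, s, c2), P (t, s, c2), E) (0, 0, 1, 0) := by
      have hd2 : HasFDerivAt (fun z : ℝ × ℝ × ℝ => ((z.1, z.2.1, z.2.2, E) : ℝ × ℝ × ℝ × ℝ))
          ((ContinuousLinearMap.fst ℝ ℝ (ℝ × ℝ)).prod
            (((ContinuousLinearMap.fst ℝ ℝ ℝ).comp (ContinuousLinearMap.snd ℝ ℝ (ℝ × ℝ))).prod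
              (((ContinuousLinearMap.snd ℝ ℝ ℝ).comp (ContinuousLinearMap.snd ℝ ℝ (ℝ × ℝ))).prod 0)))
          (t, X (t, s, c2), P (t, s, c2)) := by
        refine hasFDerivAt_fst.prodMk ?_
        refine HasFDerivAt.prodMk ?_ ?_
        · exact ((ContinuousLinearMap.fst ℝ ℝ ℝ).comp (ContinuousLinearMap.snd ℝ ℝ (ℝ × ℝ))).hasFDerivAt
        · refine HasFDerivAt.prodMk ?_ ?_
          · exact ((ContinuousLinearMap.snd ℝ ℝ ℝ).comp (ContinuousLinearMap.snd ℝ ℝ (ℝ × ℝ))).hasFDerivAt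
          · exact hasFDerivAt_const E _
      have hGd2 : HasFDerivAt G (fderiv ℝ G (t, X (t, s, c2), P (t, s, c2), E))
          (t, X (t, s, c2), P (t, s, c2), E) := (hGd _).hasFDerivAt
      have hc := HasFDerivAt.comp (t, X (t, s, c2), P (t, s, c2))
        (f := fun z : ℝ × ℝ × ℝ => ((z.1, z.2.1, z.2.2, E) : ℝ × ℝ × ℝ × ℝ)) hGd2 hd2
      have := hc.fderiv
      have e4 : (G ∘ fun z : ℝ × ℝ × ℝ => ((z.1, z.2.1, z.2.2, E) : ℝ × ℝ × ℝ × ℝ)) =
        fun z : ℝ × ℝ × ℝ => G (z.1, z.2.1, z.2.2, E) := rfl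
      rw [e4] at this
      rw [this]
      simp
    rw [e3] at e2
    have hwne : w (t, s) ≠ 0 := (hwp (t, s)).ne'
    have e5 : ((ContinuousLinearMap.fst ℝ ℝ ℝ).prod ((fderiv ℝ X (t, s, c2)).comp
          ((ContinuousLinearMap.fst ℝ ℝ ℝ).prod ((ContinuousLinearMap.snd ℝ ℝ ℝ).prod 0))))
          (Real.exp E, Real.exp E * c2) = (Real.exp E, Real.exp E *
            (P (t, s, c2) + fderiv ℝ G (t, X (t, s, c2), P (t, s, c2), E) (0, 0, 1, 0))) := by
      rw [← e2]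
      have e6 : (fderiv ℝ X (t, s, c2)) (Real.exp E, Real.exp E * c2, 0) =
          Real.exp E * fderiv ℝ X (t, s, c2) (1, c2, 0) := by
        have : ((Real.exp E, Real.exp E * c2, 0) : ℝ × ℝ × ℝ) = Real.exp E • (1, c2, 0) := by
          simp
        rw [this, map_smul, smul_eq_mul]
      rw [← e6]
      simp
    rw [e5]
    have e7 : V (t, s) = (Real.exp E / w (t, s), Real.exp E / w (t, s) *
      (P (t, s, c2) + fderiv ℝ G (t, X (t, s, c2), P (t, s, c2), E) (0, 0, 1, 0))) := rfl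
    rw [e7]
    ext
    · simp only [Prod.smul_fst, smul_eq_mul]
      field_simp
    · simp only [Prod.smul_snd, smul_eq_mul]
      field_simp
  · rintro ⟨t, s⟩ q
    have e1 := grad_Hof hG sC hC (t, X (t, s, c2)) (c1 + fderiv ℝ u (t, X (t, s, c2)) (1, 0),
      c2 + fderiv ℝ u (t, X (t, s, c2)) (0, 1)) q
    simp only at e1 ⊢
    rw [e1, hCE t s]
    have e2 : c2 + fderiv ℝ u (t, X (t, s, c2)) (0, 1) = P (t, s, c2) := by rw [hux t s]; ring
    rw [e2]
    have e3 := hp1 t s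
    rw [max_eq_right (by linarith : -(c1 + fderiv ℝ u (t, X (t, s, c2)) (1, 0)) ≤ 0)]
    simp only [hV, hw]
    ring

end J_calib_main
export J_calib_main (calib_main)
end Pool.Agent.Helper785.EN
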