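import Pool.Agent.Helper785.EN.Defs
import Pool.Agent.Helper785.EN.P_inv_contDiff

set_option autoImplicit false
open MeasureTheory

namespace Pool.Agent.Helper785.EN
namespace J_exists_energy



variable {al : ℝ} {G G' : ℝ × ℝ × ℝ × ℝ → ℝ}





theorem ee_hasDeriv (hG : Pert al G) (a b c s : ℝ) :
    HasDerivAt (fun s => G (a, b, c, s)) (fderiv ℝ G (a, b, c, s) (0, 0, 0, 1)) s := by
  have h1 : HasFDerivAt G (fderiv ℝ G (a, b, c, s)) (a, b, c, s) :=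
    (hG.smooth.differentiable (by norm_num) _).hasFDerivAt
  have h2 : HasDerivAt (fun s : ℝ => (a, b, c, s)) (0, 0, 0, 1) s :=
    (hasDerivAt_const s a).prodMk ((hasDerivAt_const s b).prodMk
      ((hasDerivAt_const s c).prodMk (hasDerivAt_id s)))
  exact h1.comp_hasDerivAt s h2

theorem ee_lip (hG : Pert al G) (a b c s s' : ℝ) :
    |G (a, b, c, s) - G (a, b, c, s')| ≤ 1 / 100 * |s - s'| := by
  have h := Convex.norm_image_sub_le_of_norm_deriv_le (f := fun s => G (a, b, c, s))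
    (s := Set.univ) (x := s') (y := s) (C := 1 / 100)
    (fun x _ => (ee_hasDeriv hG a b c x).differentiableAt)
    (fun x _ => by
      rw [(ee_hasDeriv hG a b c x).deriv, Real.norm_eq_abs]
      exact hG.bC _) convex_univ (Set.mem_univ _) (Set.mem_univ _)
  simpa [Real.norm_eq_abs] using h

theorem ee_inj (hG : Pert al G) (a b c s s' : ℝ)
    (h : s - G (a, b, c, s) = s' - G (a, b, c, s')) : s = s' := by
  have h1 := ee_lip hG a b c s s'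
  have h2 : G (a, b, c, s) - G (a, b, c, s') = s - s' := by linarith
  rw [h2] at h1
  have h3 : |s - s'| ≤ 0 := by linarith [abs_nonneg (s - s')]
  have h4 := abs_nonpos_iff.mp h3
  linarith

theorem ee_surj (hG : Pert al G) (a b c r : ℝ) : ∃ s, s = r + G (a, b, c, s) := by
  have hc : Continuous (fun s => s - G (a, b, c, s)) := by
    have h1 := hG.smooth.continuous
    fun_prop
  have h1 := abs_le.mp (hG.bd (a, b, c, r - 1))
  have h2 := abs_le.mp (hG.bd (a, b, c, r + 1))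
  have h3 : r ∈ Set.Icc ((r - 1) - G (a, b, c, r - 1)) ((r + 1) - G (a, b, c, r + 1)) :=
    ⟨by linarith [h1.1], by linarith [h2.2]⟩
  obtain ⟨s, -, hs⟩ := intermediate_value_Icc (by linarith : r - 1 ≤ r + 1) hc.continuousOn h3
  exact ⟨s, by simp only at hs; linarith⟩

/-- reordering of the variables -/
noncomputable def eeL : ((ℝ × ℝ) × (ℝ × ℝ)) →L[ℝ] (ℝ × ℝ × ℝ × ℝ) :=
  ((ContinuousLinearMap.fst ℝ ℝ ℝ).comp (ContinuousLinearMap.fst ℝ (ℝ × ℝ) (ℝ × ℝ))).prod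
    (((ContinuousLinearMap.snd ℝ ℝ ℝ).comp (ContinuousLinearMap.fst ℝ (ℝ × ℝ) (ℝ × ℝ))).prod
      (((ContinuousLinearMap.snd ℝ ℝ ℝ).comp (ContinuousLinearMap.snd ℝ (ℝ × ℝ) (ℝ × ℝ))).prod
        ((ContinuousLinearMap.fst ℝ ℝ ℝ).comp (ContinuousLinearMap.snd ℝ (ℝ × ℝ) (ℝ × ℝ)))))

theorem eeL_apply (q : (ℝ × ℝ) × (ℝ × ℝ)) : eeL q = (q.1.1, q.1.2, q.2.2, q.2.1) := rfl

/-- the direct map -/
noncomputable def eePhi (G : ℝ × ℝ × ℝ × ℝ → ℝ) (q : (ℝ × ℝ) × (ℝ × ℝ)) :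
    (ℝ × ℝ) × (ℝ × ℝ) :=
  (q.1, (q.2.1 - 1 / 2 * (q.2.2 * q.2.2) - G (eeL q), q.2.2))

theorem eePhi_contDiff (hG : Pert al G) : ContDiff ℝ 2 (eePhi G) := by
  have h1 : ContDiff ℝ 2 (fun q : (ℝ × ℝ) × (ℝ × ℝ) => G (eeL q)) :=
    hG.smooth.comp eeL.contDiff
  have a : ContDiff ℝ 2 (fun q : (ℝ × ℝ) × (ℝ × ℝ) => q.2.1) := contDiff_fst.comp contDiff_snd
  have b : ContDiff ℝ 2 (fun q : (ℝ × ℝ) × (ℝ × ℝ) => q.2.2) := contDiff_snd.comp contDiff_snd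
  exact contDiff_fst.prodMk (((a.sub (contDiff_const.mul (b.mul b))).sub h1).prodMk b)

theorem eePhi_fderiv (hG : Pert al G) (q v : (ℝ × ℝ) × (ℝ × ℝ)) :
    fderiv ℝ (eePhi G) q v
      = (v.1, (v.2.1 - q.2.2 * v.2.2 - fderiv ℝ G (eeL q) (eeL v), v.2.2)) := by
  have h1 : HasFDerivAt G (fderiv ℝ G (eeL q)) (eeL q) :=
    (hG.smooth.differentiable (by norm_num) _).hasFDerivAt
  have h2 : HasFDerivAt (fun q : (ℝ × ℝ) × (ℝ × ℝ) => G (eeL q))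
      ((fderiv ℝ G (eeL q)).comp eeL) q := h1.comp q eeL.hasFDerivAt
  have h3 : HasFDerivAt (fun q : (ℝ × ℝ) × (ℝ × ℝ) => q.1)
      (ContinuousLinearMap.fst ℝ (ℝ × ℝ) (ℝ × ℝ)) q := hasFDerivAt_fst
  have h4 : HasFDerivAt (fun q : (ℝ × ℝ) × (ℝ × ℝ) => q.2.1)
      ((ContinuousLinearMap.fst ℝ ℝ ℝ).comp (ContinuousLinearMap.snd ℝ (ℝ × ℝ) (ℝ × ℝ))) q :=
    ((ContinuousLinearMap.fst ℝ ℝ ℝ).comp
      (ContinuousLinearMap.snd ℝ (ℝ × ℝ) (ℝ × ℝ))).hasFDerivAt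
  have h5 : HasFDerivAt (fun q : (ℝ × ℝ) × (ℝ × ℝ) => q.2.2)
      ((ContinuousLinearMap.snd ℝ ℝ ℝ).comp (ContinuousLinearMap.snd ℝ (ℝ × ℝ) (ℝ × ℝ))) q :=
    ((ContinuousLinearMap.snd ℝ ℝ ℝ).comp
      (ContinuousLinearMap.snd ℝ (ℝ × ℝ) (ℝ × ℝ))).hasFDerivAt
  have h6 := h3.prodMk (((h4.sub ((h5.mul h5).const_mul (1 / 2))).sub h2).prodMk h5)
  have h7 : fderiv ℝ (eePhi G) q = _ := HasFDerivAt.fderiv h6
  rw [h7]
  simp
  ring



/-- existence of the C² energy function. -/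
theorem exists_energy (hG : Pert al G) :
    ∃ C : (ℝ × ℝ) × (ℝ × ℝ) → ℝ, ContDiff ℝ 2 C ∧ IsEnergy G C := by
  choose C hC using fun q : (ℝ × ℝ) × (ℝ × ℝ) =>
    ee_surj hG q.1.1 q.1.2 q.2.2 (q.2.1 + q.2.2 ^ 2 / 2)
  refine ⟨C, ?_, hC⟩
  set Psi : (ℝ × ℝ) × (ℝ × ℝ) → (ℝ × ℝ) × (ℝ × ℝ) := fun q => (q.1, (C q, q.2.2)) with hPsi
  have h1 : ∀ q, Psi (eePhi G q) = q := by
    intro q
    have h2 : C (eePhi G q) = q.2.1 := by
      have h3 := hC (eePhi G q)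
      unfold eePhi at h3 ⊢
      simp only [eeL_apply] at h3 ⊢
      refine ee_inj hG q.1.1 q.1.2 q.2.2 _ _ ?_
      linarith
    rw [hPsi]
    show ((eePhi G q).1, (C (eePhi G q), (eePhi G q).2.2)) = q
    rw [h2]
    rfl
  have h2 : ∀ q, eePhi G (Psi q) = q := by
    intro q
    have h3 := hC q
    unfold eePhi
    simp only [eeL_apply, hPsi]
    have h4 : C q - 1 / 2 * (q.2.2 * q.2.2) - G (q.1.1, q.1.2, q.2.2, C q) = q.2.1 := by linarith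
    rw [h4]
  have h3 : ∀ q, ∃ e : ((ℝ × ℝ) × (ℝ × ℝ)) ≃L[ℝ] ((ℝ × ℝ) × (ℝ × ℝ)),
      (e : ((ℝ × ℝ) × (ℝ × ℝ)) →L[ℝ] ((ℝ × ℝ) × (ℝ × ℝ))) = fderiv ℝ (eePhi G) q := by
    intro q
    have hinj : Function.Injective (fderiv ℝ (eePhi G) q) := by
      refine (injective_iff_map_eq_zero (fderiv ℝ (eePhi G) q)).mpr (fun v hv => ?_)
      rw [eePhi_fderiv hG] at hv
      have a1 : v.1 = 0 := congrArg Prod.fst hv
      have a2 : v.2.2 = 0 := congrArg (fun z : (ℝ × ℝ) × (ℝ × ℝ) => z.2.2) hv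
      have a3 : v.2.1 - q.2.2 * v.2.2 - fderiv ℝ G (eeL q) (eeL v) = 0 :=
        congrArg (fun z : (ℝ × ℝ) × (ℝ × ℝ) => z.2.1) hv
      have a4 : eeL v = v.2.1 • ((0, 0, 0, 1) : ℝ × ℝ × ℝ × ℝ) := by
        rw [eeL_apply, a1, a2]
        simp
      rw [a4, map_smul, smul_eq_mul, a2, mul_zero, sub_zero] at a3
      have a5 := abs_le.mp (hG.bC (eeL q))
      have a6 : v.2.1 * (1 - fderiv ℝ G (eeL q) (0, 0, 0, 1)) = 0 := by linarith
      have a7 : v.2.1 = 0 := by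
        rcases mul_eq_zero.mp a6 with h | h
        · exact h
        · exfalso
          linarith [a5.2]
      have a8 : v.2 = 0 := Prod.ext a7 a2
      exact Prod.ext a1 a8
    have hsurj : Function.Surjective (fderiv ℝ (eePhi G) q) :=
      (LinearMap.injective_iff_surjective (f := ((fderiv ℝ (eePhi G) q) : ((ℝ × ℝ) × (ℝ × ℝ)) →ₗ[ℝ] ((ℝ × ℝ) × (ℝ × ℝ))))).mp hinj
    exact ⟨ContinuousLinearEquiv.ofBijective (fderiv ℝ (eePhi G) q)
      (LinearMap.ker_eq_bot.mpr hinj) (LinearMap.range_eq_top.mpr hsurj),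
      ContinuousLinearEquiv.coe_ofBijective _ _ _⟩
  have h4 : ContDiff ℝ ((2 : ℕ) : WithTop ℕ∞) Psi :=
    inv_contDiff (n := 2) (by norm_num) (by exact_mod_cast eePhi_contDiff hG) h1 h2 h3
  have h5 : ContDiff ℝ 2 Psi := by exact_mod_cast h4
  have h6 : C = fun q => (Psi q).2.1 := rfl
  rw [h6]
  exact (contDiff_fst.comp contDiff_snd).comp h5

end J_exists_energy
export J_exists_energy (exists_energy)
end Pool.Agent.Helper785.EN
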